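import Pool.Agent.Q233.CPC.Unit

/-!
# Rows of traps on the line
-/

set_option autoImplicit false

open Set Filter Topology MeasureTheory

noncomputable section

namespace Pool.Agent.Q233.CPC

/-- `n` traps in the interval `[-r, r]` for the potential `ν Q` -/
structure Tr (r δ η ν : ℝ) (n : ℕ) (X X1 X2 : Fin n → ℝ → ℝ) (Q : ℝ → ℝ) (I : Fin n → Set ℝ) :
    Prop where
  d1 : ∀ a t, HasDerivAt (X a) (X1 a t) t
  d2 : ∀ a t, HasDerivAt (X1 a) (X2 a t) t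
  c2 : ∀ a, Continuous (X2 a)
  cQ : Continuous Q
  near : ∀ t, |Q t - 1| ≤ δ
  cl : ∀ a, IsClosed (I a)
  sub : ∀ a, I a ⊆ Icc (-r) r
  dis : ∀ a b, a ≠ b → Disjoint (I a) (I b)
  supp : ∀ a t, t ∉ I a → X a t = 0 ∧ X1 a t = 0 ∧ X2 a t = 0
  pos : ∀ a, 0 < ∫ t, (X a t) ^ 2
  res : ∀ a, ∫ t, (X2 a t + ν * Q t * X a t) ^ 2 ≤ η ^ 2 * ∫ t, (X a t) ^ 2

lemma int_scale {s : ℝ} (hs : 0 < s) (c : ℝ) (g : ℝ → ℝ) :
    ∫ x, g ((x - c) / s) = s * ∫ x, g x := by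
  rw [integral_sub_right_eq_self (fun x => g (x / s)) c, Measure.integral_comp_div, abs_of_pos hs,
    smul_eq_mul]

lemma arr_of_unit {r δ ε k η : ℝ} {n : ℕ} (hr : 0 < r) (hn : 0 < n) (hδ : 0 ≤ δ)
    {F F1 F2 q : ℝ → ℝ} (h : UT δ k ε F F1 F2 q) (hη : ε * (n / r) ^ 4 ≤ η ^ 2) :
    ∃ (X X1 X2 : Fin n → ℝ → ℝ) (Q : ℝ → ℝ) (I : Fin n → Set ℝ),
      Tr r δ η (k ^ 2 * (n / r) ^ 2) n X X1 X2 Q I := by
  have hn' : (0 : ℝ) < n := by exact_mod_cast hn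
  obtain ⟨s, hs⟩ : ∃ s : ℝ, s = r / n := ⟨_, rfl⟩
  have hs0 : 0 < s := by rw [hs]; positivity
  have hsn : (n : ℝ) / r = 1 / s := by rw [hs]; field_simp
  have hns : (n : ℝ) * s = r := by rw [hs]; field_simp
  rw [hsn] at hη ⊢
  obtain ⟨c, hc⟩ : ∃ c : Fin n → ℝ, c = fun a : Fin n => -r + s * (2 * ((a : ℕ) : ℝ) + 1) := ⟨_, rfl⟩
  have hca : ∀ a : Fin n, c a = -r + s * (2 * ((a : ℕ) : ℝ) + 1) := fun a => by rw [hc]
  have hcc : ∀ a b, a ≠ b → 2 * s ≤ |c a - c b| := by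
    intro a b hab
    rw [hca, hca]
    have h1 : -r + s * (2 * ((a : ℕ) : ℝ) + 1) - (-r + s * (2 * ((b : ℕ) : ℝ) + 1)) =
        2 * s * (((a : ℕ) : ℝ) - ((b : ℕ) : ℝ)) := by ring
    rw [h1, abs_mul, abs_of_pos (by positivity : 0 < 2 * s)]
    have h2 : (1 : ℝ) ≤ |((a : ℕ) : ℝ) - ((b : ℕ) : ℝ)| := by
      have h3 : ((a : ℕ) : ℤ) - ((b : ℕ) : ℤ) ≠ 0 := by
        intro h4
        apply hab
        apply Fin.ext
        omega
      have h5 := Int.one_le_abs h3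
      exact_mod_cast h5
    nlinarith
  have hfar : ∀ (x : ℝ) (a b : Fin n), a ≠ b → |(x - c a) / s| < 1 → 1 ≤ |(x - c b) / s| := by
    intro x a b hab hx
    rw [abs_div, abs_of_pos hs0, div_lt_one hs0] at hx
    rw [abs_div, abs_of_pos hs0, le_div_iff₀ hs0, one_mul]
    have h1 := hcc a b hab
    have h2 : |c a - c b| ≤ |x - c b| + |x - c a| := by
      have : c a - c b = (x - c b) - (x - c a) := by ring
      rw [this]
      exact abs_sub _ _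
    linarith
  obtain ⟨w, hw⟩ : ∃ w : ℝ → ℝ, w = fun t => (q t - 1) * max 0 (min 1 (7 - 8 * |t|)) := ⟨_, rfl⟩
  have hwc : Continuous w := by
    rw [hw]
    have := h.cq
    fun_prop
  have hw1 : ∀ t, |t| ≤ 3 / 4 → w t = q t - 1 := by
    intro t ht
    rw [hw]
    simp only
    rw [min_eq_left (by linarith), max_eq_right zero_le_one, mul_one]
  have hw0 : ∀ t, 1 ≤ |t| → w t = 0 := by
    intro t ht
    rw [hw]
    simp only
    rw [max_eq_left ((min_le_right _ _).trans (by linarith)), mul_zero]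
  have hwb : ∀ t, |w t| ≤ δ := by
    intro t
    by_cases ht : 1 ≤ |t|
    · rw [hw0 t ht, abs_zero]
      exact hδ
    · rw [hw]
      simp only
      push Not at ht
      have h1 := h.near t ht.le
      have h2 : 0 ≤ max 0 (min 1 (7 - 8 * |t|)) := le_max_left _ _
      have h3 : max 0 (min 1 (7 - 8 * |t|)) ≤ 1 := max_le zero_le_one (min_le_left _ _)
      rw [abs_mul, abs_of_nonneg h2]
      calc |q t - 1| * max 0 (min 1 (7 - 8 * |t|)) ≤ |q t - 1| * 1 :=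
            mul_le_mul_of_nonneg_left h3 (abs_nonneg _)
        _ ≤ δ := by rw [mul_one]; exact h1
  obtain ⟨Q, hQ⟩ : ∃ Q : ℝ → ℝ, Q = fun x => 1 + ∑ a, w ((x - c a) / s) := ⟨_, rfl⟩
  have hQ1 : ∀ x a, |(x - c a) / s| < 1 → Q x = 1 + w ((x - c a) / s) := by
    intro x a hx
    rw [hQ]
    simp only
    rw [Finset.sum_eq_single a]
    · intro b _ hb
      exact hw0 _ (hfar x a b hb.symm hx)
    · intro hh
      exact absurd (Finset.mem_univ a) hh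
  have hQn : ∀ x, |Q x - 1| ≤ δ := by
    intro x
    by_cases hx : ∃ a, |(x - c a) / s| < 1
    · obtain ⟨a, ha⟩ := hx
      rw [hQ1 x a ha, add_sub_cancel_left]
      exact hwb _
    · push Not at hx
      have : Q x = 1 := by
        rw [hQ]
        simp only
        rw [Finset.sum_eq_zero fun a _ => hw0 _ (hx a), add_zero]
      rw [this, sub_self, abs_zero]
      exact hδ
  have hout : ∀ (a : Fin n) (t : ℝ), t ∉ Icc (c a - 3 / 4 * s) (c a + 3 / 4 * s) →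
      3 / 4 ≤ |(t - c a) / s| := by
    intro a t ht
    rw [abs_div, abs_of_pos hs0, le_div_iff₀ hs0]
    by_contra hcon
    push Not at hcon
    rw [abs_lt] at hcon
    exact ht ⟨by linarith [hcon.1], by linarith [hcon.2]⟩
  have hlin : ∀ (a : Fin n) (t : ℝ), HasDerivAt (fun x => (x - c a) / s) (1 / s) t := fun a t =>
    ((hasDerivAt_id t).sub_const (c a)).div_const s
  refine ⟨fun a x => F ((x - c a) / s), fun a x => F1 ((x - c a) / s) * (1 / s),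
    fun a x => F2 ((x - c a) / s) * (1 / s) * (1 / s), Q,
    fun a => Icc (c a - 3 / 4 * s) (c a + 3 / 4 * s), ?_, ?_, ?_, ?_, hQn, fun a => isClosed_Icc,
    ?_, ?_, ?_, ?_, ?_⟩
  · intro a t
    exact (h.d1 _).comp t (hlin a t)
  · intro a t
    exact ((h.d2 _).comp t (hlin a t)).mul_const (1 / s)
  · intro a
    have := h.c2
    fun_prop
  · rw [hQ]
    fun_prop
  · intro a x hx
    have h1 : ((a : ℕ) : ℝ) + 1 ≤ n := by exact_mod_cast a.2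
    have h2 : (0 : ℝ) ≤ ((a : ℕ) : ℝ) := Nat.cast_nonneg _
    have h3 : s * (((a : ℕ) : ℝ) + 1) ≤ s * n := mul_le_mul_of_nonneg_left h1 hs0.le
    have h4 : 0 ≤ s * ((a : ℕ) : ℝ) := mul_nonneg hs0.le h2
    have h5 := hca a
    constructor
    · have := hx.1
      nlinarith
    · have := hx.2
      nlinarith
  · intro a b hab
    rw [Set.disjoint_left]
    intro x hxa hxb
    have h1 := hcc a b hab
    have h2 : |c a - c b| ≤ 3 / 2 * s := by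
      rw [abs_le]
      constructor <;> linarith [hxa.1, hxa.2, hxb.1, hxb.2]
    linarith
  · intro a t ht
    obtain ⟨h1, h2, h3⟩ := h.supp _ (hout a t ht)
    rw [h1, h2, h3]
    simp
  · intro a
    rw [int_scale hs0 (c a) fun t => (F t) ^ 2]
    exact mul_pos hs0 h.pos
  · intro a
    have h1 : ∀ x, F2 ((x - c a) / s) * (1 / s) * (1 / s) +
        k ^ 2 * (1 / s) ^ 2 * Q x * F ((x - c a) / s) =
        (1 / s) ^ 2 * (F2 ((x - c a) / s) + k ^ 2 * q ((x - c a) / s) * F ((x - c a) / s)) := by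
      intro x
      by_cases hx : 3 / 4 ≤ |(x - c a) / s|
      · obtain ⟨h1, h2, h3⟩ := h.supp _ hx
        rw [h1, h3]
        ring
      · push Not at hx
        rw [hQ1 x a (by linarith), hw1 _ hx.le]
        ring
    have h2 : ∫ x, (F2 ((x - c a) / s) * (1 / s) * (1 / s) +
        k ^ 2 * (1 / s) ^ 2 * Q x * F ((x - c a) / s)) ^ 2 =
        s * ((1 / s) ^ 4 * ∫ t, (F2 t + k ^ 2 * q t * F t) ^ 2) := by
      rw [← integral_const_mul, ← int_scale hs0 (c a)]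
      refine integral_congr_ae (Eventually.of_forall fun x => ?_)
      simp only
      rw [h1 x]
      ring
    rw [h2, int_scale hs0 (c a) fun t => (F t) ^ 2]
    have h3 := h.res
    have h4 := h.pos
    calc s * ((1 / s) ^ 4 * ∫ t, (F2 t + k ^ 2 * q t * F t) ^ 2)
        ≤ s * ((1 / s) ^ 4 * (ε * ∫ t, (F t) ^ 2)) := by gcongr
      _ = (ε * (1 / s) ^ 4) * (s * ∫ t, (F t) ^ 2) := by ring
      _ ≤ η ^ 2 * (s * ∫ t, (F t) ^ 2) := mul_le_mul_of_nonneg_right hη (by positivity)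

theorem arr {r δ η Γ₁ Γ₂ K T₀ : ℝ} (hr : 0 < r) (hδ : 0 < δ) (hδ1 : δ ≤ 1) (hη : 0 < η)
    (hΓ₁ : 0 < Γ₁) (hΓ₂ : 0 < Γ₂) (hK : 0 ≤ K) :
    ∃ (n : ℕ) (ν : ℝ) (X X1 X2 : Fin n → ℝ → ℝ) (Q : ℝ → ℝ) (I : Fin n → Set ℝ),
      0 < ν ∧ T₀ < Γ₁ * ν ∧ 1 < Γ₁ * ν ∧ K * (Γ₂ * ν) < (n : ℝ) ^ 2 * (Real.log (Γ₁ * ν)) ^ 3 ∧
      Tr r δ η ν n X X1 X2 Q I := by
  obtain ⟨c, hc⟩ : ∃ c : ℝ, c = δ / 1000 := ⟨_, rfl⟩
  have hc0 : 0 < c := by rw [hc]; positivity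
  have e1 := unit hδ hδ1
  have hlin : Tendsto (fun k : ℕ => c * (k : ℝ)) atTop atTop :=
    tendsto_natCast_atTop_atTop.const_mul_atTop hc0
  have hexp : Tendsto (fun k : ℕ => Real.exp (c * (k : ℝ))) atTop atTop :=
    Real.tendsto_exp_atTop.comp hlin
  have e2 : ∀ᶠ k : ℕ in atTop, 1 / (r ^ 4 * η ^ 2) ≤ Real.exp (c * (k : ℝ)) :=
    hexp.eventually_ge_atTop _
  have e3 : ∀ᶠ k : ℕ in atTop, 4 * (|T₀| + 2 + r ^ 2 / Γ₁ * 4 * (|T₀| + 2)) + 2 ≤
      Real.exp (c * (k : ℝ)) := hexp.eventually_ge_atTop _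
  have e4 : ∀ᶠ k : ℕ in atTop, 8 * (K * Γ₂ / r ^ 2) / c ^ 3 + 1 ≤ (k : ℝ) :=
    tendsto_natCast_atTop_atTop.eventually_ge_atTop _
  have e5 : ∀ᶠ k : ℕ in atTop, 4 * r ^ 2 / Γ₁ + 1 ≤ (k : ℝ) :=
    tendsto_natCast_atTop_atTop.eventually_ge_atTop _
  obtain ⟨k, ⟨F, F1, F2, q, hU⟩, hk2, hk3, hk4, hk5⟩ :=
    (e1.and (e2.and (e3.and (e4.and e5)))).exists
  have hr2 : 0 < r ^ 2 := by positivity
  obtain ⟨x, hx⟩ : ∃ x : ℝ, x = Real.exp (c * (k : ℝ)) := ⟨_, rfl⟩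
  rw [← hx] at hk2 hk3
  have hx0 : 0 < x := by rw [hx]; exact Real.exp_pos _
  have hT0 := abs_nonneg T₀
  have hrΓ : 0 < r ^ 2 / Γ₁ := by positivity
  have hx2 : 4 * (|T₀| + 2) + 2 ≤ x := by nlinarith
  have hk1 : (1 : ℝ) ≤ k := by
    have : 0 < 4 * r ^ 2 / Γ₁ := by positivity
    linarith
  have hk0 : (0 : ℝ) < k := by linarith
  obtain ⟨n, hn⟩ : ∃ n : ℕ, n = ⌊x⌋₊ := ⟨_, rfl⟩
  have hnx : (n : ℝ) ≤ x := by rw [hn]; exact Nat.floor_le hx0.le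
  have hnx' : x / 2 ≤ n := by
    have h1 := Nat.lt_floor_add_one x
    rw [← hn] at h1
    linarith
  have hn0 : 0 < n := by
    have : (0 : ℝ) < n := by linarith
    exact_mod_cast this
  have hn' : (0 : ℝ) < n := by exact_mod_cast hn0
  obtain ⟨X, X1, X2, Q, I, hT⟩ := arr_of_unit (n := n) (η := η) hr hn0 hδ.le hU (by
    have h1 : Real.exp (-(δ / 160 * k)) ≤ 1 / x ^ 5 := by
      have h2 : 1 / x ^ 5 = Real.exp (-(5 * (c * k))) := by
        rw [Real.exp_neg, one_div, hx, ← Real.exp_nat_mul]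
        norm_num
      rw [h2, Real.exp_le_exp, hc]
      have : 0 ≤ δ * (k : ℝ) := by positivity
      nlinarith
    calc Real.exp (-(δ / 160 * k)) * ((n : ℝ) / r) ^ 4 ≤ 1 / x ^ 5 * (x / r) ^ 4 := by
          gcongr
      _ = 1 / (x * r ^ 4) := by field_simp
      _ ≤ η ^ 2 := by
        rw [div_le_iff₀ (by positivity)]
        rw [div_le_iff₀ (by positivity)] at hk2
        linarith)
  have hν : (k : ℝ) ^ 2 * ((n : ℝ) / r) ^ 2 = k ^ 2 * n ^ 2 / r ^ 2 := by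
    field_simp
  have hbig : (n : ℝ) ≤ Γ₁ * ((k : ℝ) ^ 2 * ((n : ℝ) / r) ^ 2) := by
    rw [hν]
    have h1 : r ^ 2 / Γ₁ ≤ k := by
      have h2 : 4 * r ^ 2 / Γ₁ = 4 * (r ^ 2 / Γ₁) := by ring
      rw [h2] at hk5
      linarith
    rw [div_le_iff₀ hΓ₁] at h1
    have hn1 : (1 : ℝ) ≤ n := by exact_mod_cast hn0
    rw [← mul_div_assoc, le_div_iff₀ hr2]
    calc (n : ℝ) * r ^ 2 ≤ n * (k * Γ₁) := mul_le_mul_of_nonneg_left h1 hn'.le
      _ = Γ₁ * (k * n) := by ring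
      _ ≤ Γ₁ * (k ^ 2 * n ^ 2) := by
        refine mul_le_mul_of_nonneg_left ?_ hΓ₁.le
        nlinarith [mul_le_mul hk1 hn1 zero_le_one hk0.le]
  refine ⟨n, _, X, X1, X2, Q, I, by positivity, ?_, ?_, ?_, hT⟩
  · have := le_abs_self T₀
    linarith
  · linarith
  · have hlog : c * k / 2 ≤ Real.log (Γ₁ * ((k : ℝ) ^ 2 * ((n : ℝ) / r) ^ 2)) := by
      have h1 : Real.log (x / 2) ≤ Real.log (Γ₁ * ((k : ℝ) ^ 2 * ((n : ℝ) / r) ^ 2)) :=
        Real.log_le_log (by positivity) (hnx'.trans hbig)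
      refine le_trans ?_ h1
      rw [Real.log_div hx0.ne' two_ne_zero]
      have h2 : Real.log x = c * k := by rw [hx, Real.log_exp]
      have h3 : Real.log 2 ≤ Real.log x / 2 := by
        have h4 : Real.log (2 ^ 2) ≤ Real.log x := Real.log_le_log (by norm_num) (by linarith)
        rw [Real.log_pow] at h4
        push_cast at h4
        linarith
      linarith
    have hck : 0 < c * k / 2 := by positivity
    have h1 : (c * k / 2) ^ 3 ≤ (Real.log (Γ₁ * ((k : ℝ) ^ 2 * ((n : ℝ) / r) ^ 2))) ^ 3 :=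
      pow_le_pow_left₀ hck.le hlog 3
    have h2 : K * Γ₂ / r ^ 2 * (k : ℝ) ^ 2 < (c * k / 2) ^ 3 := by
      have h3 : 8 * (K * Γ₂ / r ^ 2) / c ^ 3 < k := by linarith
      rw [div_lt_iff₀ (by positivity)] at h3
      calc K * Γ₂ / r ^ 2 * (k : ℝ) ^ 2 = (8 * (K * Γ₂ / r ^ 2)) * (k ^ 2 / 8) := by ring
        _ < (k * c ^ 3) * (k ^ 2 / 8) := mul_lt_mul_of_pos_right h3 (by positivity)
        _ = (c * k / 2) ^ 3 := by ring
    rw [hν]
    rw [hν] at h1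
    calc K * (Γ₂ * ((k : ℝ) ^ 2 * (n : ℝ) ^ 2 / r ^ 2)) = n ^ 2 * (K * Γ₂ / r ^ 2 * k ^ 2) := by
          ring
      _ < n ^ 2 * (c * k / 2) ^ 3 := mul_lt_mul_of_pos_left h2 (by positivity)
      _ ≤ _ := mul_le_mul_of_nonneg_left h1 (by positivity)

end Pool.Agent.Q233.CPC
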