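import Pool.Agent.Y262.QE.Stm

/-!
# Clusters of eigenvalues from orthogonal quasimodes
-/

set_option autoImplicit false

open Set Filter Topology
open Pool.Agent.Y262.QE

noncomputable section

namespace Pool.Agent.Q233.CPC

variable {H : Type} [NormedAddCommGroup H] [InnerProductSpace ℝ H]

/-- if `card ι` orthogonal quasimodes with the energy `ν` and the error `η` are given, then there are
at least `card ι` eigenvalues at distance at most `η` from `ν` -/
theorem cluster {a b : H →L[ℝ] H →L[ℝ] ℝ} (hF : Fm a b) {e : ℕ → H} {E : ℕ → ℝ} (hE : Eg a b e E)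
    {ι : Type} [Fintype ι] (v : ι → H) (ho : ∀ k l, k ≠ l → b (v k) (v l) = 0)
    (hp : ∀ k, 0 < b (v k) (v k)) {ν η : ℝ} (hη : 0 ≤ η)
    (hq : ∀ (c : ι → ℝ) (w : H), (a (∑ k, c k • v k) w - ν * b (∑ k, c k • v k) w) ^ 2 ≤
      η ^ 2 * b (∑ k, c k • v k) (∑ k, c k • v k) * b w w) :
    ∃ J : Finset ℕ, Fintype.card ι ≤ J.card ∧ ∀ j ∈ J, |E j - ν| ≤ η := by
  classical
  have hfin : {j | |E j - ν| ≤ η}.Finite := by
    have h1 : ∀ᶠ j in atTop, ν + η < E j := hE.tt.eventually_gt_atTop _
    obtain ⟨n, hn⟩ := eventually_atTop.1 h1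
    refine (Finset.finite_toSet (Finset.range n)).subset fun j hj => ?_
    simp only [Finset.coe_range, mem_Iio]
    by_contra hcon
    have h2 := hn j (not_lt.1 hcon)
    have hj' : |E j - ν| ≤ η := hj
    have h3 := (abs_le.1 hj').2
    linarith
  refine ⟨hfin.toFinset, ?_, fun j hj => by simpa using hj⟩
  by_contra hcon
  rw [not_le] at hcon
  let L : (ι → ℝ) →ₗ[ℝ] (hfin.toFinset → ℝ) :=
    { toFun := fun c j => b (∑ k, c k • v k) (e j)
      map_add' := by
        intro c d
        funext j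
        simp only [Pi.add_apply, add_smul, Finset.sum_add_distrib, map_add,
          add_apply]
      map_smul' := by
        intro t c
        funext j
        simp only [Pi.smul_apply, smul_eq_mul, RingHom.id_apply, mul_smul, ← Finset.smul_sum,
          map_smul, smul_apply] }
  have hker : LinearMap.ker L ≠ ⊥ := by
    refine LinearMap.ker_ne_bot_of_finrank_lt ?_
    simp only [Module.finrank_fintype_fun_eq_card, Fintype.card_coe]
    exact hcon
  obtain ⟨c, hcL, hc0⟩ := (Submodule.ne_bot_iff _).1 hker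
  obtain ⟨x, hx⟩ : ∃ x : H, x = ∑ k, c k • v k := ⟨_, rfl⟩
  have hker' : ∀ j, |E j - ν| ≤ η → b x (e j) = 0 := by
    intro j hj
    have := congrFun (LinearMap.mem_ker.1 hcL) ⟨j, by simpa using hj⟩
    rw [hx]
    simpa [L] using this
  have hxx : 0 < b x x := by
    have h1 : b x x = ∑ k, (c k) ^ 2 * b (v k) (v k) := by
      rw [hx]
      simp only [map_sum, sum_apply, map_smul, smul_apply,
        smul_eq_mul]
      refine Finset.sum_congr rfl fun k _ => ?_
      rw [Finset.sum_eq_single k]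
      · ring
      · intro l _ hl
        rw [ho l k hl]
        ring
      · intro h
        exact absurd (Finset.mem_univ k) h
    rw [h1]
    obtain ⟨k, hk⟩ : ∃ k, c k ≠ 0 := by
      by_contra hh
      push Not at hh
      exact hc0 (funext hh)
    refine Finset.sum_pos' (fun l _ => mul_nonneg (sq_nonneg _) (hp l).le)
      ⟨k, Finset.mem_univ k, mul_pos (by positivity) (hp k)⟩
  have hsum := hE.sum x
  obtain ⟨j₀, hj₀⟩ : ∃ j, b x (e j) ≠ 0 := by
    by_contra hh
    push Not at hh
    have : HasSum (fun j => (b x (e j)) ^ 2) 0 := by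
      simp only [hh]
      simpa using (hasSum_zero (α := ℝ) (β := ℕ))
    have h2 := hsum.unique this
    linarith
  have hj₀' : η < |E j₀ - ν| := by
    by_contra hh
    exact hj₀ (hker' j₀ (not_lt.1 hh))
  obtain ⟨γ, hγ⟩ : ∃ γ : ℝ, γ = ((E j₀ - ν) ^ 2 - η ^ 2) * (b x (e j₀)) ^ 2 := ⟨_, rfl⟩
  have hγ0 : 0 < γ := by
    rw [hγ]
    refine mul_pos ?_ (by positivity)
    have : η ^ 2 < |E j₀ - ν| ^ 2 := pow_lt_pow_left₀ hj₀' hη two_ne_zero
    rw [sq_abs] at this
    linarith
  -- partial sums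
  have hpart : ∀ F : Finset ℕ, ∑ j ∈ F, (E j - ν) ^ 2 * (b x (e j)) ^ 2 ≤ η ^ 2 * b x x := by
    intro F
    obtain ⟨w, hw⟩ : ∃ w : H, w = ∑ j ∈ F, ((E j - ν) * b x (e j)) • e j := ⟨_, rfl⟩
    have h1 : a x w - ν * b x w = ∑ j ∈ F, (E j - ν) ^ 2 * (b x (e j)) ^ 2 := by
      rw [hw]
      simp only [map_sum, map_smul, smul_eq_mul, Finset.mul_sum]
      rw [← Finset.sum_sub_distrib]
      refine Finset.sum_congr rfl fun j _ => ?_
      rw [hF.sa x (e j), hE.eig j x, hF.sb (e j) x]
      ring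
    have h2 : b w w = ∑ j ∈ F, (E j - ν) ^ 2 * (b x (e j)) ^ 2 := by
      rw [hw]
      simp only [map_sum, sum_apply, map_smul, smul_apply,
        smul_eq_mul]
      refine Finset.sum_congr rfl fun j hj => ?_
      rw [Finset.sum_eq_single j]
      · rw [hE.orth, if_pos rfl]
        ring
      · intro l _ hl
        rw [hE.orth, if_neg hl]
        ring
      · intro h
        exact absurd hj h
    have h3 := hq c w
    rw [← hx, h1, h2] at h3
    obtain ⟨s, hs⟩ : ∃ s : ℝ, s = ∑ j ∈ F, (E j - ν) ^ 2 * (b x (e j)) ^ 2 := ⟨_, rfl⟩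
    rw [← hs] at h3 ⊢
    have hs0 : 0 ≤ s := by
      rw [hs]
      exact Finset.sum_nonneg fun j _ => mul_nonneg (sq_nonneg _) (sq_nonneg _)
    rcases hs0.eq_or_lt with h | h
    · rw [← h]
      positivity
    · nlinarith
  have hfs : HasSum (fun j => η ^ 2 * (b x (e j)) ^ 2 + if j = j₀ then γ else 0)
      (η ^ 2 * b x x + γ) := by
    refine (hsum.mul_left (η ^ 2)).add ?_
    exact hasSum_ite_eq j₀ γ
  have hle := hasSum_le_of_sum_le hfs (c := η ^ 2 * b x x) fun F => by
    refine le_trans (Finset.sum_le_sum fun j _ => ?_) (hpart F)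
    by_cases hj : j = j₀
    · rw [if_pos hj, hj, hγ]
      nlinarith
    · rw [if_neg hj, add_zero]
      by_cases h0 : b x (e j) = 0
      · rw [h0]
        simp
      · have h1 : η < |E j - ν| := by
          by_contra hh
          exact h0 (hker' j (not_lt.1 hh))
        have h2 : η ^ 2 ≤ (E j - ν) ^ 2 := by
          have : η ^ 2 ≤ |E j - ν| ^ 2 := pow_le_pow_left₀ hη h1.le 2
          rwa [sq_abs] at this
        exact mul_le_mul_of_nonneg_right h2 (sq_nonneg _)
  linarith

end Pool.Agent.Q233.CPC
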