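import Pool.Agent.Y262.QE.All

/-!
# Monotone functions with large derivative cross a small window quickly
-/

set_option autoImplicit false

open Set Filter Topology MeasureTheory
open Pool.Agent.Y262.QE

noncomputable section

namespace Pool.Agent.Q233.CPC

/-- the projection onto `[0, τ]` -/
def clp (τ t : ℝ) : ℝ := max 0 (min τ t)

lemma clp_mem {τ : ℝ} (hτ : 0 ≤ τ) (t : ℝ) : 0 ≤ clp τ t ∧ clp τ t ≤ τ :=
  ⟨le_max_left _ _, max_le hτ (min_le_left _ _)⟩

lemma clp_mono {τ s t : ℝ} (h : s ≤ t) : clp τ s ≤ clp τ t :=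
  max_le_max le_rfl (min_le_min le_rfl h)

lemma clp_eq {τ t : ℝ} (h0 : 0 ≤ t) (h1 : t ≤ τ) : clp τ t = t := by
  unfold clp
  rw [min_eq_right h1, max_eq_right h0]

lemma clp_lip {τ s t : ℝ} (h : s ≤ t) : clp τ t - clp τ s ≤ t - s := by
  unfold clp
  rcases le_total τ t with h1 | h1 <;> rcases le_total τ s with h2 | h2 <;>
    simp only [min_eq_left, min_eq_right, h1, h2]
  · linarith
  · rcases le_total 0 τ with h3 | h3 <;> rcases le_total 0 s with h4 | h4 <;>
      simp only [max_eq_left, max_eq_right, h3, h4] <;> linarith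
  · rcases le_total 0 τ with h3 | h3 <;> rcases le_total 0 t with h4 | h4 <;>
      simp only [max_eq_left, max_eq_right, h3, h4] <;> linarith
  · rcases le_total 0 t with h3 | h3 <;> rcases le_total 0 s with h4 | h4 <;>
      simp only [max_eq_left, max_eq_right, h3, h4] <;> linarith

theorem cross {N : ℕ} {G : ℕ → ℝ → ℝ} {τ c α β : ℝ} {L : ℕ → ℝ} (hτ : 0 < τ) (hc : 0 < c)
    (hαβ : α ≤ β) (hL : ∀ j, 0 ≤ L j)
    (hG : ∀ j s t, 0 ≤ s → s ≤ t → t ≤ τ → G j s ≤ G j t ∧ G j t - G j s ≤ L j * (t - s))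
    (h : ∀ᵐ t : ℝ, 0 < t → t < τ → ∃ j, j < N ∧ (α ≤ G j t ∧ G j t ≤ β) ∧
      ∃ d, c ≤ d ∧ HasDerivAt (G j) d t) :
    τ ≤ N * ((β - α) / c) := by
  obtain ⟨f, hf⟩ : ∃ f : ℕ → ℝ → ℝ, f = fun j t => -G j (clp τ t) := ⟨_, rfl⟩
  have hLip : ∀ j, LipschitzWith (L j).toNNReal (f j) := by
    intro j
    refine LipschitzWith.of_dist_le_mul fun s t => ?_
    rw [Real.coe_toNNReal _ (hL j), hf]
    simp only [Real.dist_eq]
    have key : ∀ s t : ℝ, s ≤ t → |(-G j (clp τ s)) - (-G j (clp τ t))| ≤ L j * |s - t| := by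
      intro s t hst
      obtain ⟨h1, h2⟩ := hG j (clp τ s) (clp τ t) (clp_mem hτ.le s).1 (clp_mono hst)
        (clp_mem hτ.le t).2
      have h3 := clp_lip (τ := τ) hst
      have h4 : |s - t| = t - s := by rw [abs_sub_comm]; exact abs_of_nonneg (by linarith)
      rw [h4, abs_of_nonneg (by linarith)]
      calc -G j (clp τ s) - -G j (clp τ t) = G j (clp τ t) - G j (clp τ s) := by ring
        _ ≤ L j * (clp τ t - clp τ s) := h2
        _ ≤ L j * (t - s) := mul_le_mul_of_nonneg_left h3 (hL j)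
    rcases le_total s t with h1 | h1
    · exact key s t h1
    · rw [abs_sub_comm, abs_sub_comm s t]
      exact key t s h1
  have hAnti : ∀ j, Antitone (f j) := by
    intro j s t hst
    rw [hf]
    simp only
    have := (hG j (clp τ s) (clp τ t) (clp_mem hτ.le s).1 (clp_mono hst) (clp_mem hτ.le t).2).1
    linarith
  obtain ⟨T, hT⟩ : ∃ T : ℕ → Set ℝ, T = fun j => {t | deriv (f j) t ≤ -c} := ⟨_, rfl⟩
  have hTm : ∀ j, MeasurableSet (T j) := by
    intro j
    rw [hT]
    exact measurableSet_le (measurable_deriv _) measurable_const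
  have hmeas : ∀ j, volume (T j ∩ (f j) ⁻¹' Icc (-β) (-α)) ≤ ENNReal.ofReal ((β - α) / c) := by
    intro j
    have h1 := Pool.Agent.Y850.QE.one (f j) _ (hLip j) (hAnti j) c hc (T j) (hTm j)
      (fun s hs => by rw [hT] at hs; exact hs) (-β) (-α) (by linarith)
    have h2 : -α - -β = β - α := by ring
    rw [h2] at h1
    exact h1
  have hcov : volume (Ioo 0 τ) ≤ volume (⋃ j ∈ Finset.range N,
      (T j ∩ (f j) ⁻¹' Icc (-β) (-α))) := by
    refine measure_mono_ae ?_
    filter_upwards [h] with t ht hmem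
    obtain ⟨j, hj, ⟨h1, h2⟩, d, hd, hder⟩ := ht hmem.1 hmem.2
    refine mem_iUnion₂.2 ⟨j, Finset.mem_range.2 hj, ?_, ?_⟩
    · have h3 : f j =ᶠ[𝓝 t] fun s => -G j s := by
        filter_upwards [Ioo_mem_nhds hmem.1 hmem.2] with s hs
        rw [hf]
        simp only
        rw [clp_eq hs.1.le hs.2.le]
      have h4 : HasDerivAt (f j) (-d) t := (hder.neg).congr_of_eventuallyEq h3
      rw [hT]
      change deriv (f j) t ≤ -c
      rw [h4.deriv]
      linarith
    · rw [hf]
      simp only [mem_preimage, mem_Icc]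
      rw [clp_eq hmem.1.le hmem.2.le]
      constructor <;> linarith
  have hsum : volume (⋃ j ∈ Finset.range N, (T j ∩ (f j) ⁻¹' Icc (-β) (-α))) ≤
      ENNReal.ofReal (N * ((β - α) / c)) := by
    refine (measure_biUnion_finset_le _ _).trans ?_
    refine (Finset.sum_le_sum fun j _ => hmeas j).trans ?_
    rw [Finset.sum_const, Finset.card_range, nsmul_eq_mul, ENNReal.ofReal_mul (Nat.cast_nonneg N),
      ENNReal.ofReal_natCast]
  rw [Real.volume_Ioo, sub_zero] at hcov
  have h5 := hcov.trans hsum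
  have h6 : 0 ≤ (N : ℝ) * ((β - α) / c) :=
    mul_nonneg (Nat.cast_nonneg _) (div_nonneg (by linarith) hc.le)
  exact (ENNReal.ofReal_le_ofReal_iff h6).1 h5

end Pool.Agent.Q233.CPC
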