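import Pool.Agent.Q233.CPC.Loc

/-!
# Point masses are quantum limits for generic continuous conformal factors
-/

set_option autoImplicit false
set_option linter.unusedSectionVars false

open Set Filter Topology MeasureTheory
open Pool.Agent.Y262.QE Pool.Agent.Y264.QR Pool.Agent.Y378.QR
open Q101.QG (EV)

noncomputable section

namespace Pool.Agent.Q233.CPC

section

variable {M : Type} [MetricSpace M] [CompactSpace M] [MeasurableSpace M] [BorelSpace M]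
  {μ : Measure M} {D : Data M}

/-- an upper bound for the masses of all eigenvectors is stable -/
theorem mass_nhds [IsFiniteMeasure μ] {j : HF D μ →L[ℝ] Lp ℝ 2 μ}
    {a : HF D μ →L[ℝ] HF D μ →L[ℝ] ℝ} {b : C(M, ℝ) → HF D μ →L[ℝ] HF D μ →L[ℝ] ℝ}
    (hSf : Sf μ j a) (hB : IsB μ j b) (hex : ∀ φ, ∃ (e : ℕ → HF D μ) (E : ℕ → ℝ), Eg a (b φ) e E)
    (f : C(M, ℝ)) {c ε : ℝ} (hε : 0 < ε) (k : ℕ) {φ : C(M, ℝ)}
    (hgood : ∀ v, EV a (b φ) (Ev a (b φ) k) v → kap μ j f φ v ≤ c) :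
    ∀ᶠ ψ in 𝓝 φ, ∀ v, EV a (b ψ) (Ev a (b ψ) k) v → kap μ j f ψ v ≤ c + ε := by
  obtain ⟨hF, hb, hk⟩ := Q101.QG.forms μ j a b hSf hB
  obtain ⟨e, E, hE⟩ := hex φ
  have hmm : Ev a (b φ) k = E k :=
    Pool.Agent.Y592.QE.mm _ a (b φ) (hF φ) e E hE k
  obtain ⟨q, hq1, hq2⟩ := hk f
  obtain ⟨δ, hδ, hδ1, hst⟩ := Q101.QG.stab a (b φ) (hF φ) e E hE (q φ) ‖f‖ (hq1 φ) (norm_nonneg _)
    (fun v => (hq2 φ v).2) k c
    (fun v hv => by rw [(hq2 φ v).1]; exact hgood v (by rw [hmm]; exact hv)) (ε / 2)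
    (by positivity)
  have hd : Tendsto (fun ψ : C(M, ℝ) => Real.exp ‖ψ - φ‖ - 1) (𝓝 φ) (𝓝 0) := by
    have h1 : Continuous fun ψ : C(M, ℝ) => Real.exp ‖ψ - φ‖ - 1 := by fun_prop
    have h2 := h1.tendsto φ
    rwa [sub_self, norm_zero, Real.exp_zero, sub_self] at h2
  have hEc := (tLip M μ (HF D μ) a b hF hb).2.2.2.1 k
  have e1 : ∀ᶠ ψ in 𝓝 φ, Real.exp ‖ψ - φ‖ - 1 < δ := hd.eventually (eventually_lt_nhds hδ)
  have e2 : ∀ᶠ ψ in 𝓝 φ, |Ev a (b ψ) k - Ev a (b φ) k| < δ := by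
    have h1 := (hEc.tendsto φ).eventually (Metric.ball_mem_nhds _ hδ)
    filter_upwards [h1] with ψ h1
    exact h1
  have e3 : ∀ᶠ ψ in 𝓝 φ, ‖f‖ * (Real.exp ‖ψ - φ‖ - 1) * 2 < ε / 2 := by
    have h1 : Tendsto (fun ψ : C(M, ℝ) => ‖f‖ * (Real.exp ‖ψ - φ‖ - 1) * 2) (𝓝 φ) (𝓝 0) := by
      have := (hd.const_mul ‖f‖).mul_const 2
      rwa [mul_zero, zero_mul] at this
    exact h1.eventually (eventually_lt_nhds (by positivity))
  filter_upwards [e1, e2, e3] with ψ e1 e2 e3 v hv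
  have hb1 : ∀ x, b ψ x x ≤ Real.exp ‖ψ - φ‖ * b φ x x := fun x => hb ψ φ x
  have hb2 : ∀ x, b φ x x ≤ Real.exp ‖ψ - φ‖ * b ψ x x := fun x => by
    rw [norm_sub_rev]; exact hb φ ψ x
  have hexp : 1 ≤ Real.exp ‖ψ - φ‖ := Real.one_le_exp (norm_nonneg _)
  have hdiff : ∀ x, |b ψ x x - b φ x x| ≤ δ * b φ x x := by
    intro x
    have h0 := (hF φ).nb x
    have h0' := (hF ψ).nb x
    have h1 : b ψ x x - b φ x x ≤ (Real.exp ‖ψ - φ‖ - 1) * b φ x x := by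
      have := hb1 x
      linarith
    have h2 : b φ x x - b ψ x x ≤ (Real.exp ‖ψ - φ‖ - 1) * b φ x x := by
      by_cases h3 : b ψ x x ≤ b φ x x
      · have h4 := hb2 x
        have h5 : (Real.exp ‖ψ - φ‖ - 1) * b ψ x x ≤ (Real.exp ‖ψ - φ‖ - 1) * b φ x x :=
          mul_le_mul_of_nonneg_left h3 (by linarith)
        linarith
      · have h4 : 0 ≤ (Real.exp ‖ψ - φ‖ - 1) * b φ x x := mul_nonneg (by linarith) h0
        linarith [not_le.1 h3]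
    have h3 : (Real.exp ‖ψ - φ‖ - 1) * b φ x x ≤ δ * b φ x x :=
      mul_le_mul_of_nonneg_right e1.le h0
    rw [abs_le]
    constructor <;> linarith
  have h1 := hst (b ψ) (Ev a (b ψ) k) v (hF ψ).sb hdiff (by rw [← hmm]; exact e2.le) hv
  rw [(hq2 φ v).1] at h1
  have h2 : b φ v v ≤ 2 := by
    have h3 := hb2 v
    rw [hv.2, mul_one] at h3
    linarith
  have h3 := (abs_le.1 (Q101.QG.kap_lip μ j b hB f φ ψ v)).2
  have h4 : ‖f‖ * (Real.exp ‖ψ - φ‖ - 1) * b φ v v ≤ ‖f‖ * (Real.exp ‖ψ - φ‖ - 1) * 2 :=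
    mul_le_mul_of_nonneg_left h2 (mul_nonneg (norm_nonneg _) (by linarith))
  linarith

/-- `x` has isothermal coordinates in one of the charts -/
def Iso (D : Data M) (x : M) : Prop :=
  ∃ i, x ∈ D.U i ∧ ∀ᶠ z in 𝓝 (D.φ i x), ∃ c : ℝ, ∀ v : ℂ, ‖D.A i z v‖ = c * ‖v‖

/-- a bump -/
def bmp (x : M) (ρ : ℝ) (hρ : 0 < ρ) : C(M, ℝ) :=
  ⟨fun y => max 0 (min 1 (2 - 2 * dist y x / ρ)), by
    have : ρ ≠ 0 := hρ.ne'
    fun_prop⟩

lemma bmp_apply (x : M) (ρ : ℝ) (hρ : 0 < ρ) (y : M) :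
    bmp x ρ hρ y = max 0 (min 1 (2 - 2 * dist y x / ρ)) := rfl

lemma bmp_nonneg (x : M) (ρ : ℝ) (hρ : 0 < ρ) (y : M) : 0 ≤ bmp x ρ hρ y := le_max_left _ _

lemma bmp_le (x : M) (ρ : ℝ) (hρ : 0 < ρ) (y : M) : bmp x ρ hρ y ≤ 1 :=
  max_le zero_le_one (min_le_left _ _)

lemma bmp_one {x : M} {ρ : ℝ} (hρ : 0 < ρ) {y : M} (h : dist y x ≤ ρ / 2) :
    bmp x ρ hρ y = 1 := by
  rw [bmp_apply]
  have h1 : 2 * dist y x / ρ ≤ 1 := by
    rw [div_le_one hρ]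
    linarith
  rw [min_eq_left (by linarith), max_eq_right zero_le_one]

lemma bmp_zero {x : M} {ρ : ℝ} (hρ : 0 < ρ) {y : M} (h : ρ ≤ dist y x) :
    bmp x ρ hρ y = 0 := by
  rw [bmp_apply]
  have h1 : 2 ≤ 2 * dist y x / ρ := by
    rw [le_div_iff₀ hρ]
    linarith
  exact max_eq_left ((min_le_right _ _).trans (by linarith))

lemma kap_def (j : HF D μ →L[ℝ] Lp ℝ 2 μ) (f φ : C(M, ℝ)) (v : HF D μ) :
    kap μ j f φ v = ∫ x, f x * (Real.exp (φ x) * ((j v : M → ℝ) x) ^ 2) ∂μ := rfl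

/-- the mass of a function which is nearly concentrated on a small ball -/
lemma kap_point [IsFiniteMeasure μ] {j : HF D μ →L[ℝ] Lp ℝ 2 μ}
    {b : C(M, ℝ) → HF D μ →L[ℝ] HF D μ →L[ℝ] ℝ} (hB : IsB μ j b) {f φ h : C(M, ℝ)} {v : HF D μ}
    (hv : b φ v v = 1) {t ω θ : ℝ} (h1 : ∀ x, h x ≤ 1)
    (hf : ∀ y, |f y - t| ≤ ω + 2 * ‖f‖ * (1 - h y)) (hm : 1 - θ ≤ kap μ j h φ v) :
    |kap μ j f φ v - t| ≤ ω + 2 * ‖f‖ * θ := by
  have hw := wint (μ := μ) (i := j) φ v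
  have hv' : ∫ x, Real.exp (φ x) * ((j v : M → ℝ) x) ^ 2 ∂μ = 1 := by
    rw [hB] at hv
    rw [← hv]
    refine integral_congr_ae (Eventually.of_forall fun x => ?_)
    simp only
    ring
  have i1 : Integrable (fun x => f x * (Real.exp (φ x) * ((j v : M → ℝ) x) ^ 2)) μ := cint f hw
  have i2 : Integrable (fun x => h x * (Real.exp (φ x) * ((j v : M → ℝ) x) ^ 2)) μ := cint h hw
  have i3 : Integrable (fun x => t * (Real.exp (φ x) * ((j v : M → ℝ) x) ^ 2)) μ := hw.const_mul t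
  have e1 : kap μ j f φ v - t =
      ∫ x, (f x - t) * (Real.exp (φ x) * ((j v : M → ℝ) x) ^ 2) ∂μ := by
    have : ∀ x, (f x - t) * (Real.exp (φ x) * ((j v : M → ℝ) x) ^ 2) =
        f x * (Real.exp (φ x) * ((j v : M → ℝ) x) ^ 2) -
        t * (Real.exp (φ x) * ((j v : M → ℝ) x) ^ 2) := fun x => by ring
    simp only [this]
    rw [integral_sub i1 i3, integral_const_mul, hv', mul_one, kap_def]
  have e2 : ∫ x, (ω + 2 * ‖f‖ * (1 - h x)) * (Real.exp (φ x) * ((j v : M → ℝ) x) ^ 2) ∂μ =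
      ω + 2 * ‖f‖ * (1 - kap μ j h φ v) := by
    have : ∀ x, (ω + 2 * ‖f‖ * (1 - h x)) * (Real.exp (φ x) * ((j v : M → ℝ) x) ^ 2) =
        (ω + 2 * ‖f‖) * (Real.exp (φ x) * ((j v : M → ℝ) x) ^ 2) -
        2 * ‖f‖ * (h x * (Real.exp (φ x) * ((j v : M → ℝ) x) ^ 2)) := fun x => by ring
    simp only [this]
    rw [integral_sub (hw.const_mul _) (i2.const_mul _), integral_const_mul, integral_const_mul,
      hv', kap_def]
    ring
  have e3 : |kap μ j f φ v - t| ≤ ω + 2 * ‖f‖ * (1 - kap μ j h φ v) := by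
    rw [e1, ← e2, ← Real.norm_eq_abs]
    refine norm_integral_le_of_norm_le ?_ (Eventually.of_forall fun x => ?_)
    · have i4 : Integrable (fun x => (ω + 2 * ‖f‖) * (Real.exp (φ x) * ((j v : M → ℝ) x) ^ 2) -
        2 * ‖f‖ * (h x * (Real.exp (φ x) * ((j v : M → ℝ) x) ^ 2))) μ :=
        (hw.const_mul _).sub (i2.const_mul _)
      refine i4.congr (Eventually.of_forall fun x => ?_)
      simp only
      ring
    · rw [norm_mul, Real.norm_eq_abs, Real.norm_eq_abs,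
        abs_of_nonneg (by positivity : 0 ≤ Real.exp (φ x) * ((j v : M → ℝ) x) ^ 2)]
      exact mul_le_mul_of_nonneg_right (hf x) (by positivity)
  have h2 : 2 * ‖f‖ * (1 - kap μ j h φ v) ≤ 2 * ‖f‖ * θ :=
    mul_le_mul_of_nonneg_left (by linarith) (by positivity)
  linarith

end

end Pool.Agent.Q233.CPC
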