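import Pool.Agent.Q233.CPC.Dirac

/-!
# Point masses as quantum limits: the theorem
-/

set_option autoImplicit false
set_option linter.unusedSectionVars false

open Set Filter Topology MeasureTheory
open Pool.Agent.Y262.QE Pool.Agent.Y264.QR Pool.Agent.Y378.QR
open Q101.QG (EV)

noncomputable section

namespace Pool.Agent.Q233.CPC

section

variable {M : Type} [MetricSpace M] [CompactSpace M] [MeasurableSpace M] [BorelSpace M]
  {μ : Measure M} {D : Data M}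

/-- the open dense sets -/
theorem loc_dense [IsFiniteMeasure μ] (S : D.IsSurf μ) {j : HF D μ →L[ℝ] Lp ℝ 2 μ}
    {a : HF D μ →L[ℝ] HF D μ →L[ℝ] ℝ} {b : C(M, ℝ) → HF D μ →L[ℝ] HF D μ →L[ℝ] ℝ}
    (hSf : Sf μ j a) (hj : ∀ v, j v = v.1.fst) (ha : ∀ u v, a u v = inner ℝ u.1.snd v.1.snd)
    (hB : IsB μ j b) (hW : Wl μ a b)
    (hF : ∀ φ, Fm a (b φ)) (hpos : ∀ φ : C(M, ℝ), 0 < ∫ x, Real.exp (φ x) ∂μ)
    (h0E : ∀ φ k, 0 ≤ Ev a (b φ) k) (hmon : ∀ φ k l, k ≤ l → Ev a (b φ) k ≤ Ev a (b φ) l)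
    (hlip : ∀ φ ψ k, Ev a (b φ) k ≤ Real.exp ‖φ - ψ‖ * Ev a (b ψ) k)
    (hdich : ∀ k, (∀ φ, Ev a (b φ) k = 0) ∨ ∀ φ, 0 < Ev a (b φ) k)
    (hex : ∀ φ, ∃ (e : ℕ → HF D μ) (E : ℕ → ℝ), Eg a (b φ) e E)
    {x : M} (hx : Iso D x) {h : C(M, ℝ)} (h0 : ∀ y, 0 ≤ h y) (h1 : ∀ y, h y ≤ 1)
    (hh : ∀ᶠ y in 𝓝 x, h y = 1) {θ : ℝ} (hθ : 0 < θ) (K : ℕ) :
    ∃ O : Set C(M, ℝ), IsOpen O ∧ Dense O ∧ ∀ φ ∈ O, ∃ k, K ≤ k ∧
      ∀ v, EV a (b φ) (Ev a (b φ) k) v → 1 - θ ≤ kap μ j h φ v := by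
  obtain ⟨i, hxi, hc⟩ := hx
  have hz : D.φ i x ∈ D.T i := ⟨x, hxi, rfl⟩
  have hψ : D.ψ i (D.φ i x) = x := S.left i x hxi
  obtain ⟨O, hO⟩ : ∃ O : Set C(M, ℝ), O = {φ | ∃ k, K ≤ k ∧
      ∀ v, EV a (b φ) (Ev a (b φ) k) v → 1 - θ ≤ kap μ j h φ v} := ⟨_, rfl⟩
  refine ⟨interior O, isOpen_interior, ?_, fun φ hφ => ?_⟩
  swap
  · have h9 := interior_subset hφ
    rw [hO] at h9
    exact h9
  rw [Metric.dense_iff]
  intro φ₀ δ₀ hδ₀
  obtain ⟨φ, h2, k, h3, h4⟩ := loc_step S hSf hj ha hB hW hF hpos h0E hmon hlip hdich hex hz hc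
    h0 h1 (by rw [hψ]; exact hh) φ₀ hδ₀ (half_pos hθ) K
  refine ⟨φ, by rw [Metric.mem_ball, dist_eq_norm]; exact h2, ?_⟩
  rw [mem_interior_iff_mem_nhds]
  have hneg : ∀ (ψ : C(M, ℝ)) (v : HF D μ), kap μ j (-h) ψ v = - kap μ j h ψ v := by
    intro ψ v
    rw [kap_def, kap_def, ← integral_neg]
    refine integral_congr_ae (Eventually.of_forall fun y => ?_)
    simp only [ContinuousMap.neg_apply]
    ring
  have h5 := mass_nhds hSf hB hex (-h) (c := -(1 - θ / 2)) (half_pos hθ) k (φ := φ)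
    (fun v hv => by
      rw [hneg]
      have := h4 v hv
      linarith)
  rw [hO]
  filter_upwards [h5] with ψ hψ'
  refine ⟨k, h3, fun v hv => ?_⟩
  have := hψ' v hv
  rw [hneg] at this
  linarith

/-- the theorem -/
theorem dirac [Nonempty M] (S : D.IsSurf μ) :
    (∀ x, Iso D x → ∀ h : C(M, ℝ), (∀ y, 0 ≤ h y) → (∀ y, h y ≤ 1) → (∀ᶠ y in 𝓝 x, h y = 1) →
      ∀ (θ : ℝ) (K : ℕ), 0 < θ → ∃ O : Set C(M, ℝ), IsOpen O ∧ Dense O ∧ ∀ φ ∈ O, ∃ k, K ≤ k ∧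
        ∀ (u : ℕ → M → ℝ) (lam : ℕ → ℝ),
          EigBasis (D.conf fun x => Real.exp (φ x)) (wm μ fun x => Real.exp (φ x)) u lam →
          1 - θ ≤ ∫ y, h y * (u k y) ^ 2 ∂(wm μ fun x => Real.exp (φ x))) ∧
    ∀ᶠ φ in residual C(M, ℝ), ∀ x, Iso D x → ∃ k : ℕ → ℕ, StrictMono k ∧
      ∀ (u : ℕ → M → ℝ) (lam : ℕ → ℝ),
        EigBasis (D.conf fun x => Real.exp (φ x)) (wm μ fun x => Real.exp (φ x)) u lam →
        ∀ f : C(M, ℝ), Tendsto (fun n => ∫ y, f y * (u (k n) y) ^ 2 ∂(wm μ fun x =>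
          Real.exp (φ x))) atTop (𝓝 (f x)) := by
  obtain ⟨hf, -⟩ := tFin M μ D S
  haveI := hf
  obtain ⟨j, a, hSf, hj, ha⟩ := tPackF M μ D S inferInstance
  obtain ⟨b, hB, hF, hpos, hcmp, -⟩ := tFm M μ (HF D μ) j a hSf
  have hW := tWl M μ D S inferInstance j a b hSf hj ha hB
  obtain ⟨h0E, hmon, hlip, hcont, hdich⟩ := tLip M μ (HF D μ) a b hF hcmp
  have hbr := fun φ u lam hu => tBr M μ D S j a b hSf hj ha hB hF φ u lam hu
  have hex : ∀ φ, ∃ (e : ℕ → HF D μ) (E : ℕ → ℝ), Eg a (b φ) e E := by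
    intro φ
    obtain ⟨u, lam, hu⟩ := tEx M μ D S inferInstance φ
    obtain ⟨e, -, he⟩ := hbr φ u lam hu
    exact ⟨e, lam, he⟩
  have hev : ∀ φ (u : ℕ → M → ℝ) (lam : ℕ → ℝ),
      EigBasis (D.conf fun x => Real.exp (φ x)) (wm μ fun x => Real.exp (φ x)) u lam → ∀ k,
      ∃ v, EV a (b φ) (Ev a (b φ) k) v ∧ ∀ f : C(M, ℝ), kap μ j f φ v =
        ∫ y, f y * (u k y) ^ 2 ∂(wm μ fun x => Real.exp (φ x)) := by
    intro φ u lam hu k
    obtain ⟨e, he1, he2⟩ := hbr φ u lam hu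
    refine ⟨e k, ⟨fun w => ?_, by rw [he2.orth, if_pos rfl]⟩, fun f => ?_⟩
    · rw [Pool.Agent.Y592.QE.mm _ a (b φ) (hF _) e lam he2 k]
      exact he2.eig k w
    · exact kap_eq μ j f φ (e k) (u k) (he1 k)
  have hdense : ∀ x, Iso D x → ∀ h : C(M, ℝ), (∀ y, 0 ≤ h y) → (∀ y, h y ≤ 1) →
      (∀ᶠ y in 𝓝 x, h y = 1) → ∀ (θ : ℝ) (K : ℕ), 0 < θ → ∃ O : Set C(M, ℝ), IsOpen O ∧
      Dense O ∧ ∀ φ ∈ O, ∃ k, K ≤ k ∧
        ∀ v, EV a (b φ) (Ev a (b φ) k) v → 1 - θ ≤ kap μ j h φ v :=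
    fun x hx h h0 h1 hh θ K hθ =>
      loc_dense S hSf hj ha hB hW hF hpos h0E hmon hlip hdich hex hx h0 h1 hh hθ K
  constructor
  · intro x hx h h0 h1 hh θ K hθ
    obtain ⟨O, hO1, hO2, hO3⟩ := hdense x hx h h0 h1 hh θ K hθ
    refine ⟨O, hO1, hO2, fun φ hφ => ?_⟩
    obtain ⟨k, hk1, hk2⟩ := hO3 φ hφ
    refine ⟨k, hk1, fun u lam hu => ?_⟩
    obtain ⟨v, hv1, hv2⟩ := hev φ u lam hu k
    rw [← hv2]
    exact hk2 v hv1
  · obtain ⟨t, ht1, ht2, ht3⟩ :=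
      (TopologicalSpace.IsSeparable.of_separableSpace {x | Iso D x}).exists_countable_dense_subset
    have hρ : ∀ n : ℕ, 0 < 1 / ((n : ℝ) + 1) := fun n => by positivity
    have key : ∀ᶠ φ in residual C(M, ℝ), ∀ x' ∈ t, ∀ n K : ℕ, ∃ k, K ≤ k ∧
        ∀ v, EV a (b φ) (Ev a (b φ) k) v → 1 - 1 / ((n : ℝ) + 1) ≤
          kap μ j (bmp x' (1 / ((n : ℝ) + 1)) (hρ n)) φ v := by
      rw [eventually_countable_ball ht2]
      intro x' hx'
      rw [eventually_countable_forall]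
      intro n
      rw [eventually_countable_forall]
      intro K
      obtain ⟨O, hO1, hO2, hO3⟩ := hdense x' (ht1 hx') (bmp x' (1 / ((n : ℝ) + 1)) (hρ n))
        (bmp_nonneg _ _ _) (bmp_le _ _ _) (by
          filter_upwards [Metric.closedBall_mem_nhds x' (half_pos (hρ n))] with y hy
          exact bmp_one (hρ n) (Metric.mem_closedBall.1 hy)) (1 / ((n : ℝ) + 1)) K (hρ n)
      filter_upwards [residual_of_dense_open hO1 hO2] with φ hφ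
      exact hO3 φ hφ
    filter_upwards [key] with φ hφ x hx
    have hx' : ∀ n : ℕ, ∃ x' ∈ t, dist x x' < 1 / ((n : ℝ) + 1) := fun n =>
      Metric.mem_closure_iff.1 (ht3 hx) _ (hρ n)
    choose x' hx'1 hx'2 using hx'
    obtain ⟨k, hk1, hk2⟩ := extraction_forall_of_frequently (P := fun n k =>
      ∀ v, EV a (b φ) (Ev a (b φ) k) v → 1 - 1 / ((n : ℝ) + 1) ≤
          kap μ j (bmp (x' n) (1 / ((n : ℝ) + 1)) (hρ n)) φ v) (fun n => by
        rw [frequently_atTop]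
        intro K
        obtain ⟨k, hk1, hk2⟩ := hφ (x' n) (hx'1 n) n K
        exact ⟨k, hk1, hk2⟩)
    refine ⟨k, hk1, fun u lam hu f => ?_⟩
    rw [Metric.tendsto_atTop]
    intro ε hε
    obtain ⟨ρ, hρ0, hρ1⟩ := Metric.continuousAt_iff.1 (f.continuous.continuousAt (x := x))
      (ε / 2) (by positivity)
    obtain ⟨n₀, hn₀⟩ := exists_nat_gt (max (2 / ρ) (4 * ‖f‖ / ε))
    refine ⟨n₀, fun n hn => ?_⟩
    have hn1 : max (2 / ρ) (4 * ‖f‖ / ε) < (n : ℝ) + 1 := by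
      have : (n₀ : ℝ) ≤ n := by exact_mod_cast hn
      linarith
    have hn2 : 2 * (1 / ((n : ℝ) + 1)) < ρ := by
      have h1 := (le_max_left _ _).trans_lt hn1
      rw [div_lt_iff₀ hρ0] at h1
      rw [← mul_div_assoc, mul_one, div_lt_iff₀ (by positivity)]
      linarith
    have hn3 : 2 * ‖f‖ * (1 / ((n : ℝ) + 1)) < ε / 2 := by
      have h1 := (le_max_right _ _).trans_lt hn1
      rw [div_lt_iff₀ hε] at h1
      rw [← mul_div_assoc, mul_one, div_lt_iff₀ (by positivity)]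
      linarith
    obtain ⟨v, hv1, hv2⟩ := hev φ u lam hu (k n)
    rw [← hv2, Real.dist_eq]
    have h2 := kap_point hB (f := f) (φ := φ) (t := f x) (ω := ε / 2) hv1.2
      (bmp_le (x' n) (1 / ((n : ℝ) + 1)) (hρ n)) (fun y => by
        by_cases hy : 1 / ((n : ℝ) + 1) ≤ dist y (x' n)
        · rw [bmp_zero (hρ n) hy]
          have e1 := f.norm_coe_le_norm y
          have e2 := f.norm_coe_le_norm x
          rw [Real.norm_eq_abs] at e1 e2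
          have e3 := abs_sub (f y) (f x)
          linarith
        · push Not at hy
          have e1 : dist y x < ρ := by
            have e2 := dist_triangle y (x' n) x
            have e3 := hx'2 n
            rw [dist_comm] at e3
            linarith
          have e2 := hρ1 e1
          rw [Real.dist_eq] at e2
          have e3 := bmp_le (x' n) (1 / ((n : ℝ) + 1)) (hρ n) y
          have e4 : 0 ≤ 2 * ‖f‖ * (1 - bmp (x' n) (1 / ((n : ℝ) + 1)) (hρ n) y) :=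
            mul_nonneg (by positivity) (by linarith)
          linarith) (hk2 n v hv1)
    linarith

end

end Pool.Agent.Q233.CPC
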