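import Pool.Agent.Q233.CPC.Main
import Pool.Agent.Q233.CPC.Cross
import Pool.Agent.Q101.QGBaire

/-!
# Eigenfunctions which are concentrated near a point
-/

set_option autoImplicit false
set_option linter.unusedSectionVars false

open Set Filter Topology MeasureTheory
open Pool.Agent.Y262.QE Pool.Agent.Y264.QR Pool.Agent.Y378.QR
open Q101.QG (EV)

noncomputable section

namespace Pool.Agent.Q233.CPC

section

variable {M : Type} [MetricSpace M] [CompactSpace M] [MeasurableSpace M] [BorelSpace M]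
  {μ : Measure M} {D : Data M}

/-- small perturbations of the conformal factor which contain the traps -/
theorem trap_ex (S : D.IsSurf μ) {i : Fin D.N} {z₀ : ℂ} (hz : z₀ ∈ D.T i)
    (hc : ∀ᶠ y in 𝓝 z₀, ∃ c : ℝ, ∀ v : ℂ, ‖D.A i y v‖ = c * ‖v‖)
    (φ₀ : C(M, ℝ)) {δ₀ : ℝ} (hδ₀ : 0 < δ₀) {V : Set ℂ} (hV : V ∈ 𝓝 z₀) :
    ∃ (m r δ : ℝ), 0 < m ∧ 0 < r ∧ 0 < δ ∧ δ ≤ 1 / 2 ∧ Sq z₀ r ⊆ D.T i ∧ Sq z₀ r ⊆ V ∧
      (∀ z ∈ Sq z₀ r, ∃ c : ℝ, ∀ v, ‖D.A i z v‖ = c * ‖v‖) ∧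
      ∀ (η ν : ℝ) (n : ℕ) (X X1 X2 : Fin n → ℝ → ℝ) (Q : ℝ → ℝ) (I : Fin n → Set ℝ),
        Tr r δ η ν n X X1 X2 Q I → ∃ φ : C(M, ℝ), ‖φ - φ₀‖ ≤ δ₀ ∧
          ∀ z ∈ Sq z₀ r, Real.exp (φ (D.ψ i z)) * |(D.A i z).det| = m * WW Q z₀ z := by
  obtain ⟨w, hw⟩ : ∃ w : ℂ → ℝ, w = fun z => Real.exp (φ₀ (D.ψ i z)) * |(D.A i z).det| :=
    ⟨_, rfl⟩
  have hw0 : ∀ z ∈ D.T i, 0 < w z := fun z hz => by
    rw [hw]
    exact mul_pos (Real.exp_pos _) (abs_pos.2 (S.det i z hz))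
  have hwc : ContinuousOn w (D.T i) := by
    rw [hw]
    exact (Real.continuous_exp.comp_continuousOn
      (φ₀.continuous.comp_continuousOn (S.contψ i))).mul (Pool.Agent.Y960.QE.contDet S i)
  obtain ⟨m, hm⟩ : ∃ m : ℝ, m = w z₀ := ⟨_, rfl⟩
  have hm0 : 0 < m := by rw [hm]; exact hw0 z₀ hz
  have hlog : ContinuousAt (fun z => Real.log (w z)) z₀ :=
    (hwc.continuousAt ((S.openT i).mem_nhds hz)).log (hw0 z₀ hz).ne'
  have hnear : ∀ᶠ z in 𝓝 z₀, |Real.log (w z) - Real.log m| < δ₀ / 2 := by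
    rw [hm]
    have := Metric.continuousAt_iff'.1 hlog (δ₀ / 2) (by positivity)
    filter_upwards [this] with z h
    rwa [Real.dist_eq] at h
  have hTi : ∀ᶠ z in 𝓝 z₀, z ∈ D.T i := (S.openT i).mem_nhds hz
  have hVe : ∀ᶠ z in 𝓝 z₀, z ∈ V := hV
  obtain ⟨ρ, hρ, hball⟩ := Metric.eventually_nhds_iff.1 ((hTi.and hVe).and (hc.and hnear))
  obtain ⟨r, hr⟩ : ∃ r : ℝ, r = ρ / 4 := ⟨_, rfl⟩
  have hr0 : 0 < r := by rw [hr]; positivity
  have hSq : ∀ z ∈ Sq z₀ r, dist z z₀ < ρ := by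
    intro z hz
    have h1 := Pool.Agent.Y93.QE.sq_sub_ball z₀ r hz
    rw [Metric.mem_closedBall] at h1
    linarith
  have hs : Sq z₀ r ⊆ D.T i := fun z hz => (hball (hSq z hz)).1.1
  have hcs : ∀ z ∈ Sq z₀ r, ∃ c : ℝ, ∀ v, ‖D.A i z v‖ = c * ‖v‖ := fun z hz =>
    (hball (hSq z hz)).2.1
  have hls : ∀ z ∈ Sq z₀ r, |Real.log (w z) - Real.log m| < δ₀ / 2 := fun z hz =>
    (hball (hSq z hz)).2.2
  obtain ⟨δ, hδ⟩ : ∃ δ : ℝ, δ = min (1 / 2) (δ₀ / 4) := ⟨_, rfl⟩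
  have hδ0 : 0 < δ := by rw [hδ]; positivity
  have hδ1 : δ ≤ 1 / 2 := by rw [hδ]; exact min_le_left _ _
  have hδ2 : δ ≤ δ₀ / 4 := by rw [hδ]; exact min_le_right _ _
  refine ⟨m, r, δ, hm0, hr0, hδ0, hδ1, hs, fun z hz => (hball (hSq z hz)).1.2, hcs, ?_⟩
  intro η ν n X X1 X2 Q I hT
  obtain ⟨g, hg⟩ : ∃ g : ℂ → ℝ, g = fun z => Real.log m + Real.log (WW Q z₀ z) - Real.log (w z) :=
    ⟨_, rfl⟩
  have hWpos : ∀ z, 0 < WW Q z₀ z := fun z => by
    have := (abs_le.1 (WW_near hT z₀ z)).1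
    linarith
  have hgc : ContinuousOn g (Sq z₀ r) := by
    rw [hg]
    refine ContinuousOn.sub (ContinuousOn.add continuousOn_const ?_) ?_
    · exact ((WW_cont hT z₀).log fun z => (hWpos z).ne').continuousOn
    · exact (hwc.mono hs).log fun z hz => (hw0 z (hs hz)).ne'
  have hgb : ∀ z ∈ Sq z₀ r, |g z| ≤ δ₀ := by
    intro z hz
    have h1 := log_near (WW_near hT z₀ z) hδ1
    have h2 := (hls z hz).le
    rw [hg]
    simp only
    rw [abs_le] at h1 h2 ⊢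
    constructor <;> linarith [h1.1, h1.2, h2.1, h2.2]
  have hKc : IsCompact (D.ψ i '' Sq z₀ r) :=
    (sq_compact z₀ r).image_of_continuousOn ((S.contψ i).mono hs)
  obtain ⟨hm1, hm2, hm3⟩ := Pool.Agent.Y183.QR.Loc.meas_img S i
    (sq_compact z₀ r).isClosed.measurableSet hs
  haveI : CompactSpace (D.ψ i '' Sq z₀ r) := isCompact_iff_compactSpace.1 hKc
  have hφK : ∀ x : D.ψ i '' Sq z₀ r, D.φ i x.1 ∈ Sq z₀ r := by
    intro x
    have : D.φ i x.1 ∈ D.φ i '' (D.ψ i '' Sq z₀ r) := ⟨x.1, x.2, rfl⟩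
    rwa [hm3] at this
  have hfc : Continuous fun x : D.ψ i '' Sq z₀ r => g (D.φ i x.1) := by
    have h1 : ContinuousOn (D.φ i) (D.ψ i '' Sq z₀ r) := (S.contφ i).mono hm2
    have h2 : ContinuousOn (fun x => g (D.φ i x)) (D.ψ i '' Sq z₀ r) :=
      hgc.comp h1 fun x hx => hφK ⟨x, hx⟩
    exact h2.comp_continuous continuous_subtype_val fun x => x.2
  obtain ⟨G, hG1, hG2⟩ :=
    BoundedContinuousFunction.exists_extension_forall_mem_Icc_of_isClosedEmbedding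
      (BoundedContinuousFunction.mkOfCompact (⟨_, hfc⟩ : C(D.ψ i '' Sq z₀ r, ℝ)))
      (a := -δ₀) (b := δ₀) (e := Subtype.val)
      (fun x => abs_le.1 (hgb _ (hφK x))) (by linarith)
      hKc.isClosed.isClosedEmbedding_subtypeVal
  obtain ⟨φ, hφ⟩ : ∃ φ : C(M, ℝ), φ = φ₀ + G.toContinuousMap := ⟨_, rfl⟩
  have hφx : ∀ x, φ x = φ₀ x + G x := fun x => by rw [hφ]; rfl
  refine ⟨φ, ?_, ?_⟩
  · rw [ContinuousMap.norm_le _ hδ₀.le]
    intro x
    rw [ContinuousMap.sub_apply, hφx, add_sub_cancel_left, Real.norm_eq_abs]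
    exact abs_le.2 (hG1 x)
  · intro z hz
    have h1 : G (D.ψ i z) = g z := by
      have h2 := congrFun hG2 ⟨D.ψ i z, ⟨z, hz, rfl⟩⟩
      simp only [Function.comp, BoundedContinuousFunction.mkOfCompact_apply,
        ContinuousMap.coe_mk] at h2
      rw [h2, (Pool.Agent.Y183.QR.Loc.φψ S (hs hz)).2]
    rw [hφx, h1, Real.exp_add]
    have h3 : Real.exp (g z) = m * WW Q z₀ z / w z := by
      rw [hg]
      simp only
      rw [Real.exp_sub, Real.exp_add, Real.exp_log hm0, Real.exp_log (hWpos z),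
        Real.exp_log (hw0 z (hs hz))]
    rw [h3]
    have h4 : w z = Real.exp (φ₀ (D.ψ i z)) * |(D.A i z).det| := by rw [hw]
    have h5 := (hw0 z (hs hz)).ne'
    calc Real.exp (φ₀ (D.ψ i z)) * (m * WW Q z₀ z / w z) * |(D.A i z).det| =
        m * WW Q z₀ z * (Real.exp (φ₀ (D.ψ i z)) * |(D.A i z).det|) / w z := by ring
      _ = m * WW Q z₀ z := by rw [← h4, mul_div_assoc, div_self h5, mul_one]

/-- the form grows at most exponentially along `h` -/
lemma form_line [IsFiniteMeasure μ] {j : HF D μ →L[ℝ] Lp ℝ 2 μ}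
    {b : C(M, ℝ) → HF D μ →L[ℝ] HF D μ →L[ℝ] ℝ} (hB : IsB μ j b) {h : C(M, ℝ)}
    (h0 : ∀ x, 0 ≤ h x) (h1 : ∀ x, h x ≤ 1) (φ : C(M, ℝ)) {s t : ℝ} (hst : s ≤ t) (v : HF D μ) :
    b (φ + s • h) v v ≤ 1 * b (φ + t • h) v v ∧
      b (φ + t • h) v v ≤ Real.exp (t - s) * b (φ + s • h) v v := by
  have hint : ∀ ψ : C(M, ℝ), Integrable (fun x => Real.exp (ψ x) * ((j v : M → ℝ) x *
      (j v : M → ℝ) x)) μ := by
    intro ψ
    have := wint (μ := μ) (i := j) ψ v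
    refine this.congr (Eventually.of_forall fun x => ?_)
    simp only
    ring
  rw [one_mul, hB, hB, ← integral_const_mul]
  constructor
  · refine integral_mono (hint _) (hint _) fun x => ?_
    refine mul_le_mul_of_nonneg_right ?_ (mul_self_nonneg _)
    rw [Real.exp_le_exp]
    simp only [ContinuousMap.add_apply, ContinuousMap.smul_apply, smul_eq_mul]
    nlinarith [h0 x]
  · refine integral_mono (hint _) ((hint _).const_mul _) fun x => ?_
    simp only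
    rw [← mul_assoc (Real.exp (t - s)), ← Real.exp_add]
    refine mul_le_mul_of_nonneg_right ?_ (mul_self_nonneg _)
    rw [Real.exp_le_exp]
    simp only [ContinuousMap.add_apply, ContinuousMap.smul_apply, smul_eq_mul]
    nlinarith [h1 x]

/-- near every conformal factor there is one with an eigenvalue all of whose eigenfunctions are
concentrated near a given point -/
theorem loc_step [IsFiniteMeasure μ] (S : D.IsSurf μ) {j : HF D μ →L[ℝ] Lp ℝ 2 μ}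
    {a : HF D μ →L[ℝ] HF D μ →L[ℝ] ℝ} {b : C(M, ℝ) → HF D μ →L[ℝ] HF D μ →L[ℝ] ℝ}
    (hSf : Sf μ j a) (hj : ∀ v, j v = v.1.fst) (ha : ∀ u v, a u v = inner ℝ u.1.snd v.1.snd)
    (hB : IsB μ j b) (hW : Wl μ a b)
    (hF : ∀ φ, Fm a (b φ)) (hpos : ∀ φ : C(M, ℝ), 0 < ∫ x, Real.exp (φ x) ∂μ)
    (h0E : ∀ φ k, 0 ≤ Ev a (b φ) k) (hmon : ∀ φ k l, k ≤ l → Ev a (b φ) k ≤ Ev a (b φ) l)
    (hlip : ∀ φ ψ k, Ev a (b φ) k ≤ Real.exp ‖φ - ψ‖ * Ev a (b ψ) k)
    (hdich : ∀ k, (∀ φ, Ev a (b φ) k = 0) ∨ ∀ φ, 0 < Ev a (b φ) k)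
    (hex : ∀ φ, ∃ (e : ℕ → HF D μ) (E : ℕ → ℝ), Eg a (b φ) e E)
    {i : Fin D.N} {z₀ : ℂ} (hz : z₀ ∈ D.T i)
    (hc : ∀ᶠ y in 𝓝 z₀, ∃ c : ℝ, ∀ v : ℂ, ‖D.A i y v‖ = c * ‖v‖)
    {h : C(M, ℝ)} (h0 : ∀ x, 0 ≤ h x) (h1 : ∀ x, h x ≤ 1)
    (hh : ∀ᶠ x in 𝓝 (D.ψ i z₀), h x = 1)
    (φ₀ : C(M, ℝ)) {δ₀ θ : ℝ} (hδ₀ : 0 < δ₀) (hθ : 0 < θ) (K : ℕ) :
    ∃ φ : C(M, ℝ), ‖φ - φ₀‖ < δ₀ ∧ ∃ k, K ≤ k ∧
      ∀ v, EV a (b φ) (Ev a (b φ) k) v → 1 - θ ≤ kap μ j h φ v := by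
  by_contra hcon
  push Not at hcon
  have hV : {z | h (D.ψ i z) = 1} ∈ 𝓝 z₀ :=
    ((S.contψ i).continuousAt ((S.openT i).mem_nhds hz)).eventually hh
  obtain ⟨m, r, δ, hm, hr, hδ, hδ1, hs, hsV, hcs, htrap⟩ :=
    trap_ex S hz hc φ₀ (δ₀ := δ₀ / 4) (by positivity) hV
  obtain ⟨τ, hτ⟩ : ∃ τ : ℝ, τ = min 1 (δ₀ / 4) := ⟨_, rfl⟩
  have hτ0 : 0 < τ := by rw [hτ]; positivity
  have hτ1 : τ ≤ 1 := by rw [hτ]; exact min_le_left _ _
  have hτ2 : τ ≤ δ₀ / 4 := by rw [hτ]; exact min_le_right _ _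
  have hπ := Real.pi_pos
  -- Weyl's law
  obtain ⟨A₀, hA₀⟩ : ∃ A₀ : ℝ, A₀ = ∫ x, Real.exp (φ₀ x) ∂μ := ⟨_, rfl⟩
  have hA₀p : 0 < A₀ := by rw [hA₀]; exact hpos φ₀
  obtain ⟨cw, hcw⟩ : ∃ cw : ℝ, cw = 2 * Real.pi / A₀ := ⟨_, rfl⟩
  have hcw0 : 0 < cw := by rw [hcw]; positivity
  have hwl : ∀ᶠ k : ℕ in atTop, cw < Ev a (b φ₀) k / ((k : ℝ) + 1) := by
    have h2 := hW φ₀
    rw [← hA₀] at h2
    refine h2.eventually_const_lt ?_
    rw [hcw]
    gcongr
    norm_num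
  obtain ⟨J₁, hJ₁⟩ := eventually_atTop.1 hwl
  obtain ⟨CN, hCN⟩ : ∃ CN : ℝ, CN = J₁ + 1 + 2 * Real.exp δ₀ / cw := ⟨_, rfl⟩
  have hCN0 : 0 < CN := by
    rw [hCN]
    positivity
  obtain ⟨η', hη'⟩ : ∃ η' : ℝ, η' = min 1 (θ * τ / (8 * CN)) := ⟨_, rfl⟩
  have hη'0 : 0 < η' := by rw [hη']; positivity
  have hη'1 : η' ≤ 1 := by rw [hη']; exact min_le_left _ _
  have hη'2 : η' ≤ θ * τ / (8 * CN) := by rw [hη']; exact min_le_right _ _
  obtain ⟨n, ν, X, X1, X2, Q, I, hν, hT0, hT1, hbig, hT⟩ :=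
    arr (T₀ := m / 2 * (3 * (Real.exp δ₀ * Ev a (b φ₀) K + 2))) (Γ₁ := 1) (Γ₂ := 1) (K := 0)
      (η := m * η' / 4) hr hδ (by linarith : δ ≤ 1) (by positivity) one_pos one_pos le_rfl
  have hn : n ≠ 0 := by
    rintro rfl
    simp at hbig
  obtain ⟨φ₁, hφ₁, hφz⟩ := htrap _ _ _ _ _ _ _ _ hT
  obtain ⟨lz, hlz⟩ : ∃ lz : ℝ, lz = 2 * ν / m := ⟨_, rfl⟩
  have hEK := h0E φ₀ K
  have hlz1 : 3 * (Real.exp δ₀ * Ev a (b φ₀) K + 2) < lz := by
    rw [hlz, lt_div_iff₀ hm]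
    rw [one_mul] at hT0
    linarith
  have hexpδ : 0 < Real.exp δ₀ := Real.exp_pos _
  have hlz2 : 6 < lz := by
    have : 0 ≤ Real.exp δ₀ * Ev a (b φ₀) K := mul_nonneg hexpδ.le hEK
    linarith
  choose e E hE using fun t : ℝ => hex (φ₁ + t • h)
  have hmm : ∀ (t : ℝ) (k : ℕ), Ev a (b (φ₁ + t • h)) k = E t k := fun t k =>
    Pool.Agent.Y592.QE.mm _ a (b (φ₁ + t • h)) (hF _) (e t) (E t) (hE t) k
  have hnh : ‖h‖ ≤ 1 := by
    rw [ContinuousMap.norm_le _ zero_le_one]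
    intro x
    rw [Real.norm_eq_abs, abs_of_nonneg (h0 x)]
    exact h1 x
  have hdist : ∀ t, 0 ≤ t → t ≤ τ → ‖φ₁ + t • h - φ₀‖ ≤ δ₀ / 2 := by
    intro t ht0 ht1
    have h2 : φ₁ + t • h - φ₀ = (φ₁ - φ₀) + t • h := by abel
    rw [h2]
    refine (norm_add_le _ _).trans ?_
    rw [norm_smul, Real.norm_eq_abs, abs_of_nonneg ht0]
    have h3 : t * ‖h‖ ≤ t * 1 := mul_le_mul_of_nonneg_left hnh ht0
    linarith
  obtain ⟨G, hG⟩ : ∃ G : ℕ → ℝ → ℝ, G = fun k t => Real.exp t * Ev a (b (φ₁ + t • h)) k :=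
    ⟨_, rfl⟩
  -- monotonicity
  have hline : ∀ k (s t : ℝ), s ≤ t → Ev a (b (φ₁ + t • h)) k ≤ Ev a (b (φ₁ + s • h)) k ∧
      Ev a (b (φ₁ + s • h)) k ≤ Real.exp (t - s) * Ev a (b (φ₁ + t • h)) k := by
    intro k s t hst
    have e1 := (Pool.Agent.Y592.QE.mon _ a (b (φ₁ + s • h)) (b (φ₁ + t • h)) (hF _) (hF _) 1
      one_pos (fun v => (form_line hB h0 h1 φ₁ hst v).1) k).2
    have e2 := (Pool.Agent.Y592.QE.mon _ a (b (φ₁ + t • h)) (b (φ₁ + s • h)) (hF _) (hF _)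
      (Real.exp (t - s)) (Real.exp_pos _) (fun v => (form_line hB h0 h1 φ₁ hst v).2) k).2
    rw [one_mul] at e1
    exact ⟨e1, e2⟩
  have hGm : ∀ k s t, 0 ≤ s → s ≤ t → t ≤ τ → G k s ≤ G k t ∧
      G k t - G k s ≤ (Real.exp τ * Ev a (b (φ₁ + (0 : ℝ) • h)) k) * (t - s) := by
    intro k s t hs0 hst ht
    obtain ⟨e1, e2⟩ := hline k s t hst
    have e3 := (hline k 0 s hs0).1
    have e4 := h0E (φ₁ + s • h) k
    rw [hG]
    simp only
    constructor
    · calc Real.exp s * Ev a (b (φ₁ + s • h)) k ≤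
          Real.exp s * (Real.exp (t - s) * Ev a (b (φ₁ + t • h)) k) :=
          mul_le_mul_of_nonneg_left e2 (Real.exp_pos _).le
        _ = Real.exp t * Ev a (b (φ₁ + t • h)) k := by
          rw [← mul_assoc, ← Real.exp_add]
          ring_nf
    · have e5 : Real.exp t - Real.exp s ≤ Real.exp τ * (t - s) := by
        have e6 := Real.add_one_le_exp (-(t - s))
        have e7 : Real.exp s = Real.exp t * Real.exp (-(t - s)) := by
          rw [← Real.exp_add]; ring_nf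
        have e8 : Real.exp t ≤ Real.exp τ := Real.exp_le_exp.2 ht
        have e9 := Real.exp_pos t
        rw [e7]
        nlinarith
      have e6 : 0 ≤ Real.exp t - Real.exp s := by
        have := Real.exp_le_exp.2 hst
        linarith
      calc Real.exp t * Ev a (b (φ₁ + t • h)) k - Real.exp s * Ev a (b (φ₁ + s • h)) k ≤
          Real.exp t * Ev a (b (φ₁ + s • h)) k - Real.exp s * Ev a (b (φ₁ + s • h)) k := by
            have := mul_le_mul_of_nonneg_left e1 (Real.exp_pos t).le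
            linarith
        _ = (Real.exp t - Real.exp s) * Ev a (b (φ₁ + s • h)) k := by ring
        _ ≤ (Real.exp t - Real.exp s) * Ev a (b (φ₁ + (0 : ℝ) • h)) k :=
            mul_le_mul_of_nonneg_left e3 e6
        _ ≤ (Real.exp τ * (t - s)) * Ev a (b (φ₁ + (0 : ℝ) • h)) k :=
            mul_le_mul_of_nonneg_right e5 (h0E _ _)
        _ = _ := by ring
  -- the derivative of all branches, for all eigenvectors
  have hD := (tOneP M μ (HF D μ) j a b hSf hB hW φ₁ h e E hE).1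
  have hA : ∀ᵐ t : ℝ, ∀ k, (∀ ψ, 0 < Ev a (b ψ) k) → ∀ v, EV a (b (φ₁ + t • h))
      (Ev a (b (φ₁ + t • h)) k) v → kap μ j h (φ₁ + t • h) v =
        kap μ j h (φ₁ + t • h) (e t k) := by
    rw [ae_all_iff]
    intro k
    by_cases hk : ∀ ψ, 0 < Ev a (b ψ) k
    · filter_upwards [Q101.QG.ae_all μ j a b hSf hB hW φ₁ h e E hE k hk] with t ht _
      exact ht
    · exact Eventually.of_forall fun t hk' => absurd hk' hk
  obtain ⟨N, hN⟩ : ∃ N : ℕ, N = ⌈(J₁ : ℝ) + 2 * Real.exp δ₀ * lz / cw⌉₊ := ⟨_, rfl⟩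
  have hNu : (N : ℝ) ≤ CN * lz := by
    have h2 : 0 ≤ (J₁ : ℝ) + 2 * Real.exp δ₀ * lz / cw := by positivity
    have h3 := Nat.ceil_lt_add_one h2
    rw [← hN] at h3
    have h4 : CN * lz = J₁ * lz + lz + 2 * Real.exp δ₀ * lz / cw := by
      rw [hCN]; ring
    have h5 : (J₁ : ℝ) ≤ J₁ * lz := by
      have : (0 : ℝ) ≤ J₁ := Nat.cast_nonneg _
      nlinarith
    rw [h4]
    linarith
  have hcross := cross (N := N) (G := G) (τ := τ) (c := θ * lz / 2) (α := lz - η')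
    (β := lz + η') (L := fun k => Real.exp τ * Ev a (b (φ₁ + (0 : ℝ) • h)) k) hτ0
    (by positivity) (by linarith) (fun k => mul_nonneg (Real.exp_pos _).le (h0E _ _)) hGm (by
      filter_upwards [hD, hA] with t htD htA ht0 htτ
      obtain ⟨mt, hmt⟩ : ∃ mt : ℝ, mt = m * Real.exp t := ⟨_, rfl⟩
      have hmt0 : 0 < mt := by rw [hmt]; positivity
      have hφt : ∀ z ∈ Sq z₀ r, Real.exp ((φ₁ + t • h) (D.ψ i z)) * |(D.A i z).det| =
          mt * WW Q z₀ z := by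
        intro z hz
        have h2 : h (D.ψ i z) = 1 := hsV hz
        rw [ContinuousMap.add_apply, ContinuousMap.smul_apply, h2, smul_eq_mul, mul_one,
          Real.exp_add, hmt]
        calc Real.exp (φ₁ (D.ψ i z)) * Real.exp t * |(D.A i z).det| =
            Real.exp t * (Real.exp (φ₁ (D.ψ i z)) * |(D.A i z).det|) := by ring
          _ = m * Real.exp t * WW Q z₀ z := by rw [hφz z hz]; ring
      obtain ⟨Jc, hJc1, hJc2⟩ := surf_cluster S hj ha hB (hF (φ₁ + t • h)) (hE t) hT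
        (by positivity) hδ1 hmt0 hs hcs hφt
      have hJn : Jc.Nonempty := by
        rw [← Finset.card_pos]
        have : 0 < n ^ 2 := by positivity
        omega
      obtain ⟨k, hk⟩ := hJn
      have hexpt := Real.exp_pos t
      have hGk : |G k t - lz| ≤ η' := by
        have h2 := hJc2 k hk
        rw [← hmm] at h2
        rw [hG]
        simp only
        have h3 : Real.exp t * Ev a (b (φ₁ + t • h)) k - lz =
            Real.exp t * (Ev a (b (φ₁ + t • h)) k - 2 * ν / mt) := by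
          rw [hlz, hmt]
          field_simp
        rw [h3, abs_mul, abs_of_pos hexpt]
        calc Real.exp t * |Ev a (b (φ₁ + t • h)) k - 2 * ν / mt| ≤
            Real.exp t * (4 * (m * η' / 4) / mt) := mul_le_mul_of_nonneg_left h2 hexpt.le
          _ = η' := by
            rw [hmt]
            field_simp
      obtain ⟨g1, g2⟩ := abs_le.1 hGk
      have hexp1 : Real.exp t ≤ 3 := by
        have h2 : Real.exp t ≤ Real.exp 1 := Real.exp_le_exp.2 (by linarith)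
        have h3 := Real.exp_one_lt_d9
        linarith
      have hexp0 : 1 ≤ Real.exp t := Real.one_le_exp ht0.le
      have hGdef : G k t = Real.exp t * Ev a (b (φ₁ + t • h)) k := by rw [hG]
      have hEk0 := h0E (φ₁ + t • h) k
      have hnorm : ‖φ₁ + t • h - φ₀‖ ≤ δ₀ := (hdist t ht0.le htτ.le).trans (by linarith)
      have hkK : K ≤ k := by
        by_contra hlt
        push Not at hlt
        have h2 := hmon (φ₁ + t • h) k K hlt.le
        have h3 := hlip (φ₁ + t • h) φ₀ K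
        have h4 : Real.exp ‖φ₁ + t • h - φ₀‖ ≤ Real.exp δ₀ := Real.exp_le_exp.2 hnorm
        have h5 : Ev a (b (φ₁ + t • h)) k ≤ Real.exp δ₀ * Ev a (b φ₀) K :=
          h2.trans (h3.trans (mul_le_mul_of_nonneg_right h4 hEK))
        have h6 : G k t ≤ 3 * (Real.exp δ₀ * Ev a (b φ₀) K) := by
          rw [hGdef]
          exact mul_le_mul hexp1 h5 hEk0 (by norm_num)
        linarith
      have hkp : ∀ ψ, 0 < Ev a (b ψ) k := by
        rcases hdich k with h2 | h2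
        · exfalso
          rw [hGdef, h2, mul_zero] at g1
          linarith
        · exact h2
      have hkN : k < N := by
        have h2 : Ev a (b φ₀) k ≤ Real.exp δ₀ * (2 * lz) := by
          have h3 := hlip φ₀ (φ₁ + t • h) k
          rw [norm_sub_rev] at h3
          have h4 : Real.exp ‖φ₁ + t • h - φ₀‖ ≤ Real.exp δ₀ := Real.exp_le_exp.2 hnorm
          have h5 : Ev a (b (φ₁ + t • h)) k ≤ 2 * lz := by
            have h6 : Ev a (b (φ₁ + t • h)) k ≤ G k t := by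
              rw [hGdef]
              nlinarith
            linarith
          exact h3.trans (mul_le_mul h4 h5 hEk0 hexpδ.le)
        have h3 : (k : ℝ) < (J₁ : ℝ) + 2 * Real.exp δ₀ * lz / cw := by
          by_cases hkJ : k < J₁
          · have h4 : (k : ℝ) < J₁ := by exact_mod_cast hkJ
            have h5 : 0 ≤ 2 * Real.exp δ₀ * lz / cw := by positivity
            linarith
          · push Not at hkJ
            have h4 := hJ₁ k hkJ
            rw [lt_div_iff₀ (by positivity)] at h4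
            have h5 : (k : ℝ) + 1 < 2 * Real.exp δ₀ * lz / cw := by
              rw [lt_div_iff₀ hcw0]
              calc ((k : ℝ) + 1) * cw = cw * (k + 1) := by ring
                _ < Ev a (b φ₀) k := h4
                _ ≤ Real.exp δ₀ * (2 * lz) := h2
                _ = 2 * Real.exp δ₀ * lz := by ring
            have h6 : (0 : ℝ) ≤ J₁ := Nat.cast_nonneg _
            linarith
        have h4 : (k : ℝ) < N := by
          rw [hN]
          exact h3.trans_le (Nat.le_ceil _)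
        exact_mod_cast h4
      refine ⟨k, hkN, ⟨by linarith, by linarith⟩, ?_⟩
      obtain ⟨v, hv, hkv⟩ := hcon (φ₁ + t • h) (by
        have := hdist t ht0.le htτ.le
        linarith) k hkK
      rw [htA k hkp v hv] at hkv
      have hd := ((Real.hasDerivAt_exp t).mul (htD k))
      refine ⟨_, ?_, by rw [hG]; exact hd⟩
      have h2 : Real.exp t * Ev a (b (φ₁ + t • h)) k + Real.exp t *
          -(kap μ j h (φ₁ + t • h) (e t k) * Ev a (b (φ₁ + t • h)) k) =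
          (1 - kap μ j h (φ₁ + t • h) (e t k)) * G k t := by
        rw [hGdef]; ring
      rw [h2]
      have h3 : lz / 2 ≤ G k t := by linarith
      calc θ * lz / 2 = θ * (lz / 2) := by ring
        _ ≤ (1 - kap μ j h (φ₁ + t • h) (e t k)) * G k t :=
          mul_le_mul (by linarith) h3 (by linarith) (by linarith))
  have h2 : (N : ℝ) * ((lz + η' - (lz - η')) / (θ * lz / 2)) ≤ τ / 2 := by
    have h3 : (lz + η' - (lz - η')) / (θ * lz / 2) = 4 * η' / (θ * lz) := by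
      field_simp
      ring
    rw [h3]
    calc (N : ℝ) * (4 * η' / (θ * lz)) ≤ (CN * lz) * (4 * η' / (θ * lz)) := by
          refine mul_le_mul_of_nonneg_right hNu (by positivity)
      _ = 4 * CN * η' / θ := by field_simp
      _ ≤ 4 * CN * (θ * τ / (8 * CN)) / θ := by gcongr
      _ = τ / 2 := by field_simp; ring
  linarith

end

end Pool.Agent.Q233.CPC
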