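import Pool.Agent.Q233.CPC.Surf

/-!
# Generic continuous conformal metrics have large clusters of eigenvalues
-/

set_option autoImplicit false
set_option linter.unusedSectionVars false

open Set Filter Topology MeasureTheory
open Pool.Agent.Y262.QE Pool.Agent.Y264.QR

noncomputable section

namespace Pool.Agent.Q233.CPC

section

variable {M : Type} [MetricSpace M] [CompactSpace M] [MeasurableSpace M] [BorelSpace M]
  {μ : Measure M} {D : Data M}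

/-- the total area of `exp φ · g` -/
def ar (μ : Measure M) (φ : C(M, ℝ)) : ℝ := ∫ x, Real.exp (φ x) ∂μ

lemma ar_cont [IsFiniteMeasure μ] : Continuous (ar μ) :=
  (Pool.Agent.Y689.QR.int_cont μ).comp Pool.Agent.Y689.QR.exp_cont

lemma exp_int [IsFiniteMeasure μ] (φ : C(M, ℝ)) : Integrable (fun x => Real.exp (φ x)) μ :=
  (Real.continuous_exp.comp φ.continuous).integrable_of_hasCompactSupport
    (HasCompactSupport.of_compactSpace _)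

lemma ar_le [IsFiniteMeasure μ] {φ ψ : C(M, ℝ)} {δ : ℝ} (h : ‖φ - ψ‖ ≤ δ) :
    ar μ φ ≤ Real.exp δ * ar μ ψ := by
  unfold ar
  rw [← integral_const_mul]
  refine integral_mono (exp_int φ) ((exp_int ψ).const_mul _) fun x => ?_
  simp only
  rw [← Real.exp_add, Real.exp_le_exp]
  have h1 := (φ - ψ).norm_coe_le_norm x
  rw [ContinuousMap.sub_apply, Real.norm_eq_abs] at h1
  have h2 := (abs_le.1 (h1.trans h)).2
  linarith

lemma log_near {w δ : ℝ} (h : |w - 1| ≤ δ) (hδ : δ ≤ 1 / 2) : |Real.log w| ≤ 2 * δ := by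
  obtain ⟨h1, h2⟩ := abs_le.1 h
  have hw : 1 / 2 ≤ w := by linarith
  have hw0 : 0 < w := by linarith
  have hδ0 : 0 ≤ δ := (abs_nonneg _).trans h
  rw [abs_le]
  constructor
  · have h3 := Real.one_sub_inv_le_log_of_pos hw0
    have h4 : w⁻¹ ≤ 1 + 2 * δ := by
      rw [inv_le_iff_one_le_mul₀ hw0]
      nlinarith
    linarith
  · have h3 := Real.log_le_sub_one_of_pos hw0
    linarith

/-- clusters of eigenvalues arise by arbitrarily small continuous perturbations of the conformal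
factor -/
theorem step [IsFiniteMeasure μ] (S : D.IsSurf μ) {j : HF D μ →L[ℝ] Lp ℝ 2 μ}
    {a : HF D μ →L[ℝ] HF D μ →L[ℝ] ℝ} {b : C(M, ℝ) → HF D μ →L[ℝ] HF D μ →L[ℝ] ℝ}
    (hj : ∀ v, j v = v.1.fst) (ha : ∀ u v, a u v = inner ℝ u.1.snd v.1.snd) (hB : IsB μ j b)
    (hF : ∀ φ, Fm a (b φ)) (hpos : ∀ φ : C(M, ℝ), 0 < ∫ x, Real.exp (φ x) ∂μ)
    (hex : ∀ φ, ∃ (e : ℕ → HF D μ) (E : ℕ → ℝ), Eg a (b φ) e E)
    {i : Fin D.N} {z₀ : ℂ} (hz : z₀ ∈ D.T i)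
    (hc : ∀ᶠ y in 𝓝 z₀, ∃ c : ℝ, ∀ v : ℂ, ‖D.A i y v‖ = c * ‖v‖)
    (φ₀ : C(M, ℝ)) {δ₀ ε K T₀ : ℝ} (hδ₀ : 0 < δ₀) (hε : 0 < ε) (hK : 0 ≤ K) :
    ∃ φ : C(M, ℝ), ‖φ - φ₀‖ < δ₀ ∧ ∃ T : ℝ, T₀ < T ∧ 1 < T ∧ ∃ J : Finset ℕ,
      (∀ k ∈ J, |ar μ φ * Ev a (b φ) k / (4 * Real.pi) - T| < ε) ∧
      K * T / (Real.log T) ^ 3 < J.card := by
  obtain ⟨w, hw⟩ : ∃ w : ℂ → ℝ, w = fun z => Real.exp (φ₀ (D.ψ i z)) * |(D.A i z).det| :=
    ⟨_, rfl⟩
  have hw0 : ∀ z ∈ D.T i, 0 < w z := fun z hz => by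
    rw [hw]
    exact mul_pos (Real.exp_pos _) (abs_pos.2 (S.det i z hz))
  have hwc : ContinuousOn w (D.T i) := by
    rw [hw]
    exact (Real.continuous_exp.comp_continuousOn
      (φ₀.continuous.comp_continuousOn (S.contψ i))).mul (Pool.Agent.Y960.QE.contDet S i)
  obtain ⟨m, hm⟩ : ∃ m : ℝ, m = w z₀ := ⟨_, rfl⟩
  have hm0 : 0 < m := by rw [hm]; exact hw0 z₀ hz
  have hlog : ContinuousAt (fun z => Real.log (w z)) z₀ :=
    (hwc.continuousAt ((S.openT i).mem_nhds hz)).log (hw0 z₀ hz).ne'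
  have hnear : ∀ᶠ z in 𝓝 z₀, |Real.log (w z) - Real.log m| < δ₀ / 4 := by
    rw [hm]
    have := Metric.continuousAt_iff'.1 hlog (δ₀ / 4) (by positivity)
    filter_upwards [this] with z h
    rwa [Real.dist_eq] at h
  have hTi : ∀ᶠ z in 𝓝 z₀, z ∈ D.T i := (S.openT i).mem_nhds hz
  obtain ⟨ρ, hρ, hball⟩ := Metric.eventually_nhds_iff.1 (hTi.and (hc.and hnear))
  obtain ⟨r, hr⟩ : ∃ r : ℝ, r = ρ / 4 := ⟨_, rfl⟩
  have hr0 : 0 < r := by rw [hr]; positivity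
  have hSq : ∀ z ∈ Sq z₀ r, dist z z₀ < ρ := by
    intro z hz
    have h1 := Pool.Agent.Y93.QE.sq_sub_ball z₀ r hz
    rw [Metric.mem_closedBall] at h1
    linarith
  have hs : Sq z₀ r ⊆ D.T i := fun z hz => (hball (hSq z hz)).1
  have hcs : ∀ z ∈ Sq z₀ r, ∃ c : ℝ, ∀ v, ‖D.A i z v‖ = c * ‖v‖ := fun z hz =>
    (hball (hSq z hz)).2.1
  have hls : ∀ z ∈ Sq z₀ r, |Real.log (w z) - Real.log m| < δ₀ / 4 := fun z hz =>
    (hball (hSq z hz)).2.2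
  -- the constants
  obtain ⟨δ, hδ⟩ : ∃ δ : ℝ, δ = min (1 / 2) (δ₀ / 8) := ⟨_, rfl⟩
  have hδ0 : 0 < δ := by rw [hδ]; positivity
  have hδ1 : δ ≤ 1 / 2 := by rw [hδ]; exact min_le_left _ _
  have hδ2 : δ ≤ δ₀ / 8 := by rw [hδ]; exact min_le_right _ _
  obtain ⟨A₀, hA₀⟩ : ∃ A₀ : ℝ, A₀ = ar μ φ₀ := ⟨_, rfl⟩
  have hA₀p : 0 < A₀ := by rw [hA₀]; exact hpos φ₀
  have hπ := Real.pi_pos
  obtain ⟨Γ₁, hΓ₁⟩ : ∃ Γ₁ : ℝ, Γ₁ = Real.exp (-δ₀) * A₀ * (2 / m) / (4 * Real.pi) := ⟨_, rfl⟩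
  obtain ⟨Γ₂, hΓ₂⟩ : ∃ Γ₂ : ℝ, Γ₂ = Real.exp δ₀ * A₀ * (2 / m) / (4 * Real.pi) := ⟨_, rfl⟩
  have hΓ₁0 : 0 < Γ₁ := by rw [hΓ₁]; positivity
  have hΓ₂0 : 0 < Γ₂ := by rw [hΓ₂]; positivity
  obtain ⟨η, hη⟩ : ∃ η : ℝ, η = ε / (4 * Γ₂) := ⟨_, rfl⟩
  have hη0 : 0 < η := by rw [hη]; positivity
  obtain ⟨n, ν, X, X1, X2, Q, I, hν, hT0, hT1, hbig, hT⟩ :=
    arr (T₀ := T₀) hr0 hδ0 (by linarith : δ ≤ 1) hη0 hΓ₁0 hΓ₂0 hK
  -- the perturbation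
  obtain ⟨g, hg⟩ : ∃ g : ℂ → ℝ, g = fun z => Real.log m + Real.log (WW Q z₀ z) - Real.log (w z) :=
    ⟨_, rfl⟩
  have hWpos : ∀ z, 0 < WW Q z₀ z := fun z => by
    have := (abs_le.1 (WW_near hT z₀ z)).1
    linarith
  have hgc : ContinuousOn g (Sq z₀ r) := by
    rw [hg]
    refine ContinuousOn.sub (ContinuousOn.add continuousOn_const ?_) ?_
    · exact ((WW_cont hT z₀).log fun z => (hWpos z).ne').continuousOn
    · exact (hwc.mono hs).log fun z hz => (hw0 z (hs hz)).ne'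
  have hgb : ∀ z ∈ Sq z₀ r, |g z| ≤ δ₀ / 2 := by
    intro z hz
    have h1 := log_near (WW_near hT z₀ z) hδ1
    have h2 := (hls z hz).le
    rw [hg]
    simp only
    rw [abs_le] at h1 h2 ⊢
    constructor <;> linarith [h1.1, h1.2, h2.1, h2.2]
  have hKc : IsCompact (D.ψ i '' Sq z₀ r) :=
    (sq_compact z₀ r).image_of_continuousOn ((S.contψ i).mono hs)
  obtain ⟨hm1, hm2, hm3⟩ := Pool.Agent.Y183.QR.Loc.meas_img S i
    (sq_compact z₀ r).isClosed.measurableSet hs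
  haveI : CompactSpace (D.ψ i '' Sq z₀ r) := isCompact_iff_compactSpace.1 hKc
  have hφK : ∀ x : D.ψ i '' Sq z₀ r, D.φ i x.1 ∈ Sq z₀ r := by
    intro x
    have : D.φ i x.1 ∈ D.φ i '' (D.ψ i '' Sq z₀ r) := ⟨x.1, x.2, rfl⟩
    rwa [hm3] at this
  have hfc : Continuous fun x : D.ψ i '' Sq z₀ r => g (D.φ i x.1) := by
    have h1 : ContinuousOn (D.φ i) (D.ψ i '' Sq z₀ r) := (S.contφ i).mono hm2
    have h2 : ContinuousOn (fun x => g (D.φ i x)) (D.ψ i '' Sq z₀ r) :=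
      hgc.comp h1 fun x hx => hφK ⟨x, hx⟩
    exact h2.comp_continuous continuous_subtype_val fun x => x.2
  obtain ⟨G, hG1, hG2⟩ :=
    BoundedContinuousFunction.exists_extension_forall_mem_Icc_of_isClosedEmbedding
      (BoundedContinuousFunction.mkOfCompact (⟨_, hfc⟩ : C(D.ψ i '' Sq z₀ r, ℝ)))
      (a := -(δ₀ / 2)) (b := δ₀ / 2) (e := Subtype.val)
      (fun x => abs_le.1 (hgb _ (hφK x))) (by linarith)
      hKc.isClosed.isClosedEmbedding_subtypeVal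
  obtain ⟨φ, hφ⟩ : ∃ φ : C(M, ℝ), φ = φ₀ + G.toContinuousMap := ⟨_, rfl⟩
  have hφx : ∀ x, φ x = φ₀ x + G x := fun x => by rw [hφ]; rfl
  have hdist : ‖φ - φ₀‖ ≤ δ₀ / 2 := by
    rw [ContinuousMap.norm_le _ (by positivity)]
    intro x
    rw [ContinuousMap.sub_apply, hφx, add_sub_cancel_left, Real.norm_eq_abs]
    exact abs_le.2 (hG1 x)
  have hφz : ∀ z ∈ Sq z₀ r, Real.exp (φ (D.ψ i z)) * |(D.A i z).det| = m * WW Q z₀ z := by
    intro z hz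
    have h1 : G (D.ψ i z) = g z := by
      have h2 := congrFun hG2 ⟨D.ψ i z, ⟨z, hz, rfl⟩⟩
      simp only [Function.comp, BoundedContinuousFunction.mkOfCompact_apply,
        ContinuousMap.coe_mk] at h2
      rw [h2, (Pool.Agent.Y183.QR.Loc.φψ S (hs hz)).2]
    rw [hφx, h1, Real.exp_add]
    have h3 : Real.exp (g z) = m * WW Q z₀ z / w z := by
      rw [hg]
      simp only
      rw [Real.exp_sub, Real.exp_add, Real.exp_log hm0, Real.exp_log (hWpos z),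
        Real.exp_log (hw0 z (hs hz))]
    rw [h3]
    have h4 : w z = Real.exp (φ₀ (D.ψ i z)) * |(D.A i z).det| := by rw [hw]
    have h5 := (hw0 z (hs hz)).ne'
    calc Real.exp (φ₀ (D.ψ i z)) * (m * WW Q z₀ z / w z) * |(D.A i z).det| =
        m * WW Q z₀ z * (Real.exp (φ₀ (D.ψ i z)) * |(D.A i z).det|) / w z := by ring
      _ = m * WW Q z₀ z := by rw [← h4, mul_div_assoc, div_self h5, mul_one]
  obtain ⟨e, E, hE⟩ := hex φ
  obtain ⟨J, hJ1, hJ2⟩ := surf_cluster S hj ha hB (hF φ) hE hT hη0.le hδ1 hm0 hs hcs hφz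
  -- the area
  obtain ⟨A, hA⟩ : ∃ A : ℝ, A = ar μ φ := ⟨_, rfl⟩
  have hAp : 0 < A := by rw [hA]; exact hpos φ
  have hA1 : A ≤ Real.exp δ₀ * A₀ := by
    rw [hA, hA₀]
    exact ar_le (by linarith)
  have hA2 : Real.exp (-δ₀) * A₀ ≤ A := by
    have h1 : A₀ ≤ Real.exp δ₀ * A := by
      rw [hA, hA₀]
      refine ar_le ?_
      rw [norm_sub_rev]
      linarith
    rw [Real.exp_neg, inv_mul_le_iff₀ (Real.exp_pos _)]
    exact h1
  obtain ⟨T, hTd⟩ : ∃ T : ℝ, T = A * (2 * ν / m) / (4 * Real.pi) := ⟨_, rfl⟩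
  have hTl : Γ₁ * ν ≤ T := by
    rw [hΓ₁, hTd]
    calc Real.exp (-δ₀) * A₀ * (2 / m) / (4 * Real.pi) * ν =
        (Real.exp (-δ₀) * A₀) * (2 * ν / m) / (4 * Real.pi) := by ring
      _ ≤ A * (2 * ν / m) / (4 * Real.pi) := by gcongr
  have hTu : T ≤ Γ₂ * ν := by
    rw [hΓ₂, hTd]
    calc A * (2 * ν / m) / (4 * Real.pi) ≤ (Real.exp δ₀ * A₀) * (2 * ν / m) / (4 * Real.pi) := by
          gcongr
      _ = Real.exp δ₀ * A₀ * (2 / m) / (4 * Real.pi) * ν := by ring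
  have hT1' : 1 < T := hT1.trans_le hTl
  refine ⟨φ, by linarith, T, by linarith, hT1', J, fun k hk => ?_, ?_⟩
  · have h1 : Ev a (b φ) k = E k := Pool.Agent.Y592.QE.mm _ a (b φ) (hF φ) e E hE k
    rw [← hA, h1, hTd, ← sub_div, ← mul_sub, abs_div, abs_mul, abs_of_pos hAp,
      abs_of_pos (by positivity : 0 < 4 * Real.pi)]
    calc A * |E k - 2 * ν / m| / (4 * Real.pi) ≤
        (Real.exp δ₀ * A₀) * (4 * η / m) / (4 * Real.pi) := by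
          have := hJ2 k hk
          gcongr
      _ = Γ₂ * (2 * η) := by rw [hΓ₂]; ring
      _ = ε / 2 := by rw [hη]; field_simp; ring
      _ < ε := by linarith
  · have hl0 : 0 < Real.log T := Real.log_pos hT1'
    have hl1 : 0 < Real.log (Γ₁ * ν) := Real.log_pos hT1
    have hl2 : Real.log (Γ₁ * ν) ≤ Real.log T := Real.log_le_log (by linarith) hTl
    rw [div_lt_iff₀ (by positivity)]
    have hJ3 : (n : ℝ) ^ 2 ≤ J.card := by exact_mod_cast hJ1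
    calc K * T ≤ K * (Γ₂ * ν) := mul_le_mul_of_nonneg_left hTu hK
      _ < (n : ℝ) ^ 2 * (Real.log (Γ₁ * ν)) ^ 3 := hbig
      _ ≤ (J.card : ℝ) * (Real.log T) ^ 3 := by gcongr

/-- the metrics with a large cluster near some `T > T₀` -/
def Good (x : C(M, ℝ) → ℕ → ℝ) (ε K T₀ : ℝ) : Set C(M, ℝ) :=
  {φ | ∃ T : ℝ, T₀ < T ∧ 1 < T ∧ ∃ J : Finset ℕ, (∀ k ∈ J, |x φ k - T| < ε) ∧
    K * T / (Real.log T) ^ 3 < J.card}

lemma good_open {x : C(M, ℝ) → ℕ → ℝ} (hx : ∀ k, Continuous fun φ => x φ k) (ε K T₀ : ℝ) :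
    IsOpen (Good x ε K T₀) := by
  rw [isOpen_iff_mem_nhds]
  rintro φ ⟨T, h1, h2, J, h3, h4⟩
  have h5 : ∀ᶠ ψ in 𝓝 φ, ∀ k ∈ J, |x ψ k - T| < ε := by
    rw [Filter.eventually_all_finset]
    intro k hk
    have h6 : Continuous fun ψ => |x ψ k - T| := ((hx k).sub continuous_const).abs
    exact h6.continuousAt.eventually_lt_const (h3 k hk)
  filter_upwards [h5] with ψ h6
  exact ⟨T, h1, h2, J, h6, h4⟩

/-- the open dense sets -/
theorem top [Nonempty M] (S : D.IsSurf μ) {i : Fin D.N} {z₀ : ℂ} (hz : z₀ ∈ D.T i)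
    (hc : ∀ᶠ y in 𝓝 z₀, ∃ c : ℝ, ∀ v : ℂ, ‖D.A i y v‖ = c * ‖v‖) {ε K : ℝ} (T₀ : ℝ)
    (hε : 0 < ε) (hK : 0 ≤ K) :
    ∃ O : Set C(M, ℝ), IsOpen O ∧ Dense O ∧ ∀ φ ∈ O, ∀ (u : ℕ → M → ℝ) (lam : ℕ → ℝ),
      EigBasis (D.conf fun x => Real.exp (φ x)) (wm μ fun x => Real.exp (φ x)) u lam →
      Tendsto lam atTop atTop ∧ ∃ T : ℝ, T₀ < T ∧ 1 < T ∧ ∃ J : Finset ℕ,
        (∀ k ∈ J, |(wm μ fun x => Real.exp (φ x)).real univ * lam k / (4 * Real.pi) - T| < ε) ∧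
        K * T / (Real.log T) ^ 3 < J.card := by
  obtain ⟨hf, -⟩ := tFin M μ D S
  haveI := hf
  obtain ⟨j, a, hSf, hj, ha⟩ := tPackF M μ D S inferInstance
  obtain ⟨b, hB, hF, hpos, hcmp, -⟩ := tFm M μ (HF D μ) j a hSf
  obtain ⟨-, hmon, -, hcont, hdich⟩ := tLip M μ (HF D μ) a b hF hcmp
  have hbr := fun φ u lam hu => tBr M μ D S j a b hSf hj ha hB hF φ u lam hu
  have hex : ∀ φ, ∃ (e : ℕ → HF D μ) (E : ℕ → ℝ), Eg a (b φ) e E := by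
    intro φ
    obtain ⟨u, lam, hu⟩ := tEx M μ D S inferInstance φ
    obtain ⟨e, -, he⟩ := hbr φ u lam hu
    exact ⟨e, lam, he⟩
  obtain ⟨x, hx⟩ : ∃ x : C(M, ℝ) → ℕ → ℝ,
      x = fun φ k => ar μ φ * Ev a (b φ) k / (4 * Real.pi) := ⟨_, rfl⟩
  have hxc : ∀ k, Continuous fun φ => x φ k := by
    intro k
    rw [hx]
    exact (ar_cont.mul (hcont k)).div_const _
  refine ⟨Good x ε K T₀, good_open hxc ε K T₀, ?_, ?_⟩
  · rw [Metric.dense_iff]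
    intro φ₀ δ₀ hδ₀
    obtain ⟨φ, h1, T, h2, h3, J, h4, h5⟩ := step S hj ha hB hF hpos hex hz hc φ₀
      (T₀ := T₀) hδ₀ hε hK
    refine ⟨φ, ?_, T, h2, h3, J, ?_, h5⟩
    · rw [Metric.mem_ball, dist_eq_norm]
      exact h1
    · rw [hx]
      exact h4
  · rintro φ ⟨T, h2, h3, J, h4, h5⟩ u lam hu
    obtain ⟨e, -, he⟩ := hbr φ u lam hu
    refine ⟨he.tt, T, h2, h3, J, fun k hk => ?_, h5⟩
    have h6 : (wm μ fun x => Real.exp (φ x)).real univ = ar μ φ := by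
      have hm : Measurable fun x => Real.exp (φ x) :=
        (Real.continuous_exp.comp φ.continuous).measurable
      have h7 : (wm μ fun x => Real.exp (φ x)).real univ =
          ∫ x, (1 : ℝ) ∂(wm μ fun x => Real.exp (φ x)) := by simp
      rw [h7, integral_wm μ _ hm fun x => (Real.exp_pos _).le]
      simp [ar]
    have h8 := h4 k hk
    rw [hx] at h8
    simp only at h8
    rw [Pool.Agent.Y592.QE.mm _ a (b φ) (hF φ) e lam he k] at h8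
    rw [h6]
    exact h8

end

end Pool.Agent.Q233.CPC
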