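import Mathlib

/-!
# Clusters make the pair correlation sums unbounded
-/

set_option autoImplicit false

open Set Filter Topology MeasureTheory

noncomputable section

namespace Pool.Agent.Q233.CPC

lemma log_pow_small (C : ℝ) : ∀ᶠ T : ℝ in atTop, C * (Real.log T) ^ 6 ≤ T := by
  have h1 : (fun T : ℝ => (Real.log T) ^ 6) =o[atTop] fun T : ℝ => T :=
    Real.isLittleO_pow_log_id_atTop
  have h2 := h1.bound (show (0 : ℝ) < 1 / (|C| + 1) by positivity)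
  filter_upwards [h2, eventually_ge_atTop (1 : ℝ)] with T hT hT1
  rw [Real.norm_eq_abs, Real.norm_eq_abs, abs_of_nonneg (by linarith : (0 : ℝ) ≤ T),
    abs_of_nonneg (pow_nonneg (Real.log_nonneg hT1) 6)] at hT
  have h3 : 0 ≤ (Real.log T) ^ 6 := pow_nonneg (Real.log_nonneg hT1) 6
  calc C * (Real.log T) ^ 6 ≤ (|C| + 1) * (Real.log T) ^ 6 := by
        refine mul_le_mul_of_nonneg_right ?_ h3
        linarith [le_abs_self C]
    _ ≤ (|C| + 1) * (1 / (|C| + 1) * T) := mul_le_mul_of_nonneg_left hT (by positivity)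
    _ = T := by field_simp

theorem pair_big {x : ℕ → ℝ} (hx : Tendsto x atTop atTop)
    (h : ∀ ε T₀ : ℝ, 0 < ε → ∃ T : ℝ, T₀ < T ∧ 1 < T ∧ ∃ J : Finset ℕ,
      (∀ k ∈ J, |x k - T| < ε) ∧ 1 * T / (Real.log T) ^ 3 < J.card)
    {f : ℝ → ℝ} (hf : Continuous f) (h0 : ∀ t, 0 ≤ f t) (hf0 : 0 < f 0) (K T₀ : ℝ) :
    ∃ T : ℝ, T₀ < T ∧
      K < T⁻¹ * ∑ᶠ p ∈ {p : ℕ × ℕ | p.1 ≠ p.2 ∧ x p.1 ≤ T ∧ x p.2 ≤ T}, f (x p.1 - x p.2) := by
  classical
  obtain ⟨ρ, hρ, hball⟩ := Metric.eventually_nhds_iff.1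
    (hf.continuousAt.eventually_const_lt (show f 0 / 2 < f 0 by linarith))
  obtain ⟨ε, hε⟩ : ∃ ε : ℝ, ε = min (ρ / 2) 1 := ⟨_, rfl⟩
  have hε0 : 0 < ε := by rw [hε]; positivity
  have hερ : ε ≤ ρ / 2 := by rw [hε]; exact min_le_left _ _
  have hε1 : ε ≤ 1 := by rw [hε]; exact min_le_right _ _
  obtain ⟨C, hC⟩ : ∃ C : ℝ, C = 8 * (|K| + 1) / f 0 + 4 := ⟨_, rfl⟩
  have hC0 : 0 < C := by rw [hC]; positivity
  obtain ⟨T₁, hT₁⟩ := eventually_atTop.1 (log_pow_small C)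
  obtain ⟨T, hT1, hT2, J, hJ1, hJ2⟩ := h ε (max T₀ T₁) hε0
  have hTT : C * (Real.log T) ^ 6 ≤ T := hT₁ T ((le_max_right _ _).trans hT1.le)
  have hl : 0 < Real.log T := Real.log_pos hT2
  have hT0 : 0 < T := by linarith
  rw [one_mul] at hJ2
  obtain ⟨N, hN⟩ : ∃ N : ℝ, N = J.card := ⟨_, rfl⟩
  rw [← hN] at hJ2
  have hNp : 0 < N := lt_trans (by positivity) hJ2
  have hN2 : C * T ≤ N ^ 2 := by
    have h1 : (T / (Real.log T) ^ 3) ^ 2 ≤ N ^ 2 := pow_le_pow_left₀ (by positivity) hJ2.le 2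
    refine le_trans ?_ h1
    rw [div_pow, le_div_iff₀ (by positivity)]
    calc C * T * ((Real.log T) ^ 3) ^ 2 = (C * (Real.log T) ^ 6) * T := by ring
      _ ≤ T * T := mul_le_mul_of_nonneg_right hTT hT0.le
      _ = T ^ 2 := by ring
  have hN4 : 4 ≤ N ^ 2 := by
    have : 4 ≤ C := by
      rw [hC]
      have : 0 ≤ 8 * (|K| + 1) / f 0 := by positivity
      linarith
    nlinarith
  have hN2' : 2 ≤ N := by nlinarith
  -- the pairs
  obtain ⟨T', hT'⟩ : ∃ T' : ℝ, T' = T + ε := ⟨_, rfl⟩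
  have hfin : {p : ℕ × ℕ | p.1 ≠ p.2 ∧ x p.1 ≤ T' ∧ x p.2 ≤ T'}.Finite := by
    obtain ⟨n, hn⟩ := eventually_atTop.1 (hx.eventually_gt_atTop T')
    refine ((Finset.finite_toSet (Finset.range n)).prod
      (Finset.finite_toSet (Finset.range n))).subset ?_
    rintro ⟨p, q⟩ ⟨-, hp, hq⟩
    refine ⟨?_, ?_⟩
    · simp only [Finset.coe_range, mem_Iio]
      by_contra hcon
      exact absurd hp (not_le.2 (hn p (not_lt.1 hcon)))
    · simp only [Finset.coe_range, mem_Iio]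
      by_contra hcon
      exact absurd hq (not_le.2 (hn q (not_lt.1 hcon)))
  have hsum : J.offDiag.card • (f 0 / 2) ≤
      ∑ᶠ p ∈ {p : ℕ × ℕ | p.1 ≠ p.2 ∧ x p.1 ≤ T' ∧ x p.2 ≤ T'}, f (x p.1 - x p.2) := by
    rw [finsum_mem_eq_finite_toFinset_sum _ hfin]
    have h1 : J.offDiag ⊆ hfin.toFinset := by
      intro p hp
      rw [Finset.mem_offDiag] at hp
      rw [Set.Finite.mem_toFinset]
      have h2 := (abs_lt.1 (hJ1 _ hp.1)).2
      have h3 := (abs_lt.1 (hJ1 _ hp.2.1)).2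
      exact ⟨hp.2.2, by linarith, by linarith⟩
    refine le_trans ?_ (Finset.sum_le_sum_of_subset_of_nonneg h1 fun p _ _ => h0 _)
    refine Finset.card_nsmul_le_sum _ _ _ fun p hp => ?_
    rw [Finset.mem_offDiag] at hp
    have h2 := abs_lt.1 (hJ1 _ hp.1)
    have h3 := abs_lt.1 (hJ1 _ hp.2.1)
    refine (hball ?_).le
    rw [Real.dist_eq, sub_zero, abs_lt]
    constructor <;> linarith [h2.1, h2.2, h3.1, h3.2]
  have hcard : N ^ 2 / 2 ≤ (J.offDiag.card : ℝ) := by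
    rw [Finset.offDiag_card, Nat.cast_sub (Nat.le_mul_self _), Nat.cast_mul, ← hN]
    nlinarith
  have hT'0 : 0 < T' := by linarith
  refine ⟨T', ?_, ?_⟩
  · have := le_max_left T₀ T₁
    linarith
  · have h1 : C * T * (f 0 / 4) ≤ J.offDiag.card • (f 0 / 2) := by
      rw [nsmul_eq_mul]
      calc C * T * (f 0 / 4) ≤ N ^ 2 * (f 0 / 4) := by gcongr
        _ = N ^ 2 / 2 * (f 0 / 2) := by ring
        _ ≤ _ := by gcongr
    have h2 : K * T' < C * T * (f 0 / 4) := by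
      have h3 : C * (f 0 / 4) = 2 * (|K| + 1) + f 0 := by
        rw [hC]
        field_simp
        ring
      have h4 : K * T' ≤ |K| * (2 * T) := by
        calc K * T' ≤ |K| * T' := mul_le_mul_of_nonneg_right (le_abs_self K) hT'0.le
          _ ≤ |K| * (2 * T) := mul_le_mul_of_nonneg_left (by linarith) (abs_nonneg K)
      have h5 : C * T * (f 0 / 4) = (2 * (|K| + 1) + f 0) * T := by rw [← h3]; ring
      rw [h5]
      nlinarith
    rw [lt_inv_mul_iff₀ hT'0]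
    calc T' * K = K * T' := by ring
      _ < C * T * (f 0 / 4) := h2
      _ ≤ _ := h1.trans hsum

end Pool.Agent.Q233.CPC
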