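import Pool.Agent.Q233.CPC.Arr
import Pool.Agent.Y93.QE.W1

/-!
# Traps in the plane
-/

set_option autoImplicit false

open Set Filter Topology MeasureTheory
open Pool.Agent.Y262.QE

noncomputable section

namespace Pool.Agent.Q233.CPC

lemma sq_compact (z₀ : ℂ) (r : ℝ) : IsCompact (Sq z₀ r) :=
  (isCompact_closedBall z₀ (2 * r)).of_isClosed_subset (Pool.Agent.Y93.QE.sq_closed z₀ r)
    (Pool.Agent.Y93.QE.sq_sub_ball z₀ r)

/-- the integral of a derivative of a function with compact support -/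
lemma ibp0 {K O : Set ℂ} (hK : IsCompact K) (hO : IsOpen O) (hKO : K ⊆ O) {P G : ℂ → ℝ}
    {P' : ℂ → ℂ →L[ℝ] ℝ} (hP : ∀ z, HasFDerivAt P (P' z) z)
    (hP' : ∀ v, Continuous fun z => P' z v) (h0 : ∀ z, z ∉ K → P z = 0)
    (hG : ContDiffOn ℝ 1 G O) (v : ℂ) :
    ∫ z in K, (P' z v * G z + P z * fderiv ℝ G z v) = 0 := by
  have hz : ∀ z, z ∉ K → P' z = 0 := by
    intro z hz
    have h1 : P =ᶠ[𝓝 z] fun _ => (0 : ℝ) := by
      filter_upwards [hK.isClosed.isOpen_compl.mem_nhds hz] with y hy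
      exact h0 y hy
    have h2 : HasFDerivAt P (0 : ℂ →L[ℝ] ℝ) z :=
      (hasFDerivAt_const (0 : ℝ) z).congr_of_eventuallyEq h1
    exact (hP z).unique h2
  have hPc : Continuous P := continuous_iff_continuousAt.2 fun z => (hP z).continuousAt
  have hder : ∀ z, HasFDerivAt (fun z => P z * G z) (P z • fderiv ℝ G z + G z • P' z) z := by
    intro z
    by_cases hzO : z ∈ O
    · have h1 : DifferentiableAt ℝ G z :=
        (hG.differentiableOn (by norm_num)).differentiableAt (hO.mem_nhds hzO)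
      exact (hP z).mul h1.hasFDerivAt
    · have hzK : z ∉ K := fun h => hzO (hKO h)
      have h1 : (fun z => P z * G z) =ᶠ[𝓝 z] fun _ => (0 : ℝ) := by
        filter_upwards [hK.isClosed.isOpen_compl.mem_nhds hzK] with y hy
        rw [h0 y hy, zero_mul]
      rw [h0 z hzK, hz z hzK, zero_smul, smul_zero, add_zero]
      exact (hasFDerivAt_const (0 : ℝ) z).congr_of_eventuallyEq h1
  have hGc : ContinuousOn G K := hG.continuousOn.mono hKO
  have hGd : ContinuousOn (fun z => fderiv ℝ G z v) K :=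
    ((hG.continuousOn_fderiv_of_isOpen hO le_rfl).mono hKO).clm_apply continuousOn_const
  have hi1 : Integrable (fun z => P z * G z) := by
    rw [← integrableOn_iff_integrable_of_support_subset (s := K)]
    · exact (hPc.continuousOn.mul hGc).integrableOn_compact hK
    · intro z hz1
      by_contra hcon
      exact hz1 (by simp only; rw [h0 z hcon, zero_mul])
  have hzero : ∀ z, z ∉ K → (P z • fderiv ℝ G z + G z • P' z) v = 0 := by
    intro z hzK
    rw [h0 z hzK, hz z hzK]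
    simp
  have hi2 : Integrable (fun z => (P z • fderiv ℝ G z + G z • P' z) v) := by
    rw [← integrableOn_iff_integrable_of_support_subset (s := K)]
    · have : ContinuousOn (fun z => P z * fderiv ℝ G z v + G z * P' z v) K :=
        (hPc.continuousOn.mul hGd).add (hGc.mul (hP' v).continuousOn)
      exact this.integrableOn_compact hK
    · intro z hz1
      by_contra hcon
      exact hz1 (hzero z hcon)
  have hmain := integral_bilinear_hasLineDerivAt_right_eq_neg_left_of_integrable (μ := volume)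
    (f := fun z => P z * G z) (f' := fun z => (P z • fderiv ℝ G z + G z • P' z) v)
    (g := fun _ : ℂ => (1 : ℝ)) (g' := fun _ : ℂ => (0 : ℝ)) (v := v)
    (B := ContinuousLinearMap.mul ℝ ℝ) (by simpa using hi2) (by simp) (by simpa using hi1)
    (fun z _ => (hder z).hasLineDerivAt v) (fun z _ => by
      simpa using (hasFDerivAt_const (1 : ℝ) z).hasLineDerivAt v)
  simp only [ContinuousLinearMap.mul_apply', mul_zero, mul_one, integral_zero] at hmain
  have h3 : ∫ z in K, (P' z v * G z + P z * fderiv ℝ G z v) =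
      ∫ z, (P z • fderiv ℝ G z + G z • P' z) v := by
    rw [← setIntegral_eq_integral_of_forall_compl_eq_zero (s := K) hzero]
    refine setIntegral_congr_fun hK.isClosed.measurableSet fun z _ => ?_
    simp only [add_apply, smul_apply, smul_eq_mul]
    ring
  rw [h3]
  linarith

/-- integrals of products -/
lemma int_prod (x₀ y₀ : ℝ) (g h : ℝ → ℝ) :
    ∫ z : ℂ, g (z.re - x₀) * h (z.im - y₀) = (∫ x, g x) * ∫ y, h y := by
  have h1 : ∫ z : ℂ, g (z.re - x₀) * h (z.im - y₀) =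
      ∫ p : ℝ × ℝ, g (p.1 - x₀) * h (p.2 - y₀) := by
    rw [← Complex.volume_preserving_equiv_real_prod.integral_comp'
      (g := fun p : ℝ × ℝ => g (p.1 - x₀) * h (p.2 - y₀))]
    rfl
  rw [h1, Measure.volume_eq_prod, integral_prod_mul (fun x => g (x - x₀)) (fun y => h (y - y₀)),
    integral_sub_right_eq_self g x₀, integral_sub_right_eq_self h y₀]

section

variable {r δ η ν : ℝ} {n : ℕ} {X X1 X2 : Fin n → ℝ → ℝ} {Q : ℝ → ℝ} {I : Fin n → Set ℝ}

/-- the product functions -/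
def ff (Y Z : Fin n → ℝ → ℝ) (z₀ : ℂ) (p : Fin n × Fin n) (z : ℂ) : ℝ :=
  Y p.1 (z.re - z₀.re) * Z p.2 (z.im - z₀.im)

/-- the weight -/
def WW (Q : ℝ → ℝ) (z₀ : ℂ) (z : ℂ) : ℝ := (Q (z.re - z₀.re) + Q (z.im - z₀.im)) / 2

/-- the error -/
def ee (ν : ℝ) (X X2 : Fin n → ℝ → ℝ) (Q : ℝ → ℝ) (z₀ : ℂ) (p : Fin n × Fin n) (z : ℂ) : ℝ :=
  ff X2 X z₀ p z + ff X X2 z₀ p z + 2 * ν * (WW Q z₀ z * ff X X z₀ p z)

lemma Tr.cX (h : Tr r δ η ν n X X1 X2 Q I) (a : Fin n) : Continuous (X a) :=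
  continuous_iff_continuousAt.2 fun t => (h.d1 a t).continuousAt

lemma Tr.cX1 (h : Tr r δ η ν n X X1 X2 Q I) (a : Fin n) : Continuous (X1 a) :=
  continuous_iff_continuousAt.2 fun t => (h.d2 a t).continuousAt

lemma ff_cont {Y Z : Fin n → ℝ → ℝ} (hY : ∀ a, Continuous (Y a)) (hZ : ∀ a, Continuous (Z a))
    (z₀ : ℂ) (p : Fin n × Fin n) : Continuous (ff Y Z z₀ p) := by
  have h1 := hY p.1
  have h2 := hZ p.2
  unfold ff
  exact (h1.comp (Complex.continuous_re.sub continuous_const)).mul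
    (h2.comp (Complex.continuous_im.sub continuous_const))

lemma ff_der {Y Y' Z Z' : Fin n → ℝ → ℝ} (hY : ∀ a t, HasDerivAt (Y a) (Y' a t) t)
    (hZ : ∀ a t, HasDerivAt (Z a) (Z' a t) t) (z₀ : ℂ) (p : Fin n × Fin n) (z : ℂ) :
    HasFDerivAt (ff Y Z z₀ p)
      (ff Y' Z z₀ p z • Complex.reCLM + ff Y Z' z₀ p z • Complex.imCLM) z := by
  have h1 : HasFDerivAt (fun z : ℂ => z.re - z₀.re) Complex.reCLM z :=
    Complex.reCLM.hasFDerivAt.sub_const z₀.re
  have h2 : HasFDerivAt (fun z : ℂ => z.im - z₀.im) Complex.imCLM z :=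
    Complex.imCLM.hasFDerivAt.sub_const z₀.im
  have h3 := (hY p.1 (z.re - z₀.re)).comp_hasFDerivAt z h1
  have h4 := (hZ p.2 (z.im - z₀.im)).comp_hasFDerivAt z h2
  have h5 := h3.mul h4
  refine h5.congr_fderiv ?_
  refine ContinuousLinearMap.ext fun w => ?_
  simp only [add_apply, smul_apply, smul_eq_mul, Complex.reCLM_apply, Complex.imCLM_apply, ff,
    Function.comp]
  ring

lemma ff_C1 {Y Y' Z Z' : Fin n → ℝ → ℝ} (hY : ∀ a t, HasDerivAt (Y a) (Y' a t) t)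
    (hZ : ∀ a t, HasDerivAt (Z a) (Z' a t) t) (hY' : ∀ a, Continuous (Y' a))
    (hZ' : ∀ a, Continuous (Z' a)) (z₀ : ℂ) (p : Fin n × Fin n) : ContDiff ℝ 1 (ff Y Z z₀ p) := by
  have cY : ∀ a, Continuous (Y a) := fun a =>
    continuous_iff_continuousAt.2 fun t => (hY a t).continuousAt
  have cZ : ∀ a, Continuous (Z a) := fun a =>
    continuous_iff_continuousAt.2 fun t => (hZ a t).continuousAt
  rw [contDiff_one_iff_fderiv]
  refine ⟨fun z => (ff_der hY hZ z₀ p z).differentiableAt, ?_⟩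
  have h1 : fderiv ℝ (ff Y Z z₀ p) = fun z =>
      ff Y' Z z₀ p z • Complex.reCLM + ff Y Z' z₀ p z • Complex.imCLM := by
    funext z
    exact (ff_der hY hZ z₀ p z).fderiv
  rw [h1]
  exact ((ff_cont hY' cZ z₀ p).smul continuous_const).add
    ((ff_cont cY hZ' z₀ p).smul continuous_const)

/-- functions which vanish outside the cells -/
def Van (I : Fin n → Set ℝ) (Y : Fin n → ℝ → ℝ) : Prop := ∀ a t, t ∉ I a → Y a t = 0

lemma ff_van {Y Z : Fin n → ℝ → ℝ} (hY : Van I Y) (hZ : Van I Z) {z₀ : ℂ} {p : Fin n × Fin n}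
    {z : ℂ} (h : z.re - z₀.re ∉ I p.1 ∨ z.im - z₀.im ∉ I p.2) : ff Y Z z₀ p z = 0 := by
  unfold ff
  rcases h with h | h
  · rw [hY _ _ h, zero_mul]
  · rw [hZ _ _ h, mul_zero]

lemma cells (h : Tr r δ η ν n X X1 X2 Q I) {p q : Fin n × Fin n} (hpq : p ≠ q) (z₀ z : ℂ) :
    (z.re - z₀.re ∉ I p.1 ∨ z.im - z₀.im ∉ I p.2) ∨
      (z.re - z₀.re ∉ I q.1 ∨ z.im - z₀.im ∉ I q.2) := by
  by_contra hcon
  push Not at hcon
  obtain ⟨⟨h1, h2⟩, h3, h4⟩ := hcon
  apply hpq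
  refine Prod.ext ?_ ?_
  · by_contra hne
    exact Set.disjoint_left.1 (h.dis _ _ hne) h1 h3
  · by_contra hne
    exact Set.disjoint_left.1 (h.dis _ _ hne) h2 h4

lemma cell_out (h : Tr r δ η ν n X X1 X2 Q I) (p : Fin n × Fin n) {z₀ z : ℂ} (hz : z ∉ Sq z₀ r) :
    z.re - z₀.re ∉ I p.1 ∨ z.im - z₀.im ∉ I p.2 := by
  by_contra hcon
  push Not at hcon
  exact hz ⟨abs_le.2 (h.sub _ hcon.1), abs_le.2 (h.sub _ hcon.2)⟩

lemma Tr.vX (h : Tr r δ η ν n X X1 X2 Q I) : Van I X := fun a t ht => (h.supp a t ht).1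
lemma Tr.vX1 (h : Tr r δ η ν n X X1 X2 Q I) : Van I X1 := fun a t ht => (h.supp a t ht).2.1
lemma Tr.vX2 (h : Tr r δ η ν n X X1 X2 Q I) : Van I X2 := fun a t ht => (h.supp a t ht).2.2

lemma ee_van (h : Tr r δ η ν n X X1 X2 Q I) {z₀ : ℂ} {p : Fin n × Fin n}
    {z : ℂ} (hz : z.re - z₀.re ∉ I p.1 ∨ z.im - z₀.im ∉ I p.2) : ee ν X X2 Q z₀ p z = 0 := by
  unfold ee
  rw [ff_van h.vX2 h.vX hz, ff_van h.vX h.vX2 hz, ff_van h.vX h.vX hz]
  ring

lemma WW_cont (h : Tr r δ η ν n X X1 X2 Q I) (z₀ : ℂ) : Continuous (WW Q z₀) := by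
  have := h.cQ
  unfold WW
  exact ((this.comp (Complex.continuous_re.sub continuous_const)).add
    (this.comp (Complex.continuous_im.sub continuous_const))).div_const 2

lemma WW_near (h : Tr r δ η ν n X X1 X2 Q I) (z₀ z : ℂ) : |WW Q z₀ z - 1| ≤ δ := by
  have h1 := abs_le.1 (h.near (z.re - z₀.re))
  have h2 := abs_le.1 (h.near (z.im - z₀.im))
  unfold WW
  rw [abs_le]
  constructor <;> linarith [h1.1, h1.2, h2.1, h2.2]

lemma ee_cont (h : Tr r δ η ν n X X1 X2 Q I) (z₀ : ℂ) (p : Fin n × Fin n) :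
    Continuous (ee ν X X2 Q z₀ p) := by
  unfold ee
  exact ((ff_cont h.c2 h.cX z₀ p).add (ff_cont h.cX h.c2 z₀ p)).add
    (continuous_const.mul ((WW_cont h z₀).mul (ff_cont h.cX h.cX z₀ p)))

lemma integ {z₀ : ℂ} {r : ℝ} {g : ℂ → ℝ} (hg : Continuous g) (h0 : ∀ z, z ∉ Sq z₀ r → g z = 0) :
    Integrable g := by
  refine hg.integrable_of_hasCompactSupport ?_
  exact HasCompactSupport.intro (sq_compact z₀ r) h0

lemma sq_sum {ι : Type} [Fintype ι] (g : ι → ℝ) (h : ∀ p q, p ≠ q → g p * g q = 0) :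
    (∑ p, g p) ^ 2 = ∑ p, (g p) ^ 2 := by
  rw [sq, Finset.sum_mul_sum]
  refine Finset.sum_congr rfl fun p _ => ?_
  rw [Finset.sum_eq_single p]
  · ring
  · intro q _ hq
    exact h p q hq.symm
  · intro hh
    exact absurd (Finset.mem_univ p) hh

lemma int_ff (z₀ : ℂ) (Y Z : Fin n → ℝ → ℝ) (p : Fin n × Fin n) :
    ∫ z, (ff Y Z z₀ p z) ^ 2 = (∫ t, (Y p.1 t) ^ 2) * ∫ t, (Z p.2 t) ^ 2 := by
  rw [← int_prod z₀.re z₀.im]
  refine integral_congr_ae (Eventually.of_forall fun z => ?_)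
  simp only [ff]
  ring

lemma ff_pos (h : Tr r δ η ν n X X1 X2 Q I) (z₀ : ℂ) (p : Fin n × Fin n) :
    0 < ∫ z, (ff X X z₀ p z) ^ 2 := by
  rw [int_ff]
  exact mul_pos (h.pos _) (h.pos _)

lemma ee_le (h : Tr r δ η ν n X X1 X2 Q I) (z₀ : ℂ) (p : Fin n × Fin n) :
    ∫ z, (ee ν X X2 Q z₀ p z) ^ 2 ≤ 4 * η ^ 2 * ∫ z, (ff X X z₀ p z) ^ 2 := by
  obtain ⟨E, hE⟩ : ∃ E : Fin n → ℝ → ℝ, E = fun a t => X2 a t + ν * Q t * X a t := ⟨_, rfl⟩
  have hEv : Van I E := by
    intro a t ht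
    rw [hE]
    simp only
    rw [h.vX2 a t ht, h.vX a t ht]
    ring
  have hEc : ∀ a, Continuous (E a) := by
    intro a
    rw [hE]
    exact (h.c2 a).add ((continuous_const.mul h.cQ).mul (h.cX a))
  have hee : ∀ z, ee ν X X2 Q z₀ p z = ff E X z₀ p z + ff X E z₀ p z := by
    intro z
    rw [hE]
    simp only [ee, ff, WW]
    ring
  have h1 : Integrable (fun z => 2 * (ff E X z₀ p z) ^ 2) :=
    integ (z₀ := z₀) (r := r) (continuous_const.mul ((ff_cont hEc h.cX z₀ p).pow 2))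
      fun z hz => by rw [ff_van hEv h.vX (cell_out h p hz)]; ring
  have h2 : Integrable (fun z => 2 * (ff X E z₀ p z) ^ 2) :=
    integ (z₀ := z₀) (r := r) (continuous_const.mul ((ff_cont h.cX hEc z₀ p).pow 2))
      fun z hz => by rw [ff_van h.vX hEv (cell_out h p hz)]; ring
  have h3 : Integrable (fun z => (ee ν X X2 Q z₀ p z) ^ 2) :=
    integ (z₀ := z₀) (r := r) ((ee_cont h z₀ p).pow 2)
      fun z hz => by rw [ee_van h (cell_out h p hz)]; ring
  have h4 : ∫ z, (ee ν X X2 Q z₀ p z) ^ 2 ≤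
      ∫ z, (2 * (ff E X z₀ p z) ^ 2 + 2 * (ff X E z₀ p z) ^ 2) := by
    refine integral_mono h3 (h1.add h2) fun z => ?_
    simp only
    rw [hee z]
    nlinarith [sq_nonneg (ff E X z₀ p z - ff X E z₀ p z)]
  refine h4.trans ?_
  rw [integral_add h1 h2, integral_const_mul, integral_const_mul, int_ff, int_ff, int_ff]
  have h5 : ∫ t, (E p.1 t) ^ 2 ≤ η ^ 2 * ∫ t, (X p.1 t) ^ 2 := by
    rw [hE]
    exact h.res p.1
  have h6 : ∫ t, (E p.2 t) ^ 2 ≤ η ^ 2 * ∫ t, (X p.2 t) ^ 2 := by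
    rw [hE]
    exact h.res p.2
  have h7 := h.pos p.1
  have h8 := h.pos p.2
  nlinarith [mul_le_mul_of_nonneg_right h5 h8.le, mul_le_mul_of_nonneg_left h6 h7.le]

lemma comb_le (h : Tr r δ η ν n X X1 X2 Q I) (z₀ : ℂ) (c : Fin n × Fin n → ℝ) :
    ∫ z, (∑ p, c p * ee ν X X2 Q z₀ p z) ^ 2 ≤
      4 * η ^ 2 * ∫ z, (∑ p, c p * ff X X z₀ p z) ^ 2 := by
  have h1 : ∀ z, (∑ p, c p * ee ν X X2 Q z₀ p z) ^ 2 =
      ∑ p, (c p) ^ 2 * (ee ν X X2 Q z₀ p z) ^ 2 := by
    intro z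
    rw [sq_sum]
    · exact Finset.sum_congr rfl fun p _ => by ring
    · intro p q hpq
      rcases cells h hpq z₀ z with h2 | h2
      · rw [ee_van h h2]; ring
      · rw [ee_van h h2]; ring
  have h2 : ∀ z, (∑ p, c p * ff X X z₀ p z) ^ 2 = ∑ p, (c p) ^ 2 * (ff X X z₀ p z) ^ 2 := by
    intro z
    rw [sq_sum]
    · exact Finset.sum_congr rfl fun p _ => by ring
    · intro p q hpq
      rcases cells h hpq z₀ z with h2 | h2
      · rw [ff_van h.vX h.vX h2]; ring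
      · rw [ff_van h.vX h.vX h2]; ring
  simp only [h1, h2]
  rw [integral_finsetSum, integral_finsetSum, Finset.mul_sum]
  · refine Finset.sum_le_sum fun p _ => ?_
    rw [integral_const_mul, integral_const_mul]
    calc (c p) ^ 2 * ∫ z, (ee ν X X2 Q z₀ p z) ^ 2
        ≤ (c p) ^ 2 * (4 * η ^ 2 * ∫ z, (ff X X z₀ p z) ^ 2) :=
          mul_le_mul_of_nonneg_left (ee_le h z₀ p) (sq_nonneg _)
      _ = 4 * η ^ 2 * ((c p) ^ 2 * ∫ z, (ff X X z₀ p z) ^ 2) := by ring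
  · intro p _
    exact integ (z₀ := z₀) (r := r) (continuous_const.mul ((ff_cont h.cX h.cX z₀ p).pow 2))
      fun z hz => by rw [ff_van h.vX h.vX (cell_out h p hz)]; ring
  · intro p _
    exact integ (z₀ := z₀) (r := r) (continuous_const.mul ((ee_cont h z₀ p).pow 2))
      fun z hz => by rw [ee_van h (cell_out h p hz)]; ring

lemma comb_eq (h : Tr r δ η ν n X X1 X2 Q I) (z₀ : ℂ) (c : Fin n × Fin n → ℝ) :
    ∫ z, (∑ p, c p * ff X X z₀ p z) ^ 2 = ∑ p, (c p) ^ 2 * ∫ z, (ff X X z₀ p z) ^ 2 := by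
  have h2 : ∀ z, (∑ p, c p * ff X X z₀ p z) ^ 2 = ∑ p, (c p) ^ 2 * (ff X X z₀ p z) ^ 2 := by
    intro z
    rw [sq_sum]
    · exact Finset.sum_congr rfl fun p _ => by ring
    · intro p q hpq
      rcases cells h hpq z₀ z with h2 | h2
      · rw [ff_van h.vX h.vX h2]; ring
      · rw [ff_van h.vX h.vX h2]; ring
  simp only [h2]
  rw [integral_finsetSum]
  · simp only [integral_const_mul]
  · intro p _
    exact integ (z₀ := z₀) (r := r) (continuous_const.mul ((ff_cont h.cX h.cX z₀ p).pow 2))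
      fun z hz => by rw [ff_van h.vX h.vX (cell_out h p hz)]; ring

/-- integration by parts -/
lemma ibp (h : Tr r δ η ν n X X1 X2 Q I) (z₀ : ℂ) (p : Fin n × Fin n) {O : Set ℂ} (hO : IsOpen O)
    (hSO : Sq z₀ r ⊆ O) {G : ℂ → ℝ} (hG : ContDiffOn ℝ 1 G O) :
    ∫ z in Sq z₀ r, (fderiv ℝ (ff X X z₀ p) z 1 * fderiv ℝ G z 1 +
      fderiv ℝ (ff X X z₀ p) z Complex.I * fderiv ℝ G z Complex.I) =
      ∫ z in Sq z₀ r, (2 * ν * (WW Q z₀ z * ff X X z₀ p z) - ee ν X X2 Q z₀ p z) * G z := by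
  have hK := sq_compact z₀ r
  have hGc : ContinuousOn G (Sq z₀ r) := hG.continuousOn.mono hSO
  have hGd : ∀ v, ContinuousOn (fun z => fderiv ℝ G z v) (Sq z₀ r) := fun v =>
    ((hG.continuousOn_fderiv_of_isOpen hO le_rfl).mono hSO).clm_apply continuousOn_const
  have i1 := ibp0 hK hO hSO (P := ff X1 X z₀ p) (fun z => ff_der h.d2 h.d1 z₀ p z)
    (fun v => by
      have e1 := ff_cont h.c2 h.cX z₀ p
      have e2 := ff_cont h.cX1 h.cX1 z₀ p
      simp only [add_apply, smul_apply, smul_eq_mul]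
      exact (e1.mul continuous_const).add (e2.mul continuous_const))
    (fun z hz => ff_van h.vX1 h.vX (cell_out h p hz)) hG 1
  have i2 := ibp0 hK hO hSO (P := ff X X1 z₀ p) (fun z => ff_der h.d1 h.d2 z₀ p z)
    (fun v => by
      have e1 := ff_cont h.cX1 h.cX1 z₀ p
      have e2 := ff_cont h.cX h.c2 z₀ p
      simp only [add_apply, smul_apply, smul_eq_mul]
      exact (e1.mul continuous_const).add (e2.mul continuous_const))
    (fun z hz => ff_van h.vX h.vX1 (cell_out h p hz)) hG Complex.I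
  simp only [add_apply, smul_apply, smul_eq_mul, Complex.reCLM_apply, Complex.imCLM_apply,
    Complex.one_re, Complex.one_im, Complex.I_re, Complex.I_im, mul_one, mul_zero, add_zero,
    zero_add] at i1 i2
  have hd1 : ∀ z, fderiv ℝ (ff X X z₀ p) z 1 = ff X1 X z₀ p z := by
    intro z
    rw [(ff_der h.d1 h.d1 z₀ p z).fderiv]
    simp
  have hd2 : ∀ z, fderiv ℝ (ff X X z₀ p) z Complex.I = ff X X1 z₀ p z := by
    intro z
    rw [(ff_der h.d1 h.d1 z₀ p z).fderiv]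
    simp
  simp only [hd1, hd2]
  have j1 : IntegrableOn (fun z => ff X2 X z₀ p z * G z + ff X1 X z₀ p z * fderiv ℝ G z 1)
      (Sq z₀ r) :=
    (((ff_cont h.c2 h.cX z₀ p).continuousOn.mul hGc).add
      ((ff_cont h.cX1 h.cX z₀ p).continuousOn.mul (hGd 1))).integrableOn_compact hK
  have j2 : IntegrableOn (fun z => ff X X2 z₀ p z * G z + ff X X1 z₀ p z * fderiv ℝ G z Complex.I)
      (Sq z₀ r) :=
    (((ff_cont h.cX h.c2 z₀ p).continuousOn.mul hGc).add
      ((ff_cont h.cX h.cX1 z₀ p).continuousOn.mul (hGd Complex.I))).integrableOn_compact hK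
  have j3 : IntegrableOn (fun z => (2 * ν * (WW Q z₀ z * ff X X z₀ p z) -
      ee ν X X2 Q z₀ p z) * G z) (Sq z₀ r) :=
    (((continuous_const.mul ((WW_cont h z₀).mul (ff_cont h.cX h.cX z₀ p))).sub
      (ee_cont h z₀ p)).continuousOn.mul hGc).integrableOn_compact hK
  have j4 : ∀ z, ff X1 X z₀ p z * fderiv ℝ G z 1 + ff X X1 z₀ p z * fderiv ℝ G z Complex.I =
      (ff X2 X z₀ p z * G z + ff X1 X z₀ p z * fderiv ℝ G z 1) +
      (ff X X2 z₀ p z * G z + ff X X1 z₀ p z * fderiv ℝ G z Complex.I) +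
      (2 * ν * (WW Q z₀ z * ff X X z₀ p z) - ee ν X X2 Q z₀ p z) * G z := by
    intro z
    simp only [ee]
    ring
  have j12 : IntegrableOn (fun z => (ff X2 X z₀ p z * G z + ff X1 X z₀ p z * fderiv ℝ G z 1) +
      (ff X X2 z₀ p z * G z + ff X X1 z₀ p z * fderiv ℝ G z Complex.I)) (Sq z₀ r) := j1.add j2
  simp only [j4]
  rw [integral_add j12 j3, integral_add j1 j2, i1, i2]
  ring

end

end Pool.Agent.Q233.CPC
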