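import Pool.Agent.Q233.CPC.Plane
import Pool.Agent.Q233.CPC.Clu
import Pool.Agent.Y264.QR.All

/-!
# Traps on a surface: a cluster of eigenvalues
-/

set_option autoImplicit false
set_option linter.unusedSectionVars false

open Set Filter Topology MeasureTheory
open Pool.Agent.Y262.QE Pool.Agent.Y264.QR

noncomputable section

namespace Pool.Agent.Q233.CPC

/-! ### linear algebra -/

lemma det_formula (A : ℂ →L[ℝ] ℂ) :
    A.det = (A 1).re * (A Complex.I).im - (A Complex.I).re * (A 1).im := by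
  have h : A.det = LinearMap.det (A : ℂ →ₗ[ℝ] ℂ) := rfl
  rw [h, ← LinearMap.det_toMatrix Complex.basisOneI, Matrix.det_fin_two]
  simp [LinearMap.toMatrix_apply, Complex.coe_basisOneI_repr, Complex.coe_basisOneI]

lemma lin_eq (R : ℂ →L[ℝ] ℝ) (w : ℂ) : R w = w.re * R 1 + w.im * R Complex.I := by
  have h : w = w.re • (1 : ℂ) + w.im • Complex.I := by
    apply Complex.ext <;> simp
  conv_lhs => rw [h]
  rw [map_add, map_smul, map_smul, smul_eq_mul, smul_eq_mul]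

/-- the algebra -/
lemma alg {α β γ κ c : ℝ} (hA : α * κ - γ * β ≠ 0) (h1 : α ^ 2 + β ^ 2 = c ^ 2)
    (h2 : γ ^ 2 + κ ^ 2 = c ^ 2) (h3 : (α + γ) ^ 2 + (β + κ) ^ 2 = 2 * c ^ 2) (x y x' y' : ℝ) :
    (x * x' + y * y') * |α * κ - γ * β| =
      (α * x + β * y) * (α * x' + β * y') + (γ * x + κ * y) * (γ * x' + κ * y') := by
  have h7 : α * γ + β * κ = 0 := by nlinarith
  have hd : (α * κ - γ * β) ^ 2 = c ^ 2 * c ^ 2 := by
    have : (α * κ - γ * β) ^ 2 = (α ^ 2 + β ^ 2) * (γ ^ 2 + κ ^ 2) - (α * γ + β * κ) ^ 2 := by ring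
    rw [this, h1, h2, h7]
    ring
  have hc0 : c ^ 2 ≠ 0 := by
    intro h0
    rw [h0] at hd
    have : α * κ - γ * β = 0 := by
      have h8 : (α * κ - γ * β) ^ 2 = 0 := by rw [hd]; ring
      exact pow_eq_zero_iff two_ne_zero |>.1 h8
    exact hA this
  have habs : |α * κ - γ * β| = c ^ 2 := by
    have h8 : |α * κ - γ * β| ^ 2 = (c ^ 2) ^ 2 := by rw [sq_abs, hd]; ring
    exact (pow_left_inj₀ (abs_nonneg _) (sq_nonneg c) two_ne_zero).1 h8
  have e1 : α ^ 2 = κ ^ 2 := by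
    have h8 : (α * γ) ^ 2 = (β * κ) ^ 2 := by
      have : α * γ = -(β * κ) := by linarith
      rw [this]; ring
    have h9 : α ^ 2 * c ^ 2 = κ ^ 2 * c ^ 2 := by
      calc α ^ 2 * c ^ 2 = α ^ 2 * (γ ^ 2 + κ ^ 2) := by rw [h2]
        _ = (α * γ) ^ 2 + α ^ 2 * κ ^ 2 := by ring
        _ = (β * κ) ^ 2 + α ^ 2 * κ ^ 2 := by rw [h8]
        _ = κ ^ 2 * (α ^ 2 + β ^ 2) := by ring
        _ = κ ^ 2 * c ^ 2 := by rw [h1]
    exact mul_right_cancel₀ hc0 h9
  have e2 : β ^ 2 = γ ^ 2 := by linarith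
  have e3 : α * β + γ * κ = 0 := by
    have h8 : α * (α * β + γ * κ) = 0 := by
      have : α * (α * β + γ * κ) = α ^ 2 * β + (α * γ) * κ := by ring
      have h9 : α * γ = -(β * κ) := by linarith
      rw [this, h9, e1]
      ring
    have h9 : γ * (α * β + γ * κ) = 0 := by
      have : γ * (α * β + γ * κ) = (α * γ) * β + γ ^ 2 * κ := by ring
      have h9 : α * γ = -(β * κ) := by linarith
      rw [this, h9, ← e2]
      ring
    rcases mul_eq_zero.1 h8 with h10 | h10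
    · rcases mul_eq_zero.1 h9 with h11 | h11
      · exfalso
        apply hc0
        rw [← h1, e2, h10, h11]
        ring
      · exact h11
    · exact h10
  rw [habs]
  have e4 : α ^ 2 + γ ^ 2 = c ^ 2 := by linarith
  have e5 : β ^ 2 + κ ^ 2 = c ^ 2 := by linarith
  have e6 : (α * x + β * y) * (α * x' + β * y') + (γ * x + κ * y) * (γ * x' + κ * y') =
      (α ^ 2 + γ ^ 2) * (x * x') + (β ^ 2 + κ ^ 2) * (y * y') +
      (α * β + γ * κ) * (x * y' + y * x') := by ring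
  rw [e6, e3, e4, e5]
  ring

/-- a conformal change of the frame does not change the Dirichlet integral -/
lemma conf_inner {A : ℂ →L[ℝ] ℂ} (hA : A.det ≠ 0) {c : ℝ} (hc : ∀ v, ‖A v‖ = c * ‖v‖)
    (P P' : ℂ →L[ℝ] ℝ) : inner ℝ (grd A P) (grd A P') * |A.det| =
      P 1 * P' 1 + P Complex.I * P' Complex.I := by
  have hinv := Pool.Agent.Y708.QE.inv_apply' hA
  obtain ⟨R, hR⟩ : ∃ R : ℂ →L[ℝ] ℝ, R = P.comp A.inverse := ⟨_, rfl⟩
  obtain ⟨R', hR'⟩ : ∃ R' : ℂ →L[ℝ] ℝ, R' = P'.comp A.inverse := ⟨_, rfl⟩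
  have hP : ∀ v, P v = R (A v) := fun v => by rw [hR, ContinuousLinearMap.comp_apply, hinv]
  have hP' : ∀ v, P' v = R' (A v) := fun v => by rw [hR', ContinuousLinearMap.comp_apply, hinv]
  have hin : inner ℝ (grd A P) (grd A P') = R 1 * R' 1 + R Complex.I * R' Complex.I := by
    rw [Pool.Agent.Y708.QE.inner_re, hR, hR']
    rfl
  have hn : ∀ w : ℂ, ‖w‖ ^ 2 = w.re ^ 2 + w.im ^ 2 := by
    intro w
    rw [← Complex.normSq_eq_norm_sq, Complex.normSq_apply]
    ring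
  have h1 : (A 1).re ^ 2 + (A 1).im ^ 2 = c ^ 2 := by
    rw [← hn, hc]
    simp
  have h2 : (A Complex.I).re ^ 2 + (A Complex.I).im ^ 2 = c ^ 2 := by
    rw [← hn, hc]
    simp
  have h3 : ((A 1).re + (A Complex.I).re) ^ 2 + ((A 1).im + (A Complex.I).im) ^ 2 = 2 * c ^ 2 := by
    have h4 : A (1 + Complex.I) = A 1 + A Complex.I := map_add A _ _
    have h5 := hc (1 + Complex.I)
    rw [h4] at h5
    have h6 : ‖A 1 + A Complex.I‖ ^ 2 = c ^ 2 * ‖(1 + Complex.I : ℂ)‖ ^ 2 := by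
      rw [h5]; ring
    rw [hn, hn] at h6
    simp only [Complex.add_re, Complex.add_im, Complex.one_re, Complex.one_im, Complex.I_re,
      Complex.I_im] at h6
    linarith
  rw [hin, hP 1, hP' 1, hP Complex.I, hP' Complex.I, lin_eq R (A 1), lin_eq R' (A 1),
    lin_eq R (A Complex.I), lin_eq R' (A Complex.I), det_formula]
  rw [det_formula] at hA
  exact alg hA h1 h2 h3 _ _ _ _

/-! ### the surface -/

section

variable {M : Type} [MetricSpace M] [CompactSpace M] [MeasurableSpace M] [BorelSpace M]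
  {μ : Measure M} {D : Data M}

/-- extension of a function on a square by zero -/
lemma lift_ex (S : D.IsSurf μ) {i : Fin D.N} {z₀ : ℂ} {r : ℝ} (hs : Sq z₀ r ⊆ D.T i) {f : ℂ → ℝ}
    (hf : ContDiff ℝ 1 f) (h0 : ∀ z, z ∉ Sq z₀ r → f z = 0) :
    ∃ F : M → ℝ, D.C1 F ∧ (∀ z ∈ D.T i, F (D.ψ i z) = f z) ∧
      ∀ x, x ∉ D.ψ i '' Sq z₀ r → F x = 0 := by
  have hid : (ContinuousLinearMap.id ℝ ℂ).det ≠ 0 := by
    rw [det_formula]
    simp
  have hinv : ∀ y, (ContinuousLinearMap.id ℝ ℂ).inverse y = y := fun y => by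
    have := Pool.Agent.Y708.QE.inv_apply hid y
    simpa using this
  have hts : tsupport f ⊆ Sq z₀ r := by
    refine closure_minimal (fun z hz => ?_) (sq_compact z₀ r).isClosed
    by_contra hcon
    exact hz (h0 z hcon)
  obtain ⟨F, h1, h2, h3⟩ := Pool.Agent.Y183.QR.Loc.lift S i hid 0 (sq_compact z₀ r)
    (fun y hy => by rw [hinv, zero_add]; exact hs hy) hf hts
  simp only [hinv, zero_add] at h2 h3
  refine ⟨F, h1, fun z hz => ?_, fun x hx => h3 x hx⟩
  by_cases hzS : z ∈ Sq z₀ r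
  · exact h2 z hzS
  · rw [h0 z hzS]
    refine h3 _ ?_
    rintro ⟨w, hw, hwz⟩
    have e1 := (Pool.Agent.Y183.QR.Loc.φψ S hz).2
    have e2 := (Pool.Agent.Y183.QR.Loc.φψ S (hs hw)).2
    simp only at hwz
    rw [hwz, e1] at e2
    exact hzS (e2 ▸ hw)

/-- integration over the image of a square -/
lemma int_K (S : D.IsSurf μ) {i : Fin D.N} {z₀ : ℂ} {r : ℝ} (hs : Sq z₀ r ⊆ D.T i) {g : M → ℝ}
    (hg : AEStronglyMeasurable g μ) :
    ∫ x in D.ψ i '' Sq z₀ r, g x ∂μ = ∫ z in Sq z₀ r, g (D.ψ i z) * |(D.A i z).det| := by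
  obtain ⟨h1, h2, h3⟩ := Pool.Agent.Y183.QR.Loc.meas_img S i
    (sq_compact z₀ r).isClosed.measurableSet hs
  rw [(Pool.Agent.Y960.QE.int_chart M μ D S i).2 _ h1 h2 g hg, h3]

lemma int_K' (S : D.IsSurf μ) {i : Fin D.N} {z₀ : ℂ} {r : ℝ} (hs : Sq z₀ r ⊆ D.T i) {g : M → ℝ}
    (hg : AEStronglyMeasurable g μ) (h0 : ∀ x, x ∉ D.ψ i '' Sq z₀ r → g x = 0) :
    ∫ x, g x ∂μ = ∫ z in Sq z₀ r, g (D.ψ i z) * |(D.A i z).det| := by
  rw [← int_K S hs hg]
  exact (setIntegral_eq_integral_of_forall_compl_eq_zero h0).symm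

/-- the Dirichlet integral -/
lemma dir_int (S : D.IsSurf μ) {i : Fin D.N} {z₀ : ℂ} {r : ℝ} (hs : Sq z₀ r ⊆ D.T i)
    (hc : ∀ z ∈ Sq z₀ r, ∃ c : ℝ, ∀ v, ‖D.A i z v‖ = c * ‖v‖) {f : ℂ → ℝ} {F G : M → ℝ}
    (hF : D.C1 F) (hFf : ∀ z ∈ D.T i, F (D.ψ i z) = f z)
    (hF0 : ∀ x, x ∉ D.ψ i '' Sq z₀ r → F x = 0) (hG : D.C1 G) :
    ∫ x, inner ℝ (D.gr F x) (D.gr G x) ∂μ =
      ∫ z in Sq z₀ r, (fderiv ℝ f z 1 * fderiv ℝ (fun z => G (D.ψ i z)) z 1 +
        fderiv ℝ f z Complex.I * fderiv ℝ (fun z => G (D.ψ i z)) z Complex.I) := by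
  have hgF := (Pool.Agent.Y708.QE.gradient M μ D S).1 F hF
  have hgG := (Pool.Agent.Y708.QE.gradient M μ D S).1 G hG
  have hK : IsClosed (D.ψ i '' Sq z₀ r) :=
    ((sq_compact z₀ r).image_of_continuousOn ((S.contψ i).mono hs)).isClosed
  rw [int_K' S hs]
  · refine setIntegral_congr_fun (sq_compact z₀ r).isClosed.measurableSet fun z hz => ?_
    obtain ⟨hU, hφ⟩ := Pool.Agent.Y183.QR.Loc.φψ S (hs hz)
    obtain ⟨c, hcz⟩ := hc z hz
    rw [Pool.Agent.Y708.QE.inner_gr S hF hG hU]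
    unfold Data.gc
    rw [hφ, conf_inner (S.det i z (hs hz)) hcz]
    unfold Data.dc
    rw [hφ]
    have he : (fun z => F (D.ψ i z)) =ᶠ[𝓝 z] f := by
      filter_upwards [(S.openT i).mem_nhds (hs hz)] with w hw
      exact hFf w hw
    rw [he.fderiv_eq]
  · exact (hgF.2.1.inner hgG.2.1).aestronglyMeasurable
  · intro x hx
    rw [Pool.Agent.Y268.QR.gr_off S hK hF0 hx, inner_zero_left]

/-- Cauchy-Schwarz -/
lemma csi {X : Type} [MeasurableSpace X] {m : Measure X} {f g : X → ℝ}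
    (h1 : Integrable (fun x => (f x) ^ 2) m) (h2 : Integrable (fun x => (g x) ^ 2) m)
    (h3 : Integrable (fun x => f x * g x) m) :
    (∫ x, f x * g x ∂m) ^ 2 ≤ (∫ x, (f x) ^ 2 ∂m) * ∫ x, (g x) ^ 2 ∂m := by
  have h : ∀ t : ℝ, 0 ≤ (∫ x, (g x) ^ 2 ∂m) * (t * t) + (-2 * ∫ x, f x * g x ∂m) * t +
      ∫ x, (f x) ^ 2 ∂m := by
    intro t
    have h4 : ∫ x, (f x - t * g x) ^ 2 ∂m = (∫ x, (g x) ^ 2 ∂m) * (t * t) +
        (-2 * ∫ x, f x * g x ∂m) * t + ∫ x, (f x) ^ 2 ∂m := by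
      have h5 : ∀ x, (f x - t * g x) ^ 2 = (t * t) * (g x) ^ 2 + (-2 * t) * (f x * g x) +
          (f x) ^ 2 := by
        intro x; ring
      simp only [h5]
      have i1 : Integrable (fun x => (t * t) * (g x) ^ 2) m := h2.const_mul _
      have i2 : Integrable (fun x => (-2 * t) * (f x * g x)) m := h3.const_mul _
      have i3 : Integrable (fun x => (t * t) * (g x) ^ 2 + (-2 * t) * (f x * g x)) m := i1.add i2
      rw [integral_add i3 h1, integral_add i1 i2, integral_const_mul, integral_const_mul]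
      ring
    rw [← h4]
    exact integral_nonneg fun x => sq_nonneg _
  have h6 := discrim_le_zero h
  unfold discrim at h6
  nlinarith

theorem surf_cluster [IsFiniteMeasure μ] (S : D.IsSurf μ) {j : HF D μ →L[ℝ] Lp ℝ 2 μ}
    {a : HF D μ →L[ℝ] HF D μ →L[ℝ] ℝ} {b : C(M, ℝ) → HF D μ →L[ℝ] HF D μ →L[ℝ] ℝ}
    (hj : ∀ v, j v = v.1.fst) (ha : ∀ u v, a u v = inner ℝ u.1.snd v.1.snd) (hB : IsB μ j b)
    {φ : C(M, ℝ)} (hF : Fm a (b φ)) {e : ℕ → HF D μ} {E : ℕ → ℝ} (hE : Eg a (b φ) e E)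
    {r δ η ν m : ℝ} {n : ℕ} {X X1 X2 : Fin n → ℝ → ℝ} {Q : ℝ → ℝ} {I : Fin n → Set ℝ}
    (hT : Tr r δ η ν n X X1 X2 Q I) (hη : 0 ≤ η) (hδ : δ ≤ 1 / 2) (hm : 0 < m)
    {i : Fin D.N} {z₀ : ℂ} (hs : Sq z₀ r ⊆ D.T i)
    (hc : ∀ z ∈ Sq z₀ r, ∃ c : ℝ, ∀ v, ‖D.A i z v‖ = c * ‖v‖)
    (hφ : ∀ z ∈ Sq z₀ r, Real.exp (φ (D.ψ i z)) * |(D.A i z).det| = m * WW Q z₀ z) :
    ∃ J : Finset ℕ, n ^ 2 ≤ J.card ∧ ∀ k ∈ J, |E k - 2 * ν / m| ≤ 4 * η / m := by
  have hSc := sq_compact z₀ r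
  have hSm : MeasurableSet (Sq z₀ r) := hSc.isClosed.measurableSet
  have hW := WW_cont hT z₀
  have hWl : ∀ z, 1 / 2 ≤ WW Q z₀ z := fun z => by
    have := (abs_le.1 (WW_near hT z₀ z)).1
    linarith
  have hf : ∀ p, ContDiff ℝ 1 (ff X X z₀ p) := fun p => ff_C1 hT.d1 hT.d1 hT.cX1 hT.cX1 z₀ p
  have hf0 : ∀ p z, z ∉ Sq z₀ r → ff X X z₀ p z = 0 := fun p z hz =>
    ff_van hT.vX hT.vX (cell_out hT p hz)
  choose F hF1 hF2 hF3 using fun p => lift_ex S hs (hf p) (hf0 p)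
  choose v' hv1 hv2 hv3 using fun p => (tDenF M μ D S).1 (F p) (hF1 p)
  obtain ⟨v, hv⟩ : ∃ v : Fin n × Fin n → HF D μ, v = fun p => ⟨v' p, hv1 p⟩ := ⟨_, rfl⟩
  have hvf : ∀ p, ((v p).1.fst : M → ℝ) =ᵐ[μ] F p := fun p => by rw [hv]; exact hv2 p
  have hvs : ∀ p, ((v p).1.snd : M → ℂ) =ᵐ[μ] D.gr (F p) := fun p => by rw [hv]; exact hv3 p
  have hGt : ∀ G : M → ℝ, D.C1 G → ContinuousOn (fun z => G (D.ψ i z)) (Sq z₀ r) := fun G hG =>
    (hG i).continuousOn.mono hs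
  have hGcont : ∀ G : M → ℝ, D.C1 G → Continuous G := fun G hG => Pool.Agent.Y708.QE.C1_cont S hG
  -- the two forms
  have k1 : ∀ p (w : HF D μ) (G : M → ℝ), D.C1 G → (w.1.fst : M → ℝ) =ᵐ[μ] G →
      (w.1.snd : M → ℂ) =ᵐ[μ] D.gr G → a (v p) w =
      ∫ z in Sq z₀ r, (2 * ν * (WW Q z₀ z * ff X X z₀ p z) - ee ν X X2 Q z₀ p z) *
        G (D.ψ i z) := by
    intro p w G hG hw1 hw2
    rw [ha, innC]
    have h1 : ∫ x, inner ℝ (((v p).1.snd : M → ℂ) x) ((w.1.snd : M → ℂ) x) ∂μ =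
        ∫ x, inner ℝ (D.gr (F p) x) (D.gr G x) ∂μ := by
      refine integral_congr_ae ?_
      filter_upwards [hvs p, hw2] with x h1 h2
      rw [h1, h2]
    rw [h1, dir_int S hs hc (hF1 p) (hF2 p) (hF3 p) hG]
    exact ibp hT z₀ p (S.openT i) hs (hG i)
  have k2 : ∀ p (w : HF D μ) (G : M → ℝ), D.C1 G → (w.1.fst : M → ℝ) =ᵐ[μ] G →
      b φ (v p) w = ∫ z in Sq z₀ r, m * (WW Q z₀ z * ff X X z₀ p z) * G (D.ψ i z) := by
    intro p w G hG hw1
    rw [hB]
    have h1 : ∫ x, Real.exp (φ x) * ((j (v p) : M → ℝ) x * (j w : M → ℝ) x) ∂μ =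
        ∫ x, Real.exp (φ x) * (F p x * G x) ∂μ := by
      rw [hj, hj]
      refine integral_congr_ae ?_
      filter_upwards [hvf p, hw1] with x h1 h2
      rw [h1, h2]
    rw [h1, int_K' S hs]
    · refine setIntegral_congr_fun hSm fun z hz => ?_
      have h2 := hφ z hz
      rw [hF2 p z (hs hz)]
      calc Real.exp (φ (D.ψ i z)) * (ff X X z₀ p z * G (D.ψ i z)) * |(D.A i z).det| =
          (Real.exp (φ (D.ψ i z)) * |(D.A i z).det|) * ff X X z₀ p z * G (D.ψ i z) := by ring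
        _ = _ := by rw [h2]; ring
    · exact ((Real.continuous_exp.comp φ.continuous).mul
        ((hGcont _ (hF1 p)).mul (hGcont _ hG))).aestronglyMeasurable
    · intro x hx
      rw [hF3 p x hx]
      ring
  have k3 : ∀ p (w : HF D μ) (G : M → ℝ), D.C1 G → (w.1.fst : M → ℝ) =ᵐ[μ] G →
      (w.1.snd : M → ℂ) =ᵐ[μ] D.gr G → a (v p) w - 2 * ν / m * b φ (v p) w =
      -∫ z in Sq z₀ r, ee ν X X2 Q z₀ p z * G (D.ψ i z) := by
    intro p w G hG hw1 hw2
    have i1 : IntegrableOn (fun z => (2 * ν * (WW Q z₀ z * ff X X z₀ p z) -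
        ee ν X X2 Q z₀ p z) * G (D.ψ i z)) (Sq z₀ r) :=
      (((continuous_const.mul (hW.mul (ff_cont hT.cX hT.cX z₀ p))).sub
        (ee_cont hT z₀ p)).continuousOn.mul (hGt G hG)).integrableOn_compact hSc
    have i2 : IntegrableOn (fun z => 2 * ν / m * (m * (WW Q z₀ z * ff X X z₀ p z) *
        G (D.ψ i z))) (Sq z₀ r) :=
      (continuousOn_const.mul (((continuous_const.mul
        (hW.mul (ff_cont hT.cX hT.cX z₀ p))).continuousOn.mul
        (hGt G hG)))).integrableOn_compact hSc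
    rw [k1 p w G hG hw1 hw2, k2 p w G hG hw1, ← integral_const_mul, ← integral_sub i1 i2,
      ← integral_neg]
    refine setIntegral_congr_fun hSm fun z _ => ?_
    field_simp
    ring
  -- the vectors
  have hvv : ∀ p q, b φ (v p) (v q) =
      ∫ z in Sq z₀ r, m * (WW Q z₀ z * ff X X z₀ p z) * ff X X z₀ q z := by
    intro p q
    rw [k2 p (v q) (F q) (hF1 q) (hvf q)]
    refine setIntegral_congr_fun hSm fun z hz => ?_
    rw [hF2 q z (hs hz)]
  have hfi : ∀ p, Integrable (fun z => (ff X X z₀ p z) ^ 2) := fun p =>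
    integ (z₀ := z₀) (r := r) ((ff_cont hT.cX hT.cX z₀ p).pow 2)
      fun z hz => by rw [hf0 p z hz]; ring
  have hvp : ∀ p, m / 2 * ∫ z, (ff X X z₀ p z) ^ 2 ≤ b φ (v p) (v p) := by
    intro p
    rw [hvv, ← integral_const_mul]
    have h1 : ∫ z, m / 2 * (ff X X z₀ p z) ^ 2 = ∫ z in Sq z₀ r, m / 2 * (ff X X z₀ p z) ^ 2 :=
      (setIntegral_eq_integral_of_forall_compl_eq_zero fun z hz => by
        rw [hf0 p z hz]; ring).symm
    rw [h1]
    refine setIntegral_mono_on ((hfi p).const_mul _).integrableOn ?_ hSm fun z _ => ?_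
    · exact (((continuous_const.mul (hW.mul (ff_cont hT.cX hT.cX z₀ p))).mul
        (ff_cont hT.cX hT.cX z₀ p)).continuousOn).integrableOn_compact hSc
    · have h2 := hWl z
      have h3 : 0 ≤ m * (ff X X z₀ p z) ^ 2 := by positivity
      nlinarith
  have hvo : ∀ p q, p ≠ q → b φ (v p) (v q) = 0 := by
    intro p q hpq
    rw [hvv]
    have h1 : ∀ z, m * (WW Q z₀ z * ff X X z₀ p z) * ff X X z₀ q z = 0 := by
      intro z
      rcases cells hT hpq z₀ z with h2 | h2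
      · rw [ff_van hT.vX hT.vX h2]; ring
      · rw [ff_van hT.vX hT.vX h2]; ring
    simp only [h1, integral_zero]
  have hvpos : ∀ p, 0 < b φ (v p) (v p) := fun p =>
    lt_of_lt_of_le (mul_pos (by positivity) (ff_pos hT z₀ p)) (hvp p)
  have hcomb : ∀ c : Fin n × Fin n → ℝ, ∫ z, (∑ p, c p * ff X X z₀ p z) ^ 2 ≤
      2 / m * b φ (∑ p, c p • v p) (∑ p, c p • v p) := by
    intro c
    have h1 : b φ (∑ p, c p • v p) (∑ p, c p • v p) = ∑ p, (c p) ^ 2 * b φ (v p) (v p) := by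
      simp only [map_sum, sum_apply, map_smul, smul_apply, smul_eq_mul]
      refine Finset.sum_congr rfl fun p _ => ?_
      rw [Finset.sum_eq_single p]
      · ring
      · intro q _ hq
        rw [hvo q p hq]
        ring
      · intro h
        exact absurd (Finset.mem_univ p) h
    rw [comb_eq hT, h1, Finset.mul_sum]
    refine Finset.sum_le_sum fun p _ => ?_
    have h2 := hvp p
    have h3 : ∫ z, (ff X X z₀ p z) ^ 2 ≤ 2 / m * b φ (v p) (v p) := by
      calc ∫ z, (ff X X z₀ p z) ^ 2 = 2 / m * (m / 2 * ∫ z, (ff X X z₀ p z) ^ 2) := by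
            field_simp
        _ ≤ _ := mul_le_mul_of_nonneg_left h2 (by positivity)
    calc (c p) ^ 2 * ∫ z, (ff X X z₀ p z) ^ 2 ≤ (c p) ^ 2 * (2 / m * b φ (v p) (v p)) :=
          mul_le_mul_of_nonneg_left h3 (sq_nonneg _)
      _ = _ := by ring
  -- the mass of a test function on the square
  have k5 : ∀ (w : HF D μ) (G : M → ℝ), D.C1 G → (w.1.fst : M → ℝ) =ᵐ[μ] G →
      ∫ z in Sq z₀ r, (G (D.ψ i z)) ^ 2 ≤ 2 / m * b φ w w := by
    intro w G hG hw1
    have hGc := hGcont G hG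
    have h1 : b φ w w = ∫ x, Real.exp (φ x) * (G x) ^ 2 ∂μ := by
      rw [hB, hj]
      refine integral_congr_ae ?_
      filter_upwards [hw1] with x h1
      rw [h1]
      ring
    have hcont : Continuous fun x => Real.exp (φ x) * (G x) ^ 2 :=
      (Real.continuous_exp.comp φ.continuous).mul (hGc.pow 2)
    have h2 : ∫ x in D.ψ i '' Sq z₀ r, Real.exp (φ x) * (G x) ^ 2 ∂μ ≤ b φ w w := by
      rw [h1]
      exact setIntegral_le_integral (Pool.Agent.Y268.QR.int_cont hcont)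
        (Eventually.of_forall fun x => by positivity)
    rw [int_K S hs hcont.aestronglyMeasurable] at h2
    have h3 : ∫ z in Sq z₀ r, m / 2 * (G (D.ψ i z)) ^ 2 ≤
        ∫ z in Sq z₀ r, Real.exp (φ (D.ψ i z)) * (G (D.ψ i z)) ^ 2 * |(D.A i z).det| := by
      refine setIntegral_mono_on ?_ ?_ hSm fun z hz => ?_
      · exact (continuousOn_const.mul ((hGt G hG).pow 2)).integrableOn_compact hSc
      · have h8 : ContinuousOn (fun z => Real.exp (φ (D.ψ i z)) * (G (D.ψ i z)) ^ 2 *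
            |(D.A i z).det|) (Sq z₀ r) := by
          refine ContinuousOn.congr (f := fun z => m * WW Q z₀ z * (G (D.ψ i z)) ^ 2)
            ((continuous_const.mul hW).continuousOn.mul ((hGt G hG).pow 2)) fun z hz => ?_
          have h4 := hφ z hz
          change _ = m * WW Q z₀ z * (G (D.ψ i z)) ^ 2
          rw [← h4]
          ring
        exact h8.integrableOn_compact hSc
      · have h4 := hφ z hz
        have h5 := hWl z
        have h6 : Real.exp (φ (D.ψ i z)) * (G (D.ψ i z)) ^ 2 * |(D.A i z).det| =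
            m * WW Q z₀ z * (G (D.ψ i z)) ^ 2 := by
          rw [← h4]; ring
        rw [h6]
        have h7 : 0 ≤ m * (G (D.ψ i z)) ^ 2 := by positivity
        nlinarith
    rw [integral_const_mul] at h3
    calc ∫ z in Sq z₀ r, (G (D.ψ i z)) ^ 2 = 2 / m * (m / 2 * ∫ z in Sq z₀ r,
          (G (D.ψ i z)) ^ 2) := by field_simp
      _ ≤ 2 / m * b φ w w := mul_le_mul_of_nonneg_left (h3.trans h2) (by positivity)
  -- the functional inequality
  have hq : ∀ (c : Fin n × Fin n → ℝ) (w : HF D μ),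
      (a (∑ p, c p • v p) w - 2 * ν / m * b φ (∑ p, c p • v p) w) ^ 2 ≤
      (4 * η / m) ^ 2 * b φ (∑ p, c p • v p) (∑ p, c p • v p) * b φ w w := by
    intro c
    refine dens tDenF S (P := fun w => (a (∑ p, c p • v p) w -
      2 * ν / m * b φ (∑ p, c p • v p) w) ^ 2 ≤
      (4 * η / m) ^ 2 * b φ (∑ p, c p • v p) (∑ p, c p • v p) * b φ w w) ?_ ?_
    · refine isClosed_le ?_ ?_
      · fun_prop
      · fun_prop
    · intro w G hG hw1 hw2
      have h1 : a (∑ p, c p • v p) w - 2 * ν / m * b φ (∑ p, c p • v p) w =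
          ∑ p, c p * (a (v p) w - 2 * ν / m * b φ (v p) w) := by
        simp only [map_sum, sum_apply, map_smul, smul_apply, smul_eq_mul, mul_sub,
          Finset.sum_sub_distrib, Finset.mul_sum]
        congr 1
        exact Finset.sum_congr rfl fun p _ => by ring
      have h2 : ∑ p, c p * (a (v p) w - 2 * ν / m * b φ (v p) w) =
          -∫ z in Sq z₀ r, (∑ p, c p * ee ν X X2 Q z₀ p z) * G (D.ψ i z) := by
        simp only [k3 _ w G hG hw1 hw2, Finset.sum_mul]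
        rw [integral_finsetSum]
        · rw [← Finset.sum_neg_distrib]
          refine Finset.sum_congr rfl fun p _ => ?_
          rw [mul_neg, ← integral_const_mul]
          congr 1
          refine setIntegral_congr_fun hSm fun z _ => ?_
          ring
        · intro p _
          exact (((continuous_const.mul (ee_cont hT z₀ p)).continuousOn.mul
            (hGt G hG))).integrableOn_compact hSc
      have hec : Continuous fun z => ∑ p, c p * ee ν X X2 Q z₀ p z :=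
        continuous_finsetSum _ fun p _ => continuous_const.mul (ee_cont hT z₀ p)
      have h3 : (∫ z in Sq z₀ r, (∑ p, c p * ee ν X X2 Q z₀ p z) * G (D.ψ i z)) ^ 2 ≤
          (∫ z in Sq z₀ r, (∑ p, c p * ee ν X X2 Q z₀ p z) ^ 2) *
          ∫ z in Sq z₀ r, (G (D.ψ i z)) ^ 2 :=
        csi ((hec.pow 2).continuousOn.integrableOn_compact hSc)
          (((hGt G hG).pow 2).integrableOn_compact hSc)
          ((hec.continuousOn.mul (hGt G hG)).integrableOn_compact hSc)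
      have h4 : ∫ z in Sq z₀ r, (∑ p, c p * ee ν X X2 Q z₀ p z) ^ 2 ≤
          4 * η ^ 2 * (2 / m * b φ (∑ p, c p • v p) (∑ p, c p • v p)) := by
        have h5 : ∫ z in Sq z₀ r, (∑ p, c p * ee ν X X2 Q z₀ p z) ^ 2 =
            ∫ z, (∑ p, c p * ee ν X X2 Q z₀ p z) ^ 2 := by
          refine setIntegral_eq_integral_of_forall_compl_eq_zero fun z hz => ?_
          have : ∑ p, c p * ee ν X X2 Q z₀ p z = 0 :=
            Finset.sum_eq_zero fun p _ => by rw [ee_van hT (cell_out hT p hz), mul_zero]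
          rw [this]
          norm_num
        rw [h5]
        exact (comb_le hT z₀ c).trans (mul_le_mul_of_nonneg_left (hcomb c) (by positivity))
      have h6 := k5 w G hG hw1
      have h7 : 0 ≤ ∫ z in Sq z₀ r, (G (D.ψ i z)) ^ 2 :=
        integral_nonneg fun z => sq_nonneg _
      have h8 : 0 ≤ 4 * η ^ 2 * (2 / m * b φ (∑ p, c p • v p) (∑ p, c p • v p)) := by
        have := hF.nb (∑ p, c p • v p)
        positivity
      rw [h1, h2, neg_sq]
      calc (∫ z in Sq z₀ r, (∑ p, c p * ee ν X X2 Q z₀ p z) * G (D.ψ i z)) ^ 2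
          ≤ (∫ z in Sq z₀ r, (∑ p, c p * ee ν X X2 Q z₀ p z) ^ 2) *
            ∫ z in Sq z₀ r, (G (D.ψ i z)) ^ 2 := h3
        _ ≤ (4 * η ^ 2 * (2 / m * b φ (∑ p, c p • v p) (∑ p, c p • v p))) *
            (2 / m * b φ w w) := mul_le_mul h4 h6 h7 h8
        _ = (4 * η / m) ^ 2 * b φ (∑ p, c p • v p) (∑ p, c p • v p) * b φ w w := by
          field_simp
          ring
  obtain ⟨J, hJ1, hJ2⟩ := cluster hF hE v hvo hvpos (ν := 2 * ν / m) (η := 4 * η / m)
    (by positivity) hq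
  refine ⟨J, ?_, hJ2⟩
  simpa [Fintype.card_prod, Fintype.card_fin, sq] using hJ1

end

end Pool.Agent.Q233.CPC
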