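import Mathlib

/-!
# A trap on the line

`F = χ(t) cos (k t) exp (- g t)` with `g' = κ t (1 + cos (2 k t))` satisfies `F'' = - k² q F` up to a
small error, where `q` is close to one (a Bragg mirror on both sides of the origin).
-/

set_option autoImplicit false

open Set Filter Topology MeasureTheory

noncomputable section

namespace Pool.Agent.Q233.CPC

/-- the exponent -/
def gg (k κ t : ℝ) : ℝ :=
  κ * (t ^ 2 / 2 + t * Real.sin (2 * k * t) / (2 * k) + (Real.cos (2 * k * t) - 1) / (4 * k ^ 2))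

/-- its derivative -/
def g1 (k κ t : ℝ) : ℝ := κ * t * (1 + Real.cos (2 * k * t))

/-- the untruncated function -/
def X0 (k κ t : ℝ) : ℝ := Real.cos (k * t) * Real.exp (-gg k κ t)

/-- its derivative -/
def X1 (k κ t : ℝ) : ℝ :=
  (-(k * Real.sin (k * t)) - g1 k κ t * Real.cos (k * t)) * Real.exp (-gg k κ t)

/-- the potential -/
def qq (k κ t : ℝ) : ℝ :=
  k ^ 2 - 4 * k * κ * t * Real.sin (2 * k * t) + κ * (1 + Real.cos (2 * k * t)) - (g1 k κ t) ^ 2

lemma der_sin (k t : ℝ) : HasDerivAt (fun t => Real.sin (k * t)) (Real.cos (k * t) * k) t := by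
  have h : HasDerivAt (fun t : ℝ => k * t) k t := by
    simpa using (hasDerivAt_id t).const_mul k
  exact (Real.hasDerivAt_sin (k * t)).comp t h

lemma der_cos (k t : ℝ) : HasDerivAt (fun t => Real.cos (k * t)) (-Real.sin (k * t) * k) t := by
  have h : HasDerivAt (fun t : ℝ => k * t) k t := by
    simpa using (hasDerivAt_id t).const_mul k
  exact (Real.hasDerivAt_cos (k * t)).comp t h

lemma der_gg {k : ℝ} (hk : k ≠ 0) (κ t : ℝ) : HasDerivAt (gg k κ) (g1 k κ t) t := by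
  have h1 : HasDerivAt (fun t : ℝ => t ^ 2 / 2) t t := by
    have := ((hasDerivAt_id t).pow 2).div_const 2
    simpa using this
  have h2 := ((hasDerivAt_id t).mul (der_sin (2 * k) t)).div_const (2 * k)
  have h3 := ((der_cos (2 * k) t).sub_const 1).div_const (4 * k ^ 2)
  have h4 := ((h1.add h2).add h3).const_mul κ
  refine h4.congr_deriv ?_
  simp only [g1, id]
  field_simp
  ring

lemma der_g1 (k κ t : ℝ) : HasDerivAt (g1 k κ)
    (κ * (1 + Real.cos (2 * k * t)) - 2 * k * κ * t * Real.sin (2 * k * t)) t := by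
  have h1 : HasDerivAt (fun t : ℝ => κ * t) κ t := by
    simpa using (hasDerivAt_id t).const_mul κ
  have h2 := h1.mul ((der_cos (2 * k) t).const_add 1)
  refine h2.congr_deriv ?_
  ring

lemma der_X0 {k : ℝ} (hk : k ≠ 0) (κ t : ℝ) : HasDerivAt (X0 k κ) (X1 k κ t) t := by
  have h1 := (der_cos k t).mul ((der_gg hk κ t).neg.exp)
  refine h1.congr_deriv ?_
  simp only [X1, Pi.neg_apply]
  ring

lemma der_X1 {k : ℝ} (hk : k ≠ 0) (κ t : ℝ) :
    HasDerivAt (X1 k κ) (-(qq k κ t * X0 k κ t)) t := by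
  have h1 := (((der_sin k t).const_mul k).neg.sub ((der_g1 k κ t).mul (der_cos k t))).mul
    ((der_gg hk κ t).neg.exp)
  refine h1.congr_deriv ?_
  simp only [qq, X0, g1, Pi.neg_apply, Pi.sub_apply, Pi.mul_apply]
  have h2 : Real.sin (2 * k * t) = 2 * Real.sin (k * t) * Real.cos (k * t) := by
    rw [← Real.sin_two_mul]; ring_nf
  have h3 : Real.cos (2 * k * t) = 2 * Real.cos (k * t) ^ 2 - 1 := by
    rw [← Real.cos_two_mul]; ring_nf
  rw [h2, h3]
  ring

/-- the potential is close to `k²` -/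
lemma qq_near {k κ δ t : ℝ} (hk : 1 ≤ k) (hδ : 0 < δ) (hδ1 : δ ≤ 1) (hκ : κ = δ * k / 10)
    (ht : |t| ≤ 1) : |qq k κ t / k ^ 2 - 1| ≤ δ := by
  have hk0 : 0 < k := by linarith
  have hκ0 : 0 < κ := by rw [hκ]; positivity
  have hk2 : 0 < k ^ 2 := by positivity
  have hs := Real.abs_sin_le_one (2 * k * t)
  have hc := Real.abs_cos_le_one (2 * k * t)
  have h0 : qq k κ t / k ^ 2 - 1 = (-(4 * k * κ * t * Real.sin (2 * k * t)) +
      κ * (1 + Real.cos (2 * k * t)) - (g1 k κ t) ^ 2) / k ^ 2 := by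
    simp only [qq]
    field_simp
    ring
  rw [h0, abs_div, abs_of_pos hk2, div_le_iff₀ hk2]
  have h1 : |4 * k * κ * t * Real.sin (2 * k * t)| ≤ 4 * k * κ := by
    rw [abs_mul, abs_mul, abs_of_pos (by positivity : 0 < 4 * k * κ)]
    have := mul_le_mul ht hs (abs_nonneg _) zero_le_one
    calc 4 * k * κ * |t| * |Real.sin (2 * k * t)| = 4 * k * κ * (|t| * |Real.sin (2 * k * t)|) := by
          ring
      _ ≤ 4 * k * κ * (1 * 1) := mul_le_mul_of_nonneg_left this (by positivity)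
      _ = 4 * k * κ := by ring
  have hc1 : |1 + Real.cos (2 * k * t)| ≤ 2 := by
    rw [abs_le] at hc ⊢
    constructor <;> linarith [hc.1, hc.2]
  have h2 : |κ * (1 + Real.cos (2 * k * t))| ≤ 2 * κ := by
    rw [abs_mul, abs_of_pos hκ0]
    nlinarith
  have h3 : |(g1 k κ t) ^ 2| ≤ 4 * κ ^ 2 := by
    rw [abs_pow]
    have : |g1 k κ t| ≤ 2 * κ := by
      simp only [g1]
      rw [abs_mul, abs_mul, abs_of_pos hκ0]
      have := mul_le_mul ht hc1 (abs_nonneg _) zero_le_one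
      calc κ * |t| * |1 + Real.cos (2 * k * t)| = κ * (|t| * |1 + Real.cos (2 * k * t)|) := by ring
        _ ≤ κ * (1 * 2) := mul_le_mul_of_nonneg_left this hκ0.le
        _ = 2 * κ := by ring
    calc |g1 k κ t| ^ 2 ≤ (2 * κ) ^ 2 := pow_le_pow_left₀ (abs_nonneg _) this 2
      _ = 4 * κ ^ 2 := by ring
  have h4 : |-(4 * k * κ * t * Real.sin (2 * k * t)) + κ * (1 + Real.cos (2 * k * t)) -
      (g1 k κ t) ^ 2| ≤ 4 * k * κ + 2 * κ + 4 * κ ^ 2 := by
    rw [abs_le] at h1 h2 h3 ⊢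
    constructor <;> linarith [h1.1, h1.2, h2.1, h2.2, h3.1, h3.2]
  refine h4.trans ?_
  rw [hκ]
  have h5 : δ * k ≤ δ * k ^ 2 := by nlinarith
  have h6 : δ ^ 2 * k ^ 2 ≤ δ * k ^ 2 := by nlinarith
  have h7 : 0 ≤ δ * k ^ 2 := by positivity
  calc 4 * k * (δ * k / 10) + 2 * (δ * k / 10) + 4 * (δ * k / 10) ^ 2
      = (4 / 10) * (δ * k ^ 2) + (2 / 10) * (δ * k) + (4 / 100) * (δ ^ 2 * k ^ 2) := by ring
    _ ≤ (4 / 10) * (δ * k ^ 2) + (2 / 10) * (δ * k ^ 2) + (4 / 100) * (δ * k ^ 2) := by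
        gcongr
    _ ≤ δ * k ^ 2 := by linarith

/-- the exponent is large away from the origin -/
lemma gg_low {k κ t : ℝ} (hk : 16 ≤ k) (hκ : 0 < κ) (h1 : 1 / 2 ≤ |t|) (h2 : |t| ≤ 1) :
    κ / 16 ≤ gg k κ t := by
  have hk0 : 0 < k := by linarith
  have hs := abs_le.1 (Real.abs_sin_le_one (2 * k * t))
  have hc := abs_le.1 (Real.abs_cos_le_one (2 * k * t))
  have h3 : 1 / 8 ≤ t ^ 2 / 2 := by
    have : (1 / 2 : ℝ) ^ 2 ≤ |t| ^ 2 := pow_le_pow_left₀ (by norm_num) h1 2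
    rw [sq_abs] at this
    linarith
  have h4 : -(1 / 32) ≤ t * Real.sin (2 * k * t) / (2 * k) := by
    have h5 : |t * Real.sin (2 * k * t)| ≤ 1 := by
      rw [abs_mul]
      exact mul_le_one₀ h2 (abs_nonneg _) (Real.abs_sin_le_one _)
    have h6 := (abs_le.1 h5).1
    rw [le_div_iff₀ (by positivity)]
    nlinarith
  have h5 : -(1 / 512) ≤ (Real.cos (2 * k * t) - 1) / (4 * k ^ 2) := by
    rw [le_div_iff₀ (by positivity)]
    nlinarith
  simp only [gg]
  nlinarith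

/-- the exponent is small near the origin -/
lemma gg_up {k κ t : ℝ} (hk : 1 ≤ k) (hκ : 0 < κ) (hκk : κ ≤ k) (h : |t| ≤ 1 / (2 * k)) :
    gg k κ t ≤ 1 / 2 := by
  have hk0 : 0 < k := by linarith
  have h1 : t ^ 2 ≤ (1 / (2 * k)) ^ 2 := by
    rw [← sq_abs]
    exact pow_le_pow_left₀ (abs_nonneg _) h 2
  have h2 : t * Real.sin (2 * k * t) / (2 * k) ≤ t ^ 2 := by
    rw [div_le_iff₀ (by positivity)]
    have h3 : |Real.sin (2 * k * t)| ≤ |2 * k * t| := Real.abs_sin_le_abs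
    calc t * Real.sin (2 * k * t) ≤ |t * Real.sin (2 * k * t)| := le_abs_self _
      _ = |t| * |Real.sin (2 * k * t)| := abs_mul _ _
      _ ≤ |t| * |2 * k * t| := mul_le_mul_of_nonneg_left h3 (abs_nonneg _)
      _ = t ^ 2 * (2 * k) := by
        rw [abs_mul, abs_of_pos (by positivity : 0 < 2 * k)]
        rw [← sq_abs t]
        ring
  have h3 : (Real.cos (2 * k * t) - 1) / (4 * k ^ 2) ≤ 0 :=
    div_nonpos_of_nonpos_of_nonneg (by linarith [Real.cos_le_one (2 * k * t)]) (by positivity)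
  have h4 : t ^ 2 / 2 + t * Real.sin (2 * k * t) / (2 * k) +
      (Real.cos (2 * k * t) - 1) / (4 * k ^ 2) ≤ 3 / 2 * (1 / (2 * k)) ^ 2 := by
    linarith
  simp only [gg]
  calc κ * (t ^ 2 / 2 + t * Real.sin (2 * k * t) / (2 * k) +
        (Real.cos (2 * k * t) - 1) / (4 * k ^ 2)) ≤ κ * (3 / 2 * (1 / (2 * k)) ^ 2) :=
        mul_le_mul_of_nonneg_left h4 hκ.le
    _ ≤ k * (3 / 2 * (1 / (2 * k)) ^ 2) := mul_le_mul_of_nonneg_right hκk (by positivity)
    _ = 3 / 8 * (1 / k) := by field_simp; ring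
    _ ≤ 3 / 8 * 1 := by
        refine mul_le_mul_of_nonneg_left ?_ (by norm_num)
        rw [div_le_one hk0]
        exact hk
    _ ≤ 1 / 2 := by norm_num

/-- a cutoff -/
lemma cutoff : ∃ (χ χ1 χ2 : ℝ → ℝ) (B : ℝ), 0 < B ∧ (∀ t, HasDerivAt χ (χ1 t) t) ∧
    (∀ t, HasDerivAt χ1 (χ2 t) t) ∧ Continuous χ2 ∧ (∀ t, |t| ≤ 1 / 2 → χ t = 1) ∧
    (∀ t, 3 / 4 ≤ |t| → χ t = 0 ∧ χ1 t = 0 ∧ χ2 t = 0) ∧
    (∀ t, |t| < 1 / 2 → χ1 t = 0 ∧ χ2 t = 0) ∧ ∀ t, |χ1 t| ≤ B ∧ |χ2 t| ≤ B := by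
  let f : ContDiffBump (0 : ℝ) := ⟨1 / 2, 5 / 8, by norm_num, by norm_num⟩
  have hf : ContDiff ℝ 2 f := f.contDiff
  have hf1 : ContDiff ℝ 1 (deriv f) := by
    have : ContDiff ℝ (1 + 1) f := by
      have h2 : (1 + 1 : WithTop ℕ∞) = 2 := by norm_num
      rw [h2]
      exact hf
    exact (contDiff_succ_iff_deriv.1 this).2.2
  have hf2 : Continuous (deriv (deriv f)) := hf1.continuous_deriv le_rfl
  have hd0 : ∀ t, HasDerivAt f (deriv f t) t := fun t =>
    (hf.differentiable (by norm_num) t).hasDerivAt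
  have hd1 : ∀ t, HasDerivAt (deriv f) (deriv (deriv f) t) t := fun t =>
    (hf1.differentiable (by norm_num) t).hasDerivAt
  have hout : ∀ t : ℝ, 5 / 8 ≤ |t| → f t = 0 := by
    intro t ht
    refine f.zero_of_le_dist ?_
    rw [Real.dist_eq, sub_zero]
    exact ht
  have hin : ∀ t : ℝ, |t| ≤ 1 / 2 → f t = 1 := by
    intro t ht
    refine f.one_of_mem_closedBall ?_
    rw [Metric.mem_closedBall, Real.dist_eq, sub_zero]
    exact ht
  have ho1 : ∀ t : ℝ, 5 / 8 < |t| → f =ᶠ[𝓝 t] fun _ => 0 := by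
    intro t ht
    have : ∀ᶠ s in 𝓝 t, 5 / 8 < |s| := continuous_abs.continuousAt.eventually_const_lt ht
    filter_upwards [this] with s hs
    exact hout s hs.le
  have hi1 : ∀ t : ℝ, |t| < 1 / 2 → f =ᶠ[𝓝 t] fun _ => 1 := by
    intro t ht
    have : ∀ᶠ s in 𝓝 t, |s| < 1 / 2 := continuous_abs.continuousAt.eventually_lt_const ht
    filter_upwards [this] with s hs
    exact hin s hs.le
  have ho2 : ∀ t : ℝ, 5 / 8 < |t| → deriv f t = 0 ∧ deriv (deriv f) t = 0 := by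
    intro t ht
    have h1 := (ho1 t ht).deriv
    have h2 := h1.deriv
    refine ⟨?_, ?_⟩
    · rw [h1.eq_of_nhds]
      simp
    · rw [h2.eq_of_nhds]
      simp
  have hi2 : ∀ t : ℝ, |t| < 1 / 2 → deriv f t = 0 ∧ deriv (deriv f) t = 0 := by
    intro t ht
    have h1 := (hi1 t ht).deriv
    have h2 := h1.deriv
    refine ⟨?_, ?_⟩
    · rw [h1.eq_of_nhds]
      simp
    · rw [h2.eq_of_nhds]
      simp
  have hb : ∀ h : ℝ → ℝ, Continuous h → (∀ t : ℝ, 5 / 8 < |t| → h t = 0) →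
      ∃ B : ℝ, ∀ t, |h t| ≤ B := by
    intro h hc h0
    obtain ⟨B, hB⟩ := (isCompact_Icc (a := (-1 : ℝ)) (b := 1)).exists_bound_of_continuousOn
      hc.continuousOn
    refine ⟨B, fun t => ?_⟩
    have hB0 : 0 ≤ B := (norm_nonneg _).trans (hB 0 ⟨by norm_num, by norm_num⟩)
    by_cases ht : |t| ≤ 1
    · exact hB t (abs_le.1 ht)
    · rw [h0 t (by push Not at ht; linarith), abs_zero]
      exact hB0
  obtain ⟨B1, hB1⟩ := hb (deriv f) hf1.continuous fun t ht => (ho2 t ht).1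
  obtain ⟨B2, hB2⟩ := hb (deriv (deriv f)) hf2 fun t ht => (ho2 t ht).2
  refine ⟨f, deriv f, deriv (deriv f), max 1 (max B1 B2), by positivity, hd0, hd1, hf2, hin,
    fun t ht => ⟨hout t (by linarith), (ho2 t (by linarith)).1, (ho2 t (by linarith)).2⟩, hi2,
    fun t => ⟨(hB1 t).trans ?_, (hB2 t).trans ?_⟩⟩
  · exact (le_max_left _ _).trans (le_max_right _ _)
  · exact (le_max_right _ _).trans (le_max_right _ _)

/-- a trap on the line with the wave number `k` -/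
structure UT (δ k ε : ℝ) (F F1 F2 q : ℝ → ℝ) : Prop where
  d1 : ∀ t, HasDerivAt F (F1 t) t
  d2 : ∀ t, HasDerivAt F1 (F2 t) t
  c2 : Continuous F2
  cq : Continuous q
  near : ∀ t, |t| ≤ 1 → |q t - 1| ≤ δ
  supp : ∀ t, 3 / 4 ≤ |t| → F t = 0 ∧ F1 t = 0 ∧ F2 t = 0
  pos : 0 < ∫ t, (F t) ^ 2
  res : ∫ t, (F2 t + k ^ 2 * q t * F t) ^ 2 ≤ ε * ∫ t, (F t) ^ 2

lemma unit_res {δ k κ B : ℝ} (hk : 16 ≤ k) (hδ : 0 < δ) (hδ1 : δ ≤ 1) (hκ : κ = δ * k / 10)
    {χ1 χ2 : ℝ → ℝ} (hB : 0 < B) (ho : ∀ t, 3 / 4 ≤ |t| → χ1 t = 0 ∧ χ2 t = 0)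
    (hi : ∀ t, |t| < 1 / 2 → χ1 t = 0 ∧ χ2 t = 0) (hb : ∀ t, |χ1 t| ≤ B ∧ |χ2 t| ≤ B) (t : ℝ) :
    |χ2 t * X0 k κ t + 2 * χ1 t * X1 k κ t| ≤ 4 * B * k * Real.exp (-(κ / 16)) := by
  have hk0 : 0 < k := by linarith
  have hκ0 : 0 < κ := by rw [hκ]; positivity
  have hE := Real.exp_pos (-(κ / 16))
  have hR : 0 ≤ 4 * B * k * Real.exp (-(κ / 16)) := by positivity
  by_cases h1 : |t| < 1 / 2
  · rw [(hi t h1).1, (hi t h1).2]
    simpa using hR
  by_cases h2 : 3 / 4 ≤ |t|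
  · rw [(ho t h2).1, (ho t h2).2]
    simpa using hR
  push Not at h1 h2
  have h3 : Real.exp (-gg k κ t) ≤ Real.exp (-(κ / 16)) := by
    rw [Real.exp_le_exp]
    have := gg_low hk hκ0 h1 (by linarith)
    linarith
  have hE' := Real.exp_pos (-gg k κ t)
  have hs := Real.abs_sin_le_one (k * t)
  have hc := Real.abs_cos_le_one (k * t)
  have hX0 : |X0 k κ t| ≤ Real.exp (-(κ / 16)) := by
    simp only [X0]
    rw [abs_mul, abs_of_pos hE']
    calc |Real.cos (k * t)| * Real.exp (-gg k κ t) ≤ 1 * Real.exp (-gg k κ t) :=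
          mul_le_mul_of_nonneg_right hc hE'.le
      _ ≤ Real.exp (-(κ / 16)) := by rw [one_mul]; exact h3
  have hg1 : |g1 k κ t| ≤ 2 * κ := by
    simp only [g1]
    rw [abs_mul, abs_mul, abs_of_pos hκ0]
    have hc1 : |1 + Real.cos (2 * k * t)| ≤ 2 := by
      have := abs_le.1 (Real.abs_cos_le_one (2 * k * t))
      rw [abs_le]
      constructor <;> linarith [this.1, this.2]
    have := mul_le_mul (by linarith : |t| ≤ 1) hc1 (abs_nonneg _) zero_le_one
    calc κ * |t| * |1 + Real.cos (2 * k * t)| = κ * (|t| * |1 + Real.cos (2 * k * t)|) := by ring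
      _ ≤ κ * (1 * 2) := mul_le_mul_of_nonneg_left this hκ0.le
      _ = 2 * κ := by ring
  have hX1 : |X1 k κ t| ≤ (k + 2 * κ) * Real.exp (-(κ / 16)) := by
    simp only [X1]
    rw [abs_mul, abs_of_pos hE']
    have h5 : |-(k * Real.sin (k * t)) - g1 k κ t * Real.cos (k * t)| ≤ k + 2 * κ := by
      refine (abs_sub _ _).trans (add_le_add ?_ ?_)
      · rw [abs_neg, abs_mul, abs_of_pos hk0]
        nlinarith
      · rw [abs_mul]
        calc |g1 k κ t| * |Real.cos (k * t)| ≤ |g1 k κ t| * 1 :=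
              mul_le_mul_of_nonneg_left hc (abs_nonneg _)
          _ ≤ 2 * κ := by rw [mul_one]; exact hg1
    exact mul_le_mul h5 h3 hE'.le (by positivity)
  have hκk : κ ≤ k / 10 := by
    rw [hκ]
    nlinarith
  obtain ⟨hb1, hb2⟩ := hb t
  calc |χ2 t * X0 k κ t + 2 * χ1 t * X1 k κ t| ≤ |χ2 t * X0 k κ t| + |2 * χ1 t * X1 k κ t| :=
        abs_add_le _ _
    _ ≤ B * Real.exp (-(κ / 16)) + 2 * B * ((k + 2 * κ) * Real.exp (-(κ / 16))) := by
        rw [abs_mul, abs_mul, abs_mul, abs_two]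
        gcongr
    _ = B * (1 + 2 * k + 4 * κ) * Real.exp (-(κ / 16)) := by ring
    _ ≤ B * (4 * k) * Real.exp (-(κ / 16)) := by
        gcongr
        linarith
    _ = 4 * B * k * Real.exp (-(κ / 16)) := by ring

theorem unit0 {δ : ℝ} (hδ : 0 < δ) (hδ1 : δ ≤ 1) : ∃ B : ℝ, 0 < B ∧ ∀ (k : ℕ) (ε : ℝ), 16 ≤ k →
    128 * B ^ 2 * (k : ℝ) ^ 3 * Real.exp (-(δ / 80 * k)) ≤ ε →
    ∃ F F1 F2 q : ℝ → ℝ, UT δ k ε F F1 F2 q := by
  obtain ⟨χ, χ1, χ2, B, hB, hd1, hd2, hc2, hone, hout, hin, hbd⟩ := cutoff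
  refine ⟨B, hB, fun k ε hk16 hk => ?_⟩
  have hk' : (16 : ℝ) ≤ k := by exact_mod_cast hk16
  have hk0 : (0 : ℝ) < k := by linarith
  obtain ⟨κ, hκ⟩ : ∃ κ : ℝ, κ = δ * k / 10 := ⟨_, rfl⟩
  have hκ0 : 0 < κ := by rw [hκ]; positivity
  have hκk : κ ≤ k := by rw [hκ]; nlinarith
  have hk2 : (k : ℝ) ^ 2 ≠ 0 := by positivity
  have hD0 := der_X0 hk0.ne' κ
  have hD1 := der_X1 hk0.ne' κ
  have cX0 : Continuous (X0 k κ) := continuous_iff_continuousAt.2 fun t => (hD0 t).continuousAt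
  have cX1 : Continuous (X1 k κ) := continuous_iff_continuousAt.2 fun t => (hD1 t).continuousAt
  have cχ : Continuous χ := continuous_iff_continuousAt.2 fun t => (hd1 t).continuousAt
  have cχ1 : Continuous χ1 := continuous_iff_continuousAt.2 fun t => (hd2 t).continuousAt
  have cq : Continuous (qq k κ) := by
    unfold qq g1
    fun_prop
  obtain ⟨F, hF⟩ : ∃ F : ℝ → ℝ, F = fun t => χ t * X0 k κ t := ⟨_, rfl⟩
  obtain ⟨F2, hF2⟩ : ∃ F2 : ℝ → ℝ, F2 = fun t => χ2 t * X0 k κ t + 2 * χ1 t * X1 k κ t -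
    χ t * (qq k κ t * X0 k κ t) := ⟨_, rfl⟩
  have cF : Continuous F := by rw [hF]; exact cχ.mul cX0
  have cF2 : Continuous F2 := by
    rw [hF2]
    exact ((hc2.mul cX0).add ((continuous_const.mul cχ1).mul cX1)).sub (cχ.mul (cq.mul cX0))
  have hres : ∀ t, F2 t + (k : ℝ) ^ 2 * (qq k κ t / (k : ℝ) ^ 2) * F t =
      χ2 t * X0 k κ t + 2 * χ1 t * X1 k κ t := by
    intro t
    rw [hF2, hF, mul_div_cancel₀ _ hk2]
    ring
  have hFz : ∀ t, 3 / 4 ≤ |t| → F t = 0 := by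
    intro t ht
    rw [hF]
    simp only
    rw [(hout t ht).1, zero_mul]
  have hFi : Integrable (fun t => (F t) ^ 2) := by
    refine (cF.pow 2).integrable_of_hasCompactSupport ?_
    refine HasCompactSupport.intro (isCompact_Icc (a := (-1 : ℝ)) (b := 1)) fun t ht => ?_
    have h1 : ¬ |t| ≤ 1 := fun h => ht (abs_le.1 h)
    push Not at h1
    simp only [Pi.pow_apply]
    rw [hFz t (by linarith)]
    norm_num
  have hlow : 1 / (4 * k) ≤ ∫ t, (F t) ^ 2 := by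
    have h1 : ∫ t in Icc (-(1 / (2 * (k : ℝ)))) (1 / (2 * k)), (F t) ^ 2 ≤ ∫ t, (F t) ^ 2 :=
      setIntegral_le_integral hFi (Eventually.of_forall fun t => sq_nonneg _)
    have h2 := setIntegral_ge_of_const_le (μ := volume) (c := (1 / 4 : ℝ)) (f := fun t => (F t) ^ 2)
      (s := Icc (-(1 / (2 * (k : ℝ)))) (1 / (2 * k))) measurableSet_Icc (by simp) (fun t ht => by
        have ht' : |t| ≤ 1 / (2 * k) := abs_le.2 ht
        have hk1 : 1 / (2 * (k : ℝ)) ≤ 1 / 2 := by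
          rw [div_le_div_iff₀ (by positivity) (by norm_num)]
          linarith
        have h3 : F t = X0 k κ t := by
          rw [hF]
          simp only
          rw [hone t (ht'.trans hk1), one_mul]
        have h4 : |(k : ℝ) * t| ≤ 1 / 2 := by
          rw [abs_mul, abs_of_pos hk0]
          calc (k : ℝ) * |t| ≤ k * (1 / (2 * k)) := mul_le_mul_of_nonneg_left ht' hk0.le
            _ = 1 / 2 := by field_simp
        have h5 : 7 / 8 ≤ Real.cos (k * t) := by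
          have h6 := Real.one_sub_sq_div_two_le_cos (x := (k : ℝ) * t)
          have h7 : ((k : ℝ) * t) ^ 2 ≤ (1 / 2) ^ 2 := by
            rw [← sq_abs]
            exact pow_le_pow_left₀ (abs_nonneg _) h4 2
          linarith
        have h8 := gg_up (by linarith : (1 : ℝ) ≤ k) hκ0 hκk ht'
        have h9 : Real.exp (-(1 / 2)) ≤ Real.exp (-gg k κ t) := by
          rw [Real.exp_le_exp]
          linarith
        have h10 : (1 / 2 : ℝ) + 1 / 10 ≤ Real.exp (-(1 / 2)) := by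
          have h11 : Real.exp 1 < 2.7182818286 := Real.exp_one_lt_d9
          have h12 : Real.exp (-(1 / 2)) * Real.exp (-(1 / 2)) * Real.exp 1 = 1 := by
            rw [← Real.exp_add, ← Real.exp_add]
            norm_num
          have h13 := Real.exp_pos (-(1 / 2) : ℝ)
          by_contra hcon
          push Not at hcon
          have h14 : Real.exp (-(1 / 2)) * Real.exp (-(1 / 2)) < 0.36 := by nlinarith
          have h15 : Real.exp (-(1 / 2)) * Real.exp (-(1 / 2)) * Real.exp 1 < 1 := by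
            have := Real.exp_pos (1 : ℝ)
            nlinarith
          linarith
        rw [h3]
        simp only [X0]
        have h11 : 1 / 2 ≤ Real.cos (k * t) * Real.exp (-gg k κ t) := by
          calc (1 / 2 : ℝ) ≤ 7 / 8 * (1 / 2 + 1 / 10) := by norm_num
            _ ≤ Real.cos (k * t) * Real.exp (-gg k κ t) :=
              mul_le_mul h5 (h10.trans h9) (by norm_num) (by linarith)
        nlinarith) hFi.integrableOn
    rw [Real.volume_real_Icc_of_le (by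
      have : 0 < 1 / (2 * (k : ℝ)) := by positivity
      linarith)] at h2
    calc 1 / (4 * (k : ℝ)) = ((1 / (2 * (k : ℝ)) - -(1 / (2 * (k : ℝ)))) • (1 / 4 : ℝ) : ℝ) := by
          rw [smul_eq_mul]; field_simp; ring
      _ ≤ _ := h2.trans h1
  refine ⟨F, fun t => χ1 t * X0 k κ t + χ t * X1 k κ t, F2, fun t => qq k κ t / (k : ℝ) ^ 2,
    ?_, ?_, cF2, cq.div_const _, ?_, ?_, ?_, ?_⟩
  · intro t
    rw [hF]
    exact (hd1 t).mul (hD0 t)
  · intro t
    rw [hF2]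
    refine (((hd2 t).mul (hD0 t)).add ((hd1 t).mul (hD1 t))).congr_deriv ?_
    ring
  · intro t ht
    exact qq_near (by linarith) hδ hδ1 hκ ht
  · intro t ht
    refine ⟨hFz t ht, ?_, ?_⟩
    · rw [(hout t ht).1, (hout t ht).2.1]
      ring
    · rw [hF2]
      simp only
      rw [(hout t ht).1, (hout t ht).2.1, (hout t ht).2.2]
      ring
  · have : 0 < 1 / (4 * (k : ℝ)) := by positivity
    linarith
  · have hb := unit_res hk' hδ hδ1 hκ hB (fun t ht => (hout t ht).2) hin hbd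
    obtain ⟨R, hR⟩ : ∃ R : ℝ, R = 4 * B * k * Real.exp (-(κ / 16)) := ⟨_, rfl⟩
    rw [← hR] at hb
    have h1 : ∫ t, (F2 t + (k : ℝ) ^ 2 * (qq k κ t / (k : ℝ) ^ 2) * F t) ^ 2 =
        ∫ t in Icc (-1 : ℝ) 1, (χ2 t * X0 k κ t + 2 * χ1 t * X1 k κ t) ^ 2 := by
      rw [← setIntegral_eq_integral_of_forall_compl_eq_zero (s := Icc (-1 : ℝ) 1)]
      · refine setIntegral_congr_fun measurableSet_Icc fun t _ => ?_
        rw [hres]
      · intro t ht
        have h1 : ¬ |t| ≤ 1 := fun h => ht (abs_le.1 h)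
        push Not at h1
        rw [hres, (hout t (by linarith)).2.1, (hout t (by linarith)).2.2]
        norm_num
    have h2 : ‖∫ t in Icc (-1 : ℝ) 1, (χ2 t * X0 k κ t + 2 * χ1 t * X1 k κ t) ^ 2‖ ≤
        R ^ 2 * volume.real (Icc (-1 : ℝ) 1) := by
      refine norm_setIntegral_le_of_norm_le_const (by simp) fun t _ => ?_
      rw [Real.norm_eq_abs, abs_pow]
      exact pow_le_pow_left₀ (abs_nonneg _) (hb t) 2
    rw [Real.volume_real_Icc_of_le (by norm_num)] at h2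
    rw [h1]
    refine (le_abs_self _).trans (h2.trans ?_)
    have h3 : R ^ 2 * (1 - -1) = 32 * B ^ 2 * k ^ 2 * Real.exp (-(δ / 80 * k)) := by
      have h4 : Real.exp (-(δ / 80 * k)) = Real.exp (-(κ / 16)) ^ 2 := by
        rw [← Real.exp_nat_mul, hκ]
        congr 1
        push_cast
        ring
      rw [hR, h4]
      ring
    rw [h3]
    have hε : 0 ≤ ε := le_trans (by positivity) hk
    calc 32 * B ^ 2 * (k : ℝ) ^ 2 * Real.exp (-(δ / 80 * k))
        = (128 * B ^ 2 * (k : ℝ) ^ 3 * Real.exp (-(δ / 80 * k))) * (1 / (4 * k)) := by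
          field_simp
          ring
      _ ≤ ε * (1 / (4 * k)) := mul_le_mul_of_nonneg_right hk (by positivity)
      _ ≤ ε * ∫ t, (F t) ^ 2 := mul_le_mul_of_nonneg_left hlow hε

theorem unit {δ : ℝ} (hδ : 0 < δ) (hδ1 : δ ≤ 1) :
    ∀ᶠ k : ℕ in atTop, ∃ F F1 F2 q : ℝ → ℝ, UT δ k (Real.exp (-(δ / 160 * k))) F F1 F2 q := by
  obtain ⟨B, hB, hU⟩ := unit0 hδ hδ1
  have hlim : ∀ᶠ k : ℕ in atTop, 128 * B ^ 2 * (k : ℝ) ^ 3 * Real.exp (-(δ / 160 * k)) ≤ 1 := by
    have h1 : Tendsto (fun x : ℝ => x ^ 3 * Real.exp (-x)) atTop (𝓝 0) :=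
      Real.tendsto_pow_mul_exp_neg_atTop_nhds_zero 3
    have h2 : Tendsto (fun k : ℕ => δ / 160 * (k : ℝ)) atTop atTop :=
      tendsto_natCast_atTop_atTop.const_mul_atTop (by positivity)
    have h3 := (h1.comp h2).const_mul (128 * B ^ 2 / (δ / 160) ^ 3)
    rw [mul_zero] at h3
    filter_upwards [h3.eventually_le_const zero_lt_one] with k hk
    refine le_trans (le_of_eq ?_) hk
    simp only [Function.comp]
    rw [mul_pow]
    field_simp
  filter_upwards [hlim, eventually_ge_atTop 16] with k hk hk16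
  refine hU k _ hk16 ?_
  have h1 : Real.exp (-(δ / 80 * k)) = Real.exp (-(δ / 160 * k)) * Real.exp (-(δ / 160 * k)) := by
    rw [← Real.exp_add]
    congr 1
    ring
  have h2 := Real.exp_pos (-(δ / 160 * (k : ℝ)))
  rw [h1]
  calc 128 * B ^ 2 * (k : ℝ) ^ 3 * (Real.exp (-(δ / 160 * k)) * Real.exp (-(δ / 160 * k)))
      = (128 * B ^ 2 * (k : ℝ) ^ 3 * Real.exp (-(δ / 160 * k))) * Real.exp (-(δ / 160 * k)) := by
        ring
    _ ≤ 1 * Real.exp (-(δ / 160 * k)) := mul_le_mul_of_nonneg_right hk h2.le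
    _ = _ := one_mul _

end Pool.Agent.Q233.CPC
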